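import Mathlib
import Pool.Agent.H373R2.T7.Fund

/-! Definitions for almost prime tuples in almost all short intervals. -/

set_option autoImplicit false

open Finset

namespace Pool.Agent.J4.H65.AT

open Pool.Agent.Helper112.LP Pool.Agent.H373R2.T7

/-- one of the numbers `n + b`, `b ∈ B`, is divisible by `p` -/
def Hit (B : Finset ℕ) (p n : ℕ) : Prop := ∃ b ∈ B, p ∣ n + b

/-- `Hit` at `n` or at `n + h` -/
def Hit2 (B : Finset ℕ) (h p n : ℕ) : Prop := Hit B p n ∨ Hit B p (n + h)

/-- the density of the integers `n` without `p` in `pz y` dividing some `n + b` -/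
noncomputable def WW (B : Finset ℕ) (y : ℕ) : ℝ := ∏ p ∈ pz y, (1 - (nuB (Hit B) p : ℝ) / p)

/-- the density of the integers `n` for which the condition holds for `n` and for `n + h` -/
noncomputable def WW2 (B : Finset ℕ) (y h : ℕ) : ℝ := ∏ p ∈ pz y, (1 - (nuB (Hit2 B h) p : ℝ) / p)

/-- the blocks of primes -/
def blk (P : Finset ℕ) (J : ℕ) (i : Fin J) : Finset ℕ := P.filter (fun p => p ∈ Gj ((i : ℕ) + 1))

/-- the number of the prime factors which are allowed in the blocks -/
def bb (b J : ℕ) (i : Fin J) : ℕ := 2 * b + 2 * (J - 1 - (i : ℕ))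

/-- the sets of primes in a block which occur -/
def Fam (P : Finset ℕ) (b J : ℕ) (i : Fin J) : Finset (Finset ℕ) :=
  (blk P J i).powerset.filter (fun U => U.card ≤ bb b J i + 1)

/-- coefficients of the upper bound weight of Brun and Hooley -/
noncomputable def cF (b J : ℕ) (i : Fin J) (U : Finset ℕ) : ℝ :=
  if U.card ≤ bb b J i then (-1) ^ U.card else 0

/-- coefficients of the second weight -/
noncomputable def cG (b J : ℕ) (i : Fin J) (U : Finset ℕ) : ℝ :=
  if U.card ≤ bb b J i then (-1) ^ U.card else 1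

/-- the mean value of a weight -/
noncomputable def VV (P : Finset ℕ) (g : ℕ → ℝ) (b J : ℕ) (c : Fin J → Finset ℕ → ℝ) : ℝ :=
  ∏ i, ∑ U ∈ Fam P b J i, c i U * ∏ l ∈ U, g l

/-- the mean value of the square of a weight -/
noncomputable def EE (P : Finset ℕ) (g : ℕ → ℝ) (b J : ℕ) (c : Fin J → Finset ℕ → ℝ) : ℝ :=
  ∏ i, ∑ U ∈ Fam P b J i, ∑ U' ∈ Fam P b J i, c i U * c i U' * ∏ l ∈ U ∪ U', g l

open Classical in
/-- the weight at a point at which the primes with `hit` occur -/
noncomputable def phi (P : Finset ℕ) (b J : ℕ) (c : Fin J → Finset ℕ → ℝ) (hit : ℕ → Prop) : ℝ :=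
  ∏ i, ∑ U ∈ Fam P b J i, if ∀ l ∈ U, hit l then c i U else 0

end Pool.Agent.J4.H65.AT
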