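import Mathlib
import Pool.Agent.J4.H65.AT.Defs

/-! The fundamental lemma for systems of classes, with an explicit error and with additional
conditions at large primes. -/

set_option autoImplicit false

open Finset

namespace Pool.Agent.J4.H65.AT

open Pool.Agent.Helper112.LP Pool.Agent.H373R2.T7

set_option maxHeartbeats 1000000 in
open Classical in
theorem fundX (c : ℕ) : ∃ C0 y0 : ℕ, 1 ≤ C0 ∧ ∀ b y : ℕ, C0 ≤ b → y0 ≤ y →
    ∀ Q : ℕ → ℕ → Prop, PerB Q c → ∀ U : Finset ℕ, (∀ p ∈ U, p.Prime ∧ y < p) →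
    ∀ R : ℕ → ℕ → Prop, (∀ p n, R p n ↔ R p (n % p)) → ∀ X : ℕ,
    |((((Icc 1 X).filter (fun n : ℕ => (∀ p ∈ pz y, ¬ Q p n) ∧ ∀ p ∈ U, R p n)).card : ℕ) : ℝ) -
      X * (∏ p ∈ pz y, (1 - (nuB Q p : ℝ) / p)) * ∏ p ∈ U, ((nuB R p : ℝ) / p)| ≤
      (1 / 2 : ℝ) ^ b * (X * (∏ p ∈ pz y, (1 - (nuB Q p : ℝ) / p)) * ∏ p ∈ U, ((nuB R p : ℝ) / p)) +
        (y : ℝ) ^ (8 * (C0 * b)) * ∏ p ∈ U, (nuB R p : ℝ) := by
  obtain ⟨C0, hC0, hFL⟩ := Pool.Agent.H20R2.fLem c
  set z0 := C0 + c with hz0
  set K0 : ℕ := ∏ p ∈ pz z0, p with hK0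
  have hK01 : 1 ≤ K0 := Nat.pos_of_ne_zero (prod_ne_zero_iff.2 fun p hp => (mem_pz.1 hp).2.ne_zero)
  refine ⟨C0, max (2 * K0) (z0 + 3), hC0, fun b y hbC hy Q hQ U hU R hR X => ?_⟩
  have hb1' : 1 ≤ b := hC0.trans hbC
  have hCb : 1 ≤ C0 * b := Nat.mul_pos hC0 hb1'
  have hyK : 2 * K0 ≤ y := le_trans (le_max_left _ _) hy
  have hyz : z0 + 3 ≤ y := le_trans (le_max_right _ _) hy
  set J := JJ y with hJ
  set Y : ℕ := 2 ^ 2 ^ J with hY
  have hyY : y < Y := JJ_lt y
  have hYy : Y ≤ y ^ 2 := JJ_le y (by omega)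
  set D : ℕ := Y ^ (C0 * b) with hD
  set P : Finset ℕ := (pz y).filter (fun p => z0 < p) with hP
  have hPp : ∀ p ∈ P, p.Prime ∧ z0 < p ∧ p ≤ Y := by
    intro p hp
    rw [hP, mem_filter] at hp
    exact ⟨(mem_pz.1 hp.1).2, hp.2, ((mem_pz.1 hp.1).1.trans hyY.le)⟩
  have hPy : ∀ p ∈ P, p ≤ y := by
    intro p hp
    rw [hP, mem_filter] at hp
    exact (mem_pz.1 hp.1).1
  have hpzy : pz y = pz z0 ∪ P := by
    ext p
    rw [mem_union, hP, mem_filter, mem_pz, mem_pz]
    constructor
    · rintro ⟨h1, h2⟩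
      rcases Nat.lt_or_ge z0 p with h | h
      · exact Or.inr ⟨⟨h1, h2⟩, h⟩
      · exact Or.inl ⟨h, h2⟩
    · rintro (⟨h1, h2⟩ | ⟨h1, _⟩)
      · exact ⟨by omega, h2⟩
      · exact h1
  have hdisj : Disjoint (pz z0) P := by
    rw [disjoint_left]
    intro p hp hp'
    rw [hP, mem_filter] at hp'
    have := (mem_pz.1 hp).1
    omega
  have hpz0 : ∀ p ∈ pz z0, p.Prime := fun p hp => (mem_pz.1 hp).2
  set A0 : ℝ := ∏ p ∈ pz z0, (1 - (nuB Q p : ℝ) / p) with hA0
  have hfac : ∀ p : ℕ, p.Prime → 0 ≤ 1 - (nuB Q p : ℝ) / p := by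
    intro p hp
    have hp0 : (0 : ℝ) < p := by exact_mod_cast hp.pos
    have h1 : (nuB Q p : ℝ) / p ≤ 1 := by rw [div_le_one hp0]; exact_mod_cast nuB_le Q p
    linarith
  have hA00 : 0 ≤ A0 := prod_nonneg fun p hp => hfac p (hpz0 p hp)
  set BU : ℝ := ∏ p ∈ U, ((nuB R p : ℝ) / p) with hBU
  have hBU0 : 0 ≤ BU := prod_nonneg fun p _ => by positivity
  set NU : ℝ := ∏ p ∈ U, (nuB R p : ℝ) with hNU
  have hNU0 : 0 ≤ NU := prod_nonneg fun p _ => by positivity
  have key := hFL b J z0 P (fun p => (nuB Q p : ℝ) / p) hbC (by omega) hPp (fun p hp => by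
      have hp0 : (0 : ℝ) < p := by exact_mod_cast (hPp p hp).1.pos
      have hp1 : (1 : ℝ) < p := by exact_mod_cast (hPp p hp).1.one_lt
      refine ⟨by positivity, ?_⟩
      apply div_le_div₀ (Nat.cast_nonneg _) (by exact_mod_cast hQ.few p (hPp p hp).1) (by linarith) (by linarith))
    ((Icc 1 X).filter (fun n => (∀ p ∈ pz z0, ¬ Q p n) ∧ ∀ p ∈ U, R p n)) (fun _ => (1 : ℝ))
    (fun p n => Q p n) (X * A0 * BU) (fun _ => (K0 : ℝ) * D * NU)
    (fun _ _ => zero_le_one) (by positivity) (by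
      intro T hT hTD
      have hTp : ∀ p ∈ T, p.Prime := fun p hp => (hPp p (hT hp)).1
      have hdT : Disjoint (pz z0) T := disjoint_of_subset_right hT hdisj
      have hTy : ∀ p ∈ T, p ≤ y := fun p hp => hPy p (hT hp)
      have hzU : ∀ p ∈ pz z0 ∪ T, p ∉ U := by
        intro p hp hpU
        have h1 := (hU p hpU).2
        rcases mem_union.1 hp with h | h
        · have := (mem_pz.1 h).1
          omega
        · have := hTy p h
          omega
      have hdU : Disjoint (pz z0 ∪ T) U := disjoint_left.2 hzU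
      have hUz : ∀ p ∈ U, ¬ p ≤ z0 := fun p hp => by have := (hU p hp).2; omega
      have h3 := count_sys (fun p a => if p ≤ z0 then ¬ Q p a else if p ∈ U then R p a else Q p a) X
        ((pz z0 ∪ T) ∪ U) (fun p hp => by
          rcases mem_union.1 hp with h | h
          · rcases mem_union.1 h with h | h
            · exact hpz0 p h
            · exact hTp p h
          · exact (hU p h).1) 1 le_rfl (fun p hp hd => by
          have hpp : p.Prime := by
            rcases mem_union.1 hp with h | h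
            · rcases mem_union.1 h with h | h
              · exact hpz0 p h
              · exact hTp p h
            · exact (hU p h).1
          exact hpp.one_lt.ne' (Nat.dvd_one.1 hd)) 0
      have hTz : ∀ p ∈ T, ¬ p ≤ z0 := fun p hp => by have := (hPp p (hT hp)).2.1; omega
      have c1 : ∀ p ∈ pz z0, (((range p).filter (fun a => if p ≤ z0 then ¬ Q p a else
          if p ∈ U then R p a else Q p a)).card : ℝ) = p - nuB Q p := by
        intro p hp
        simp only [if_pos (mem_pz.1 hp).1]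
        have h4 := card_filter_add_card_filter_not (s := range p) (fun a => Q p a)
        rw [card_range] at h4
        have h5 : nuB Q p = ((range p).filter (fun a => Q p a)).card := rfl
        have h6 : nuB Q p + ((range p).filter (fun a => ¬ Q p a)).card = p := by rw [h5]; exact h4
        have h7 : (nuB Q p : ℝ) + (((range p).filter (fun a => ¬ Q p a)).card : ℝ) = p := by exact_mod_cast h6
        linarith
      have c2 : ∀ p ∈ T, (((range p).filter (fun a => if p ≤ z0 then ¬ Q p a else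
          if p ∈ U then R p a else Q p a)).card : ℝ) = nuB Q p := by
        intro p hp
        simp only [if_neg (hTz p hp), if_neg (hzU p (mem_union_right _ hp))]
        rfl
      have c3 : ∀ p ∈ U, (((range p).filter (fun a => if p ≤ z0 then ¬ Q p a else
          if p ∈ U then R p a else Q p a)).card : ℝ) = nuB R p := by
        intro p hp
        simp only [if_neg (hUz p hp), if_pos hp]
        rfl
      rw [prod_union hdU, prod_union hdT, prod_union hdU, prod_union hdT] at h3
      have e1 : ∏ p ∈ pz z0, ((((range p).filter (fun a => if p ≤ z0 then ¬ Q p a else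
          if p ∈ U then R p a else Q p a)).card : ℝ) / p) = A0 := by
        apply prod_congr rfl
        intro p hp
        rw [c1 p hp]
        have hp0 : (p : ℝ) ≠ 0 := by exact_mod_cast (hpz0 p hp).ne_zero
        field_simp
      have e2 : ∏ p ∈ T, ((((range p).filter (fun a => if p ≤ z0 then ¬ Q p a else
          if p ∈ U then R p a else Q p a)).card : ℝ) / p) = ∏ p ∈ T, ((nuB Q p : ℝ) / p) := by
        apply prod_congr rfl
        intro p hp
        rw [c2 p hp]
      have e2' : ∏ p ∈ U, ((((range p).filter (fun a => if p ≤ z0 then ¬ Q p a else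
          if p ∈ U then R p a else Q p a)).card : ℝ) / p) = BU := by
        rw [hBU]
        apply prod_congr rfl
        intro p hp
        rw [c3 p hp]
      have e3 : ∏ p ∈ pz z0, (((range p).filter (fun a => if p ≤ z0 then ¬ Q p a else
          if p ∈ U then R p a else Q p a)).card : ℝ) ≤ K0 := by
        rw [hK0]
        push_cast
        apply prod_le_prod (fun _ _ => Nat.cast_nonneg _)
        intro p hp
        rw [c1 p hp]
        have : (0 : ℝ) ≤ nuB Q p := Nat.cast_nonneg _
        linarith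
      have e4 : ∏ p ∈ T, (((range p).filter (fun a => if p ≤ z0 then ¬ Q p a else
          if p ∈ U then R p a else Q p a)).card : ℝ) ≤ D := by
        have h5 : ∏ p ∈ T, (((range p).filter (fun a => if p ≤ z0 then ¬ Q p a else
            if p ∈ U then R p a else Q p a)).card : ℝ) ≤ ∏ p ∈ T, (p : ℝ) := by
          apply prod_le_prod (fun _ _ => Nat.cast_nonneg _)
          intro p hp
          rw [c2 p hp]
          exact_mod_cast nuB_le Q p
        refine h5.trans ?_
        have h6 : ((∏ p ∈ T, p : ℕ) : ℝ) ≤ D := by exact_mod_cast hTD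
        push_cast at h6
        exact h6
      have e4' : ∏ p ∈ U, (((range p).filter (fun a => if p ≤ z0 then ¬ Q p a else
          if p ∈ U then R p a else Q p a)).card : ℝ) = NU := by
        rw [hNU]
        apply prod_congr rfl
        intro p hp
        rw [c3 p hp]
      rw [e1, e2, e2', e4', Nat.cast_one, div_one] at h3
      have e5 : ∑ m ∈ ((Icc 1 X).filter (fun n => (∀ p ∈ pz z0, ¬ Q p n) ∧ ∀ p ∈ U, R p n)).filter
          (fun m => ∀ p ∈ T, Q p m), (1 : ℝ) =
          (((Icc 1 X).filter (fun n => n ≡ 0 [MOD 1] ∧ ∀ p ∈ (pz z0 ∪ T) ∪ U,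
            if p ≤ z0 then ¬ Q p (n % p) else if p ∈ U then R p (n % p) else Q p (n % p))).card : ℝ) := by
        rw [sum_const, nsmul_eq_mul, mul_one, filter_filter]
        congr 2
        apply filter_congr
        intro n _
        constructor
        · rintro ⟨⟨h5, h5'⟩, h6⟩
          refine ⟨Nat.modEq_one, fun p hp => ?_⟩
          rcases mem_union.1 hp with h | h
          · rcases mem_union.1 h with h | h
            · rw [if_pos (mem_pz.1 h).1]
              exact fun h7 => h5 p h ((hQ.per p n).2 h7)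
            · rw [if_neg (hTz p h), if_neg (hzU p (mem_union_right _ h))]
              exact (hQ.per p n).1 (h6 p h)
          · rw [if_neg (hUz p h), if_pos h]
            exact (hR p n).1 (h5' p h)
        · rintro ⟨_, h5⟩
          refine ⟨⟨?_, ?_⟩, ?_⟩
          · intro p hp h7
            have h8 := h5 p (mem_union_left _ (mem_union_left _ hp))
            rw [if_pos (mem_pz.1 hp).1] at h8
            exact h8 ((hQ.per p n).1 h7)
          · intro p hp
            have h8 := h5 p (mem_union_right _ hp)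
            rw [if_neg (hUz p hp), if_pos hp] at h8
            exact (hR p n).2 h8
          · intro p hp
            have h8 := h5 p (mem_union_left _ (mem_union_right _ hp))
            rw [if_neg (hTz p hp), if_neg (hzU p (mem_union_right _ hp))] at h8
            exact (hQ.per p n).2 h8
      rw [e5]
      have e6 : (X : ℝ) * A0 * BU * ∏ p ∈ T, ((nuB Q p : ℝ) / p) =
          X * (A0 * (∏ p ∈ T, ((nuB Q p : ℝ) / p)) * BU) := by ring
      rw [e6]
      refine h3.trans ?_
      apply mul_le_mul_of_nonneg_right _ hNU0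
      exact mul_le_mul e3 e4 (prod_nonneg fun _ _ => Nat.cast_nonneg _) (Nat.cast_nonneg _))
  have f1 : ∑ m ∈ ((Icc 1 X).filter (fun n => (∀ p ∈ pz z0, ¬ Q p n) ∧ ∀ p ∈ U, R p n)).filter
      (fun m => ∀ p ∈ P, ¬ Q p m), (1 : ℝ) =
      ((((Icc 1 X).filter (fun n : ℕ => (∀ p ∈ pz y, ¬ Q p n) ∧ ∀ p ∈ U, R p n)).card : ℕ) : ℝ) := by
    rw [sum_const, nsmul_eq_mul, mul_one, filter_filter]
    congr 2
    apply filter_congr
    intro n _
    rw [hpzy]
    constructor
    · rintro ⟨⟨h5, h5'⟩, h6⟩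
      refine ⟨fun p hp => ?_, h5'⟩
      rcases mem_union.1 hp with h | h
      · exact h5 p h
      · exact h6 p h
    · rintro ⟨h, h'⟩
      exact ⟨⟨fun p hp => h p (mem_union_left _ hp), h'⟩, fun p hp => h p (mem_union_right _ hp)⟩
  have f2 : (X : ℝ) * A0 * BU * ∏ p ∈ P, (1 - (nuB Q p : ℝ) / p) =
      X * (∏ p ∈ pz y, (1 - (nuB Q p : ℝ) / p)) * BU := by
    rw [hpzy, prod_union hdisj]
    ring
  rw [f1, f2] at key
  refine key.trans ?_
  apply add_le_add le_rfl
  -- the error
  rw [sum_const, nsmul_eq_mul]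
  have hcard : (P.powerset.filter (fun T : Finset ℕ => ∏ p ∈ T, p ≤ D)).card ≤ D := by
    calc _ ≤ (Icc 1 D).card := by
          apply card_le_card_of_injOn (fun T : Finset ℕ => ∏ p ∈ T, p)
          · intro T hT
            rw [mem_coe, mem_filter, mem_powerset] at hT
            have h5 : 1 ≤ ∏ p ∈ T, p := Nat.pos_of_ne_zero (prod_ne_zero_iff.2 fun p hp => (hPp p (hT.1 hp)).1.ne_zero)
            exact mem_coe.2 (mem_Icc.2 ⟨h5, hT.2⟩)
          · intro T hT T' hT' h
            rw [mem_coe, mem_filter, mem_powerset] at hT hT'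
            exact prod_inj T T' (fun p hp => (hPp p (hT.1 hp)).1) (fun p hp => (hPp p (hT'.1 hp)).1) h
      _ = D := by rw [Nat.card_Icc]; omega
  have hDy : D ≤ y ^ (2 * (C0 * b)) := by
    calc D ≤ (y ^ 2) ^ (C0 * b) := Nat.pow_le_pow_left hYy _
      _ = _ := by rw [← pow_mul]
  have hJy : J + 2 ≤ 2 * y := JJ_small y (by omega)
  have htot : (J + 2) * (D * (K0 * D)) ≤ y ^ (8 * (C0 * b)) := by
    calc (J + 2) * (D * (K0 * D)) ≤ (2 * y) * (y ^ (2 * (C0 * b)) * (K0 * y ^ (2 * (C0 * b)))) := by gcongr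
      _ = (2 * K0) * (y * (y ^ (2 * (C0 * b)) * y ^ (2 * (C0 * b)))) := by ring
      _ ≤ y * (y * (y ^ (2 * (C0 * b)) * y ^ (2 * (C0 * b)))) := Nat.mul_le_mul_right _ hyK
      _ = y ^ (4 * (C0 * b) + 2) := by
          rw [← pow_add, show 4 * (C0 * b) + 2 = (2 * (C0 * b) + 2 * (C0 * b)) + 2 by ring, pow_add]
          ring
      _ ≤ y ^ (8 * (C0 * b)) := Nat.pow_le_pow_right (by omega) (by omega)
  have h5 : (J + 2) * ((P.powerset.filter (fun T : Finset ℕ => ∏ p ∈ T, p ≤ D)).card * (K0 * D)) ≤ y ^ (8 * (C0 * b)) := by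
    refine le_trans ?_ htot
    gcongr
  have h6 : ((J : ℝ) + 2) * (((P.powerset.filter (fun T : Finset ℕ => ∏ p ∈ T, p ≤ D)).card : ℝ) * ((K0 : ℝ) * D)) ≤
      (y : ℝ) ^ (8 * (C0 * b)) := by exact_mod_cast h5
  calc ((J : ℝ) + 2) * (((P.powerset.filter (fun T : Finset ℕ => ∏ p ∈ T, p ≤ D)).card : ℝ) * ((K0 : ℝ) * D * NU))
      = ((J : ℝ) + 2) * (((P.powerset.filter (fun T : Finset ℕ => ∏ p ∈ T, p ≤ D)).card : ℝ) * ((K0 : ℝ) * D)) * NU := by ring
    _ ≤ _ := mul_le_mul_of_nonneg_right h6 hNU0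

end Pool.Agent.J4.H65.AT
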