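import Mathlib
import Pool.Agent.J4.H65.AT.Defs

/-! The weights as sums over sets of primes. -/

set_option autoImplicit false

open Finset

namespace Pool.Agent.J4.H65.AT

open Pool.Agent.Helper112.LP Pool.Agent.Helper112.LP.Kba Pool.Agent.Helper112.LP.Kbh
open Pool.Agent.H373R2.T7

/-- the sets of primes which occur -/
noncomputable def Sp (P : Finset ℕ) (b J : ℕ) : Finset (Finset ℕ) :=
  (Fintype.piFinset (Fam P b J)).image bhU

/-- the coefficient of a set -/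
noncomputable def co (b J : ℕ) (c : Fin J → Finset ℕ → ℝ) (S : Finset ℕ) : ℝ :=
  ∏ i, c i (S.filter (fun p => p ∈ Gj ((i : ℕ) + 1)))

lemma fam_sub {P : Finset ℕ} {b J : ℕ} {T : Fin J → Finset ℕ}
    (hT : T ∈ Fintype.piFinset (Fam P b J)) (i : Fin J) : T i ⊆ blk P J i ∧ T i ⊆ Gj ((i : ℕ) + 1) ∧
      (T i).card ≤ 2 * b + 2 * (J - 1 - (i : ℕ)) + 1 := by
  rw [Fintype.mem_piFinset] at hT
  have h := hT i
  unfold Fam at h
  rw [mem_filter, mem_powerset] at h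
  refine ⟨h.1, fun p hp => ?_, h.2⟩
  have := h.1 hp
  unfold blk at this
  exact (mem_filter.1 this).2

lemma bhU_filter {J : ℕ} {T : Fin J → Finset ℕ} (hT : ∀ i, T i ⊆ Gj ((i : ℕ) + 1)) (i : Fin J) :
    (bhU T).filter (fun p => p ∈ Gj ((i : ℕ) + 1)) = T i := by
  ext p
  rw [mem_filter]
  unfold bhU
  rw [mem_biUnion]
  constructor
  · rintro ⟨⟨j, _, hj⟩, hp⟩
    have := bh_Gj_disj hp (hT j hj)
    have hij : i = j := Fin.ext this
    rw [hij]
    exact hj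
  · intro hp
    exact ⟨⟨i, mem_univ _, hp⟩, hT i hp⟩

lemma bhU_inj {P : Finset ℕ} {b J : ℕ} {T T' : Fin J → Finset ℕ}
    (hT : T ∈ Fintype.piFinset (Fam P b J)) (hT' : T' ∈ Fintype.piFinset (Fam P b J))
    (h : bhU T = bhU T') : T = T' := by
  funext i
  rw [← bhU_filter (fun i => (fam_sub hT i).2.1) i, ← bhU_filter (fun i => (fam_sub hT' i).2.1) i, h]

lemma sum_Sp {P : Finset ℕ} {b J : ℕ} (f : Finset ℕ → ℝ) :
    ∑ S ∈ Sp P b J, f S = ∑ T ∈ Fintype.piFinset (Fam P b J), f (bhU T) := by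
  unfold Sp
  rw [sum_image]
  intro T hT T' hT' h
  exact bhU_inj hT hT' h

lemma co_bhU {P : Finset ℕ} {b J : ℕ} (c : Fin J → Finset ℕ → ℝ) {T : Fin J → Finset ℕ}
    (hT : T ∈ Fintype.piFinset (Fam P b J)) : co b J c (bhU T) = ∏ i, c i (T i) := by
  unfold co
  apply prod_congr rfl
  intro i _
  rw [bhU_filter (fun i => (fam_sub hT i).2.1) i]

lemma mem_Sp {P : Finset ℕ} {b J : ℕ} {S : Finset ℕ} (hS : S ∈ Sp P b J) :
    S ⊆ P ∧ ∏ l ∈ S, l ≤ (2 ^ 2 ^ J) ^ (4 * b + 6) := by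
  unfold Sp at hS
  rw [mem_image] at hS
  obtain ⟨T, hT, rfl⟩ := hS
  constructor
  · intro p hp
    unfold bhU at hp
    rw [mem_biUnion] at hp
    obtain ⟨i, _, hi⟩ := hp
    have := (fam_sub hT i).1 hi
    unfold blk at this
    exact (mem_filter.1 this).1
  · have := bh_level (b0 := 2 * b) T (fun i => (fam_sub hT i).2.1) (fun i => (fam_sub hT i).2.2)
    rw [show 2 * (2 * b) + 6 = 4 * b + 6 by ring] at this
    exact this

lemma abs_co {b J : ℕ} {c : Fin J → Finset ℕ → ℝ} (hc : ∀ i U, |c i U| ≤ 1) (S : Finset ℕ) :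
    |co b J c S| ≤ 1 := by
  unfold co
  rw [abs_prod]
  exact prod_le_one (fun _ _ => abs_nonneg _) (fun i _ => hc i _)

lemma abs_cF (b J : ℕ) (i : Fin J) (U : Finset ℕ) : |cF b J i U| ≤ 1 := by
  unfold cF
  split_ifs
  · rw [abs_neg_one_pow]
  · simp

lemma abs_cG (b J : ℕ) (i : Fin J) (U : Finset ℕ) : |cG b J i U| ≤ 1 := by
  unfold cG
  split_ifs
  · rw [abs_neg_one_pow]
  · simp

lemma VV_eq (P : Finset ℕ) (g : ℕ → ℝ) (b J : ℕ) (c : Fin J → Finset ℕ → ℝ) :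
    VV P g b J c = ∑ S ∈ Sp P b J, co b J c S * ∏ l ∈ S, g l := by
  rw [sum_Sp]
  unfold VV
  rw [prod_univ_sum]
  apply sum_congr rfl
  intro T hT
  rw [co_bhU c hT, ← bh_pT_eq T (fun i => (fam_sub hT i).2.1) g, prod_mul_distrib]

lemma EE_eq (P : Finset ℕ) (g : ℕ → ℝ) (b J : ℕ) (c : Fin J → Finset ℕ → ℝ) :
    EE P g b J c = ∑ S ∈ Sp P b J, ∑ S' ∈ Sp P b J, co b J c S * co b J c S' * ∏ l ∈ S ∪ S', g l := by
  rw [sum_Sp]
  unfold EE
  rw [prod_univ_sum]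
  apply sum_congr rfl
  intro T hT
  rw [sum_Sp, prod_univ_sum]
  apply sum_congr rfl
  intro T' hT'
  have hU : bhU T ∪ bhU T' = bhU (fun i => T i ∪ T' i) := by
    ext p
    unfold bhU
    simp only [mem_union, mem_biUnion, mem_univ, true_and]
    constructor
    · rintro (⟨i, h⟩ | ⟨i, h⟩)
      · exact ⟨i, Or.inl h⟩
      · exact ⟨i, Or.inr h⟩
    · rintro ⟨i, h | h⟩
      · exact Or.inl ⟨i, h⟩
      · exact Or.inr ⟨i, h⟩
  rw [co_bhU c hT, co_bhU c hT', hU,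
    ← bh_pT_eq (fun i => T i ∪ T' i) (fun i => union_subset (fam_sub hT i).2.1 (fam_sub hT' i).2.1) g,
    prod_mul_distrib, prod_mul_distrib]

open Classical in
lemma phi_eq (P : Finset ℕ) (b J : ℕ) (c : Fin J → Finset ℕ → ℝ) (hit : ℕ → Prop) :
    phi P b J c hit = ∑ S ∈ Sp P b J, if ∀ l ∈ S, hit l then co b J c S else 0 := by
  rw [sum_Sp]
  unfold phi
  rw [prod_univ_sum]
  apply sum_congr rfl
  intro T hT
  rw [co_bhU c hT, Fintype.prod_ite_zero]
  have : (∀ i, ∀ l ∈ T i, hit l) ↔ ∀ l ∈ bhU T, hit l := by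
    unfold bhU
    simp only [mem_biUnion, mem_univ, true_and]
    constructor
    · rintro h l ⟨i, hi⟩
      exact h i l hi
    · intro h i l hl
      exact h l ⟨i, hl⟩
  simp only [this]

/-! ### sums over the sets -/

lemma sum_kap (P : Finset ℕ) (g : ℕ → ℝ) (hg : ∀ p ∈ P, 0 ≤ g p) (b J : ℕ) :
    ∑ S ∈ Sp P b J, ∏ l ∈ S, g l ≤ ∏ p ∈ P, (1 + g p) := by
  rw [prod_one_add]
  apply sum_le_sum_of_subset_of_nonneg
  · intro S hS
    exact mem_powerset.2 (mem_Sp hS).1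
  · intro S hS _
    exact prod_nonneg fun p hp => hg p (mem_powerset.1 hS hp)

lemma sum_kap_mem (P : Finset ℕ) (g : ℕ → ℝ) (hg : ∀ p ∈ P, 0 ≤ g p) (b J : ℕ) (q : ℕ) (hq : q ∈ P) :
    ∑ S ∈ (Sp P b J).filter (fun S => q ∈ S), ∏ l ∈ S, g l ≤ g q * ∏ p ∈ P, (1 + g p) := by
  have h1 : ∑ S ∈ (Sp P b J).filter (fun S => q ∈ S), ∏ l ∈ S, g l ≤
      ∑ S ∈ P.powerset.filter (fun S => q ∈ S), ∏ l ∈ S, g l := by
    apply sum_le_sum_of_subset_of_nonneg
    · intro S hS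
      rw [mem_filter] at hS ⊢
      exact ⟨mem_powerset.2 (mem_Sp hS.1).1, hS.2⟩
    · intro S hS _
      rw [mem_filter] at hS
      exact prod_nonneg fun p hp => hg p (mem_powerset.1 hS.1 hp)
  refine h1.trans ?_
  have h2 : ∑ S ∈ P.powerset.filter (fun S => q ∈ S), ∏ l ∈ S, g l =
      ∑ S ∈ (P.erase q).powerset, g q * ∏ l ∈ S, g l := by
    symm
    apply sum_bij (fun S _ => insert q S)
    · intro S hS
      rw [mem_powerset] at hS
      rw [mem_filter, mem_powerset]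
      refine ⟨?_, mem_insert_self _ _⟩
      intro p hp
      rcases mem_insert.1 hp with h | h
      · rw [h]; exact hq
      · exact mem_of_mem_erase (hS h)
    · intro S hS S' hS' h
      rw [mem_powerset] at hS hS'
      have a1 : q ∉ S := fun h' => (mem_erase.1 (hS h')).1 rfl
      have a2 : q ∉ S' := fun h' => (mem_erase.1 (hS' h')).1 rfl
      have := congrArg (fun s => s.erase q) h
      simpa [erase_insert a1, erase_insert a2] using this
    · intro S hS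
      rw [mem_filter, mem_powerset] at hS
      refine ⟨S.erase q, ?_, insert_erase hS.2⟩
      rw [mem_powerset]
      exact erase_subset_erase _ hS.1
    · intro S hS
      rw [mem_powerset] at hS
      rw [prod_insert (fun h' => (mem_erase.1 (hS h')).1 rfl)]
  rw [h2, ← mul_sum, ← prod_one_add]
  apply mul_le_mul_of_nonneg_left _ (hg q hq)
  rw [← mul_prod_erase P (fun p => 1 + g p) hq]
  have h3 : 0 ≤ ∏ p ∈ P.erase q, (1 + g p) :=
    prod_nonneg fun p hp => by have := hg p (mem_of_mem_erase hp); linarith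
  have h4 := hg q hq
  nlinarith

lemma sum_kap_pairs (P : Finset ℕ) (g : ℕ → ℝ) (hg : ∀ p ∈ P, 0 ≤ g p) (b J : ℕ) :
    ∑ S ∈ Sp P b J, ∑ S' ∈ (Sp P b J).filter (fun S' => ¬ Disjoint S S'),
      (∏ l ∈ S, g l) * ∏ l ∈ S', g l ≤ (∑ q ∈ P, g q ^ 2) * (∏ p ∈ P, (1 + g p)) ^ 2 := by
  have h0 : ∀ S ∈ Sp P b J, 0 ≤ ∏ l ∈ S, g l := fun S hS =>
    prod_nonneg fun p hp => hg p ((mem_Sp hS).1 hp)
  have h1 : ∑ S ∈ Sp P b J, ∑ S' ∈ (Sp P b J).filter (fun S' => ¬ Disjoint S S'),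
      (∏ l ∈ S, g l) * ∏ l ∈ S', g l ≤
      ∑ S ∈ Sp P b J, ∑ S' ∈ Sp P b J, ∑ q ∈ P, (if q ∈ S ∧ q ∈ S' then
        (∏ l ∈ S, g l) * ∏ l ∈ S', g l else 0) := by
    apply sum_le_sum
    intro S hS
    rw [sum_filter]
    apply sum_le_sum
    intro S' hS'
    have h2 : 0 ≤ (∏ l ∈ S, g l) * ∏ l ∈ S', g l := mul_nonneg (h0 S hS) (h0 S' hS')
    have hn : ∀ q : ℕ, 0 ≤ (if q ∈ S ∧ q ∈ S' then (∏ l ∈ S, g l) * ∏ l ∈ S', g l else 0) := by
      intro q
      split_ifs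
      · exact h2
      · exact le_rfl
    by_cases h : Disjoint S S'
    · rw [if_neg (not_not.2 h)]
      exact sum_nonneg fun q _ => hn q
    · rw [if_pos h]
      rw [not_disjoint_iff] at h
      obtain ⟨q, hq, hq'⟩ := h
      calc (∏ l ∈ S, g l) * ∏ l ∈ S', g l = if q ∈ S ∧ q ∈ S' then
            (∏ l ∈ S, g l) * ∏ l ∈ S', g l else 0 := by rw [if_pos ⟨hq, hq'⟩]
        _ ≤ _ := single_le_sum (f := fun q => if q ∈ S ∧ q ∈ S' then
            (∏ l ∈ S, g l) * ∏ l ∈ S', g l else 0) (fun q _ => hn q) ((mem_Sp hS).1 hq)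
  refine h1.trans ?_
  have h3 : ∑ S ∈ Sp P b J, ∑ S' ∈ Sp P b J, ∑ q ∈ P, (if q ∈ S ∧ q ∈ S' then
        (∏ l ∈ S, g l) * ∏ l ∈ S', g l else 0) =
      ∑ q ∈ P, (∑ S ∈ (Sp P b J).filter (fun S => q ∈ S), ∏ l ∈ S, g l) ^ 2 := by
    calc _ = ∑ S ∈ Sp P b J, ∑ q ∈ P, ∑ S' ∈ Sp P b J, (if q ∈ S ∧ q ∈ S' then
        (∏ l ∈ S, g l) * ∏ l ∈ S', g l else 0) := by
          apply sum_congr rfl; intro S _; rw [sum_comm]
      _ = ∑ q ∈ P, ∑ S ∈ Sp P b J, ∑ S' ∈ Sp P b J, (if q ∈ S ∧ q ∈ S' then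
        (∏ l ∈ S, g l) * ∏ l ∈ S', g l else 0) := sum_comm
      _ = _ := by
          apply sum_congr rfl
          intro q _
          rw [sq, sum_filter, sum_mul_sum]
          apply sum_congr rfl
          intro S _
          apply sum_congr rfl
          intro S' _
          by_cases h1 : q ∈ S <;> by_cases h2 : q ∈ S' <;> simp [h1, h2]
  rw [h3, sum_mul]
  apply sum_le_sum
  intro q hq
  have h4 := sum_kap_mem P g hg b J q hq
  have h5 : 0 ≤ ∑ S ∈ (Sp P b J).filter (fun S => q ∈ S), ∏ l ∈ S, g l :=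
    sum_nonneg fun S hS => h0 S (mem_filter.1 hS).1
  calc (∑ S ∈ (Sp P b J).filter (fun S => q ∈ S), ∏ l ∈ S, g l) ^ 2 ≤
        (g q * ∏ p ∈ P, (1 + g p)) ^ 2 := pow_le_pow_left₀ h5 h4 2
    _ = _ := by ring

lemma sum_union_powerset (P : Finset ℕ) (g : ℕ → ℝ) :
    ∑ S ∈ P.powerset, ∑ S' ∈ P.powerset, ∏ l ∈ S ∪ S', g l = ∏ p ∈ P, (1 + 3 * g p) := by
  induction P using Finset.induction_on with
  | empty => simp
  | insert q P hq ih =>
    rw [prod_insert hq, sum_powerset_insert hq]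
    have hS : ∀ S ∈ P.powerset, q ∉ S := fun S hS h => hq (mem_powerset.1 hS h)
    have e1 : ∀ S ∈ P.powerset, ∑ S' ∈ (insert q P).powerset, ∏ l ∈ S ∪ S', g l =
        (1 + g q) * ∑ S' ∈ P.powerset, ∏ l ∈ S ∪ S', g l := by
      intro S hS1
      rw [sum_powerset_insert hq, add_mul, one_mul, mul_sum]
      congr 1
      apply sum_congr rfl
      intro S' hS'
      rw [union_insert, prod_insert]
      rw [mem_union]
      rintro (h | h)
      · exact hS S hS1 h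
      · exact hS S' hS' h
    have e2 : ∀ S ∈ P.powerset, ∑ S' ∈ (insert q P).powerset, ∏ l ∈ insert q S ∪ S', g l =
        (2 * g q) * ∑ S' ∈ P.powerset, ∏ l ∈ S ∪ S', g l := by
      intro S hS1
      rw [sum_powerset_insert hq]
      have a1 : ∀ S' ∈ P.powerset, ∏ l ∈ insert q S ∪ S', g l = g q * ∏ l ∈ S ∪ S', g l := by
        intro S' hS'
        rw [insert_union, prod_insert]
        rw [mem_union]
        rintro (h | h)
        · exact hS S hS1 h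
        · exact hS S' hS' h
      have a2 : ∀ S' ∈ P.powerset, ∏ l ∈ insert q S ∪ insert q S', g l = g q * ∏ l ∈ S ∪ S', g l := by
        intro S' hS'
        rw [insert_union, union_insert, insert_idem, prod_insert]
        rw [mem_union]
        rintro (h | h)
        · exact hS S hS1 h
        · exact hS S' hS' h
      rw [sum_congr rfl a1, sum_congr rfl a2, ← mul_sum]
      ring
    rw [sum_congr rfl e1, sum_congr rfl e2, ← mul_sum, ← mul_sum, ih]
    ring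

lemma sum_kap_union (P : Finset ℕ) (g : ℕ → ℝ) (hg : ∀ p ∈ P, 0 ≤ g p) (b J : ℕ) :
    ∑ S ∈ Sp P b J, ∑ S' ∈ Sp P b J, ∏ l ∈ S ∪ S', g l ≤ ∏ p ∈ P, (1 + 3 * g p) := by
  rw [← sum_union_powerset]
  have hsub : Sp P b J ⊆ P.powerset := fun S hS => mem_powerset.2 (mem_Sp hS).1
  have hn : ∀ S ∈ P.powerset, ∀ S' ∈ P.powerset, 0 ≤ ∏ l ∈ S ∪ S', g l := by
    intro S hS S' hS'
    apply prod_nonneg
    intro p hp
    rcases mem_union.1 hp with h | h
    · exact hg p (mem_powerset.1 hS h)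
    · exact hg p (mem_powerset.1 hS' h)
  calc ∑ S ∈ Sp P b J, ∑ S' ∈ Sp P b J, ∏ l ∈ S ∪ S', g l ≤
        ∑ S ∈ Sp P b J, ∑ S' ∈ P.powerset, ∏ l ∈ S ∪ S', g l := by
          apply sum_le_sum
          intro S hS
          exact sum_le_sum_of_subset_of_nonneg hsub fun S' hS' _ => hn S (hsub hS) S' hS'
    _ ≤ _ := sum_le_sum_of_subset_of_nonneg hsub fun S hS _ =>
          sum_nonneg fun S' hS' => hn S hS S' hS'

lemma card_Sp (P : Finset ℕ) (hP : ∀ p ∈ P, p.Prime) (b J : ℕ) :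
    (Sp P b J).card ≤ (2 ^ 2 ^ J) ^ (4 * b + 6) := by
  calc (Sp P b J).card ≤ (Icc 1 ((2 ^ 2 ^ J) ^ (4 * b + 6))).card := by
        apply card_le_card_of_injOn (fun T : Finset ℕ => ∏ p ∈ T, p)
        · intro T hT
          have h1 := mem_Sp (mem_coe.1 hT)
          have h5 : 1 ≤ ∏ p ∈ T, p :=
            Nat.pos_of_ne_zero (prod_ne_zero_iff.2 fun p hp => (hP p (h1.1 hp)).ne_zero)
          exact mem_coe.2 (mem_Icc.2 ⟨h5, h1.2⟩)
        · intro T hT T' hT' h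
          have h1 := mem_Sp (mem_coe.1 hT)
          have h2 := mem_Sp (mem_coe.1 hT')
          exact prod_inj T T' (fun p hp => hP p (h1.1 hp)) (fun p hp => hP p (h2.1 hp)) h
    _ = _ := by rw [Nat.card_Icc]; omega

lemma pow_card_le {P : Finset ℕ} {b J k : ℕ} (hk : ∀ p ∈ P, k ≤ p) {S : Finset ℕ} (hS : S ∈ Sp P b J) :
    k ^ S.card ≤ (2 ^ 2 ^ J) ^ (4 * b + 6) := by
  have h1 := mem_Sp hS
  refine le_trans ?_ h1.2
  rw [← prod_const]
  exact prod_le_prod' fun p hp => hk p (h1.1 hp)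

end Pool.Agent.J4.H65.AT
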