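import Mathlib
import Pool.Agent.J4.H65.AT.FundX
import Pool.Agent.J4.H65.AT.Weights

/-! Mean values and correlations of the weights. -/

set_option autoImplicit false

open Finset

namespace Pool.Agent.J4.H65.AT

open Pool.Agent.Helper112.LP Pool.Agent.H373R2.T7

lemma nuB_congr {Q Q' : ℕ → ℕ → Prop} {p : ℕ} (h : ∀ n, Q p n ↔ Q' p n) : nuB Q p = nuB Q' p := by
  classical
  unfold nuB
  congr 1
  apply filter_congr
  intro n _
  exact h n

lemma nuB_shift {Q : ℕ → ℕ → Prop} {p : ℕ} (hQ : ∀ n, Q p n ↔ Q p (n % p)) (Y : ℕ) :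
    nuB (fun p n => Q p (Y + n)) p = nuB Q p := by
  classical
  have hper : Function.Periodic (fun n => Q p n) p := by
    intro n
    simp only [eq_iff_iff]
    rw [hQ (n + p), Nat.add_mod_right, ← hQ n]
  have h1 := Nat.filter_Ico_card_eq_of_periodic Y p (fun n => Q p n) hper
  have h2 := Nat.filter_Ico_card_eq_of_periodic 0 p (fun n => Q p n) hper
  unfold nuB
  have h3 : ((range p).filter (fun n => Q p n)).card = Nat.count (fun n => Q p n) p := by
    rw [← h2, zero_add, ← range_eq_Ico]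
  rw [h3, ← h1]
  apply card_bij (fun n _ => Y + n)
  · intro n hn
    rw [mem_filter, mem_range] at hn
    rw [mem_filter, mem_Ico]
    exact ⟨⟨by omega, by omega⟩, hn.2⟩
  · intro n _ m _ h
    omega
  · intro m hm
    rw [mem_filter, mem_Ico] at hm
    refine ⟨m - Y, ?_, by omega⟩
    rw [mem_filter, mem_range]
    refine ⟨by omega, ?_⟩
    have : Y + (m - Y) = m := by omega
    show Q p (Y + (m - Y))
    rw [this]
    exact hm.2

lemma hit_modc (B : Finset ℕ) (p n : ℕ) : Hit B p n ↔ Hit B p (n % p) := by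
  unfold Hit
  have : ∀ b, p ∣ n + b ↔ p ∣ n % p + b := by
    intro b
    rw [Nat.dvd_iff_mod_eq_zero, Nat.dvd_iff_mod_eq_zero, Nat.mod_add_mod]
  simp only [this]

lemma nuB_hit_le (B : Finset ℕ) (p : ℕ) : nuB (Hit B) p ≤ B.card := by
  classical
  unfold nuB
  have h1 : (range p).filter (fun r => Hit B p r) ⊆
      B.biUnion (fun b => (range p).filter (fun r => p ∣ r + b)) := by
    intro r hr
    rw [mem_filter] at hr
    obtain ⟨b, hb, hd⟩ := hr.2
    rw [mem_biUnion]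
    exact ⟨b, hb, mem_filter.2 ⟨hr.1, hd⟩⟩
  refine (card_le_card h1).trans (card_biUnion_le.trans ?_)
  rw [card_eq_sum_ones]
  apply sum_le_sum
  intro b _
  rw [card_le_one]
  intro r hr r' hr'
  rw [mem_filter, mem_range] at hr hr'
  have h2 : r ≡ r' [MOD p] := by
    have : r + b ≡ r' + b [MOD p] := by
      unfold Nat.ModEq
      rw [Nat.dvd_iff_mod_eq_zero.1 hr.2, Nat.dvd_iff_mod_eq_zero.1 hr'.2]
    exact Nat.ModEq.add_right_cancel' b this
  exact Nat.ModEq.eq_of_lt_of_lt h2 hr.1 hr'.1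

lemma perB_Hit (B : Finset ℕ) (c : ℕ) (h : B.card ≤ c) : PerB (Hit B) c :=
  ⟨hit_modc B, fun p _ => (nuB_hit_le B p).trans h⟩

lemma hit_shift (B : Finset ℕ) (Y p n : ℕ) : Hit B p (Y + n) ↔ Hit (B.image (fun b => b + Y)) p n := by
  unfold Hit
  constructor
  · rintro ⟨b, hb, h⟩
    refine ⟨b + Y, mem_image_of_mem _ hb, ?_⟩
    have : n + (b + Y) = Y + n + b := by ring
    rw [this]; exact h
  · rintro ⟨b, hb, h⟩
    rw [mem_image] at hb
    obtain ⟨b', hb', rfl⟩ := hb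
    refine ⟨b', hb', ?_⟩
    have : n + (b' + Y) = Y + n + b' := by ring
    rw [← this]; exact h

lemma hit2_iff (B : Finset ℕ) (h p n : ℕ) :
    Hit2 B h p n ↔ Hit (B ∪ B.image (fun b => b + h)) p n := by
  unfold Hit2
  have h1 : Hit B p (n + h) ↔ Hit (B.image (fun b => b + h)) p n := by
    rw [add_comm n h]; exact hit_shift B h p n
  rw [h1]
  unfold Hit
  constructor
  · rintro (⟨b, hb, h⟩ | ⟨b, hb, h⟩)
    · exact ⟨b, mem_union_left _ hb, h⟩
    · exact ⟨b, mem_union_right _ hb, h⟩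
  · rintro ⟨b, hb, h⟩
    rcases mem_union.1 hb with h' | h'
    · exact Or.inl ⟨b, h', h⟩
    · exact Or.inr ⟨b, h', h⟩

lemma hit2_mod (B : Finset ℕ) (h p n : ℕ) : Hit2 B h p n ↔ Hit2 B h p (n % p) := by
  rw [hit2_iff, hit2_iff]; exact hit_modc _ p n

lemma perB1 (B : Finset ℕ) (Y : ℕ) : PerB (fun p n => Hit B p (Y + n)) (2 * B.card) := by
  have h := perB_Hit (B.image (fun b => b + Y)) (2 * B.card) (by
    have := card_image_le (s := B) (f := fun b => b + Y)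
    omega)
  refine ⟨fun p n => ?_, fun p hp => ?_⟩
  · rw [hit_shift, hit_shift]; exact h.per p n
  · rw [nuB_congr (Q' := Hit (B.image (fun b => b + Y))) (fun n => hit_shift B Y p n)]
    exact h.few p hp

lemma perB2 (B : Finset ℕ) (Y h : ℕ) : PerB (fun p n => Hit2 B h p (Y + n)) (2 * B.card) := by
  set B' := (B ∪ B.image (fun b => b + h)).image (fun b => b + Y) with hB'
  have hi : ∀ p n, Hit2 B h p (Y + n) ↔ Hit B' p n := by
    intro p n
    rw [hit2_iff, hit_shift]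
  have hc := perB_Hit B' (2 * B.card) (by
    rw [hB']
    have h1 := card_image_le (s := B ∪ B.image (fun b => b + h)) (f := fun b => b + Y)
    have h2 := card_union_le B (B.image (fun b => b + h))
    have h3 := card_image_le (s := B) (f := fun b => b + h)
    omega)
  refine ⟨fun p n => ?_, fun p hp => ?_⟩
  · rw [hi, hi]; exact hc.per p n
  · rw [nuB_congr (Q' := Hit B') (fun n => hi p n)]
    exact hc.few p hp

open Classical in
/-- the weight on the integers without small primes -/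
noncomputable def GG (B P : Finset ℕ) (y b J : ℕ) (c : Fin J → Finset ℕ → ℝ) (n : ℕ) : ℝ :=
  if ∀ p ∈ pz y, ¬ Hit B p n then phi P b J c (fun p => Hit B p n) else 0

open Classical in
/-- the fundamental lemma, summed with bounded coefficients -/
theorem sum_fund (c : ℕ) : ∃ C0 y0 : ℕ, 1 ≤ C0 ∧ ∀ s y : ℕ, C0 ≤ s → y0 ≤ y →
    ∀ Q : ℕ → ℕ → Prop, PerB Q c → ∀ (ι : Type) (τ : Finset ι) (a : ι → ℝ) (U : ι → Finset ℕ)
    (R : ι → ℕ → ℕ → Prop) (k : ℕ), (∀ t ∈ τ, |a t| ≤ 1) → (∀ t ∈ τ, ∀ p ∈ U t, p.Prime ∧ y < p) →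
    (∀ t p n, R t p n ↔ R t p (n % p)) → (∀ t ∈ τ, ∀ p ∈ U t, nuB (R t) p = k) → ∀ X : ℕ,
    |(∑ t ∈ τ, a t * ((((Icc 1 X).filter (fun n : ℕ => (∀ p ∈ pz y, ¬ Q p n) ∧
        ∀ p ∈ U t, R t p n)).card : ℕ) : ℝ)) -
      X * (∏ p ∈ pz y, (1 - (nuB Q p : ℝ) / p)) * ∑ t ∈ τ, a t * ∏ p ∈ U t, ((k : ℝ) / p)| ≤
      (1 / 2 : ℝ) ^ s * (X * (∏ p ∈ pz y, (1 - (nuB Q p : ℝ) / p)) *
        ∑ t ∈ τ, ∏ p ∈ U t, ((k : ℝ) / p)) +
        (y : ℝ) ^ (8 * (C0 * s)) * ∑ t ∈ τ, (k : ℝ) ^ (U t).card := by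
  obtain ⟨C0, y0, hC0, hF⟩ := fundX c
  refine ⟨C0, y0, hC0, fun s y hs hy Q hQ ι τ a U R k ha hU hR hk X => ?_⟩
  rw [mul_sum, ← sum_sub_distrib]
  refine (abs_sum_le_sum_abs _ _).trans ?_
  rw [mul_sum, mul_sum, mul_sum, ← sum_add_distrib]
  apply sum_le_sum
  intro t ht
  have h := hF s y hs hy Q hQ (U t) (hU t ht) (R t) (hR t) X
  have e1 : ∏ p ∈ U t, ((nuB (R t) p : ℝ) / p) = ∏ p ∈ U t, ((k : ℝ) / p) :=
    prod_congr rfl fun p hp => by rw [hk t ht p hp]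
  have e2 : ∏ p ∈ U t, (nuB (R t) p : ℝ) = (k : ℝ) ^ (U t).card := by
    rw [← prod_const]
    exact prod_congr rfl fun p hp => by rw [hk t ht p hp]
  rw [e1, e2] at h
  have e3 : X * (∏ p ∈ pz y, (1 - (nuB Q p : ℝ) / p)) * (a t * ∏ p ∈ U t, ((k : ℝ) / p)) =
      a t * (X * (∏ p ∈ pz y, (1 - (nuB Q p : ℝ) / p)) * ∏ p ∈ U t, ((k : ℝ) / p)) := by ring
  rw [e3, ← mul_sub, abs_mul]
  calc |a t| * _ ≤ 1 * _ := mul_le_mul_of_nonneg_right (ha t ht) (abs_nonneg _)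
    _ ≤ _ := by rw [one_mul]; exact h

variable {B P : Finset ℕ}

lemma WW_fac_nonneg (B : Finset ℕ) (y : ℕ) : 0 ≤ WW B y := by
  unfold WW
  apply prod_nonneg
  intro p hp
  have hp0 : (0 : ℝ) < p := by exact_mod_cast (mem_pz.1 hp).2.pos
  have h1 : (nuB (Hit B) p : ℝ) / p ≤ 1 := by rw [div_le_one hp0]; exact_mod_cast nuB_le _ p
  linarith

lemma WW2_nonneg (B : Finset ℕ) (y h : ℕ) : 0 ≤ WW2 B y h := by
  unfold WW2
  apply prod_nonneg
  intro p hp
  have hp0 : (0 : ℝ) < p := by exact_mod_cast (mem_pz.1 hp).2.pos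
  have h1 : (nuB (Hit2 B h) p : ℝ) / p ≤ 1 := by rw [div_le_one hp0]; exact_mod_cast nuB_le _ p
  linarith

/-- the level -/
noncomputable def DD (b J : ℕ) : ℝ := ((2 : ℝ) ^ 2 ^ J) ^ (4 * b + 6)

theorem corr (B : Finset ℕ) (hk : ∀ p : ℕ, p.Prime → (∀ b ∈ B, b < p) → nuB (Hit B) p = B.card) :
    ∃ C0 y0 : ℕ, 1 ≤ C0 ∧ ∀ s y : ℕ, C0 ≤ s → y0 ≤ y → (∀ b ∈ B, b < y) → B.card ≤ y →
    ∀ P : Finset ℕ, (∀ p ∈ P, p.Prime ∧ y < p) → ∀ (b J : ℕ) (c : Fin J → Finset ℕ → ℝ),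
    (∀ i U, |c i U| ≤ 1) → ∀ Y X : ℕ,
    |∑ n ∈ Icc 1 X, GG B P y b J c (Y + n) -
        X * WW B y * VV P (fun l => (B.card : ℝ) / l) b J c| ≤
      (1 / 2 : ℝ) ^ s * (X * WW B y * ∏ p ∈ P, (1 + (B.card : ℝ) / p)) +
        (y : ℝ) ^ (8 * (C0 * s)) * DD b J ^ 4 ∧
    |∑ n ∈ Icc 1 X, GG B P y b J c (Y + n) ^ 2 -
        X * WW B y * EE P (fun l => (B.card : ℝ) / l) b J c| ≤
      (1 / 2 : ℝ) ^ s * (X * WW B y * ∏ p ∈ P, (1 + 3 * ((B.card : ℝ) / p))) +
        (y : ℝ) ^ (8 * (C0 * s)) * DD b J ^ 4 ∧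
    ∀ h : ℕ, (∀ p ∈ P, ∀ n, ¬ (Hit B p n ∧ Hit B p (n + h))) →
      |∑ n ∈ Icc 1 X, GG B P y b J c (Y + n) * GG B P y b J c (Y + n + h) -
        X * WW2 B y h * VV P (fun l => (B.card : ℝ) / l) b J c ^ 2| ≤
      (1 / 2 : ℝ) ^ s * (X * WW2 B y h * (∏ p ∈ P, (1 + (B.card : ℝ) / p)) ^ 2) +
        X * WW2 B y h * ((∑ p ∈ P, ((B.card : ℝ) / p) ^ 2) * (∏ p ∈ P, (1 + (B.card : ℝ) / p)) ^ 2) +
        (y : ℝ) ^ (8 * (C0 * s)) * DD b J ^ 4 := by
  classical
  obtain ⟨C0, y0, hC0, hF⟩ := sum_fund (2 * B.card)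
  refine ⟨C0, y0, hC0, fun s y hs hy hBy hky P hP b J c hc Y X => ?_⟩
  set k := B.card with hkd
  set g : ℕ → ℝ := fun l => (k : ℝ) / l with hg
  have hg0 : ∀ p ∈ P, 0 ≤ g p := fun p _ => by simp only [hg]; positivity
  have hSpP : ∀ S ∈ Sp P b J, ∀ p ∈ S, p.Prime ∧ y < p := fun S hS p hp => hP p ((mem_Sp hS).1 hp)
  have hPk : ∀ p ∈ P, k ≤ p := fun p hp => by have := (hP p hp).2; omega
  have hnu1 : ∀ p : ℕ, p.Prime → y < p → nuB (Hit B) p = k := fun p hp hpy =>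
    hk p hp fun b hb => lt_trans (hBy b hb) hpy
  have hy0r : (0 : ℝ) ≤ (y : ℝ) ^ (8 * (C0 * s)) := by positivity
  have hD0 : (0 : ℝ) ≤ DD b J := by unfold DD; positivity
  have hDe : (((2 ^ 2 ^ J) ^ (4 * b + 6) : ℕ) : ℝ) = DD b J := by unfold DD; push_cast; rfl
  have hD1 : (1 : ℝ) ≤ DD b J := by
    unfold DD
    exact one_le_pow₀ (one_le_pow₀ (by norm_num))
  have hcardD : ((Sp P b J).card : ℝ) ≤ DD b J := by
    rw [← hDe]; exact_mod_cast card_Sp P (fun p hp => (hP p hp).1) b J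
  have hpowD : ∀ S ∈ Sp P b J, (k : ℝ) ^ S.card ≤ DD b J := by
    intro S hS
    rw [← hDe]; exact_mod_cast pow_card_le hPk hS
  have hK3 : ∑ S ∈ Sp P b J, (k : ℝ) ^ S.card ≤ DD b J ^ 2 := by
    calc ∑ S ∈ Sp P b J, (k : ℝ) ^ S.card ≤ ∑ S ∈ Sp P b J, DD b J := sum_le_sum hpowD
      _ = (Sp P b J).card * DD b J := by rw [sum_const, nsmul_eq_mul]
      _ ≤ DD b J * DD b J := mul_le_mul_of_nonneg_right hcardD hD0
      _ = _ := by ring
  have hD24 : DD b J ^ 2 ≤ DD b J ^ 4 := pow_le_pow_right₀ hD1 (by norm_num)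
  have hXW : 0 ≤ (X : ℝ) * WW B y := mul_nonneg (Nat.cast_nonneg _) (WW_fac_nonneg B y)
  have hhalf : (0 : ℝ) ≤ (1 / 2 : ℝ) ^ s := by positivity
  -- the expansions
  have hexp : ∀ n, GG B P y b J c n = ∑ S ∈ Sp P b J,
      if (∀ p ∈ pz y, ¬ Hit B p n) ∧ (∀ l ∈ S, Hit B l n) then co b J c S else 0 := by
    intro n
    unfold GG
    rw [phi_eq]
    split_ifs with h
    · apply sum_congr rfl
      intro S _
      by_cases h2 : ∀ l ∈ S, Hit B l n
      · rw [if_pos h2, if_pos ⟨h, h2⟩]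
      · rw [if_neg h2, if_neg (fun h' => h2 h'.2)]
    · symm
      apply sum_eq_zero
      intro S _
      rw [if_neg (fun h' => h h'.1)]
  have hW1 : ∏ p ∈ pz y, (1 - (nuB (fun p n => Hit B p (Y + n)) p : ℝ) / p) = WW B y := by
    unfold WW
    apply prod_congr rfl
    intro p _
    rw [nuB_shift (fun n => hit_modc B p n) Y]
  refine ⟨?_, ?_, ?_⟩
  · -- the mean
    have h := hF s y hs hy (fun p n => Hit B p (Y + n)) (perB1 B Y) (Finset ℕ) (Sp P b J) (co b J c)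
      (fun S => S) (fun _ p n => Hit B p (Y + n)) k (fun S _ => abs_co hc S) hSpP
      (fun _ p n => (perB1 B Y).per p n) (fun S hS p hp => by
        rw [nuB_shift (fun n => hit_modc B p n) Y]
        exact hnu1 p (hSpP S hS p hp).1 (hSpP S hS p hp).2) X
    rw [hW1] at h
    have e1 : ∑ n ∈ Icc 1 X, GG B P y b J c (Y + n) = ∑ S ∈ Sp P b J, co b J c S *
        ((((Icc 1 X).filter (fun n : ℕ => (∀ p ∈ pz y, ¬ Hit B p (Y + n)) ∧
        ∀ p ∈ S, Hit B p (Y + n))).card : ℕ) : ℝ) := by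
      rw [sum_congr rfl (fun n _ => hexp (Y + n)), sum_comm]
      apply sum_congr rfl
      intro S _
      rw [← sum_filter, sum_const, nsmul_eq_mul, mul_comm]
    rw [e1, VV_eq]
    refine h.trans ?_
    apply add_le_add
    · apply mul_le_mul_of_nonneg_left _ hhalf
      exact mul_le_mul_of_nonneg_left (sum_kap P g hg0 b J) hXW
    · exact mul_le_mul_of_nonneg_left (hK3.trans hD24) hy0r
  · -- the square
    have h := hF s y hs hy (fun p n => Hit B p (Y + n)) (perB1 B Y) (Finset ℕ × Finset ℕ)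
      (Sp P b J ×ˢ Sp P b J) (fun t => co b J c t.1 * co b J c t.2)
      (fun t => t.1 ∪ t.2) (fun _ p n => Hit B p (Y + n)) k (fun t _ => by
        rw [abs_mul]
        exact mul_le_one₀ (abs_co hc _) (abs_nonneg _) (abs_co hc _))
      (fun t ht p hp => by
        rw [mem_product] at ht
        rcases mem_union.1 hp with h | h
        · exact hSpP _ ht.1 p h
        · exact hSpP _ ht.2 p h)
      (fun _ p n => (perB1 B Y).per p n) (fun t ht p hp => by
        rw [nuB_shift (fun n => hit_modc B p n) Y]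
        rw [mem_product] at ht
        rcases mem_union.1 hp with h | h
        · exact hnu1 p (hSpP _ ht.1 p h).1 (hSpP _ ht.1 p h).2
        · exact hnu1 p (hSpP _ ht.2 p h).1 (hSpP _ ht.2 p h).2) X
    rw [hW1] at h
    have e1 : ∑ n ∈ Icc 1 X, GG B P y b J c (Y + n) ^ 2 = ∑ t ∈ Sp P b J ×ˢ Sp P b J,
        co b J c t.1 * co b J c t.2 *
        ((((Icc 1 X).filter (fun n : ℕ => (∀ p ∈ pz y, ¬ Hit B p (Y + n)) ∧
        ∀ p ∈ t.1 ∪ t.2, Hit B p (Y + n))).card : ℕ) : ℝ) := by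
      have e2 : ∀ n, GG B P y b J c (Y + n) ^ 2 = ∑ t ∈ Sp P b J ×ˢ Sp P b J,
          if (∀ p ∈ pz y, ¬ Hit B p (Y + n)) ∧ (∀ p ∈ t.1 ∪ t.2, Hit B p (Y + n)) then
            co b J c t.1 * co b J c t.2 else 0 := by
        intro n
        rw [sq, hexp, sum_mul_sum, sum_product]
        apply sum_congr rfl
        intro S _
        apply sum_congr rfl
        intro S' _
        simp only [mem_union]
        by_cases h1 : ∀ p ∈ pz y, ¬ Hit B p (Y + n)
        · by_cases h2 : ∀ l ∈ S, Hit B l (Y + n)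
          · by_cases h3 : ∀ l ∈ S', Hit B l (Y + n)
            · rw [if_pos ⟨h1, h2⟩, if_pos ⟨h1, h3⟩, if_pos]
              exact ⟨h1, fun p hp => hp.elim (h2 p) (h3 p)⟩
            · rw [if_neg (c := (∀ p ∈ pz y, ¬ Hit B p (Y + n)) ∧ (∀ l ∈ S', Hit B l (Y + n)))
                (fun h => h3 h.2), mul_zero, if_neg]
              exact fun h => h3 fun l hl => h.2 l (Or.inr hl)
          · rw [if_neg (fun h => h2 h.2), zero_mul, if_neg]
            exact fun h => h2 fun l hl => h.2 l (Or.inl hl)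
        · rw [if_neg (fun h => h1 h.1), zero_mul, if_neg (fun h => h1 h.1)]
      rw [sum_congr rfl (fun n _ => e2 n), sum_comm]
      apply sum_congr rfl
      intro t _
      rw [← sum_filter, sum_const, nsmul_eq_mul, mul_comm]
    have e3 : EE P g b J c = ∑ t ∈ Sp P b J ×ˢ Sp P b J, co b J c t.1 * co b J c t.2 *
        ∏ p ∈ t.1 ∪ t.2, ((k : ℝ) / p) := by
      rw [EE_eq, sum_product]
    rw [e1, e3]
    refine h.trans ?_
    apply add_le_add
    · apply mul_le_mul_of_nonneg_left _ hhalf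
      apply mul_le_mul_of_nonneg_left _ hXW
      rw [sum_product]
      exact sum_kap_union P g hg0 b J
    · apply mul_le_mul_of_nonneg_left _ hy0r
      have h1 : ∀ t ∈ Sp P b J ×ˢ Sp P b J, (k : ℝ) ^ (t.1 ∪ t.2).card ≤ DD b J ^ 2 := by
        intro t ht
        rw [mem_product] at ht
        rcases Nat.eq_zero_or_pos k with h0 | h0
        · rw [h0]
          calc ((0 : ℕ) : ℝ) ^ (t.1 ∪ t.2).card ≤ 1 := by
                push_cast; exact pow_le_one₀ le_rfl zero_le_one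
            _ ≤ _ := one_le_pow₀ hD1
        · have hk1 : (1 : ℝ) ≤ k := by exact_mod_cast h0
          calc (k : ℝ) ^ (t.1 ∪ t.2).card ≤ (k : ℝ) ^ (t.1.card + t.2.card) :=
                pow_le_pow_right₀ hk1 (card_union_le _ _)
            _ = (k : ℝ) ^ t.1.card * (k : ℝ) ^ t.2.card := pow_add _ _ _
            _ ≤ DD b J * DD b J := mul_le_mul (hpowD _ ht.1) (hpowD _ ht.2) (by positivity) hD0
            _ = _ := by ring
      calc ∑ t ∈ Sp P b J ×ˢ Sp P b J, (k : ℝ) ^ (t.1 ∪ t.2).card ≤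
            ∑ t ∈ Sp P b J ×ˢ Sp P b J, DD b J ^ 2 := sum_le_sum h1
        _ = ((Sp P b J).card * (Sp P b J).card) * DD b J ^ 2 := by
            rw [sum_const, nsmul_eq_mul, card_product]; push_cast; ring
        _ ≤ (DD b J * DD b J) * DD b J ^ 2 := by gcongr
        _ = _ := by ring
  · -- the correlations
    intro h hgen
    have hW2 : ∏ p ∈ pz y, (1 - (nuB (fun p n => Hit2 B h p (Y + n)) p : ℝ) / p) = WW2 B y h := by
      unfold WW2
      apply prod_congr rfl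
      intro p _
      rw [nuB_shift (fun n => hit2_mod B h p n) Y]
    have hXW2 : 0 ≤ (X : ℝ) * WW2 B y h := mul_nonneg (Nat.cast_nonneg _) (WW2_nonneg B y h)
    set τ := (Sp P b J ×ˢ Sp P b J).filter (fun t => Disjoint t.1 t.2) with hτ
    obtain ⟨R, hR1, hR2⟩ : ∃ R : Finset ℕ × Finset ℕ → ℕ → ℕ → Prop,
        (∀ t p n, p ∈ t.1 → (R t p n ↔ Hit B p (Y + n))) ∧
        (∀ t p n, p ∉ t.1 → (R t p n ↔ Hit B p (Y + h + n))) :=
      ⟨fun t p n => (p ∈ t.1 ∧ Hit B p (Y + n)) ∨ (p ∉ t.1 ∧ Hit B p (Y + h + n)),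
        fun t p n hp => by simp [hp], fun t p n hp => by simp [hp]⟩
    have hRper : ∀ (t : Finset ℕ × Finset ℕ) (p n : ℕ), R t p n ↔ R t p (n % p) := by
      intro t p n
      by_cases hp : p ∈ t.1
      · rw [hR1 t p n hp, hR1 t p _ hp]
        exact (perB1 B Y).per p n
      · rw [hR2 t p n hp, hR2 t p _ hp]
        exact (perB1 B (Y + h)).per p n
    have h0 := hF s y hs hy (fun p n => Hit2 B h p (Y + n)) (perB2 B Y h) (Finset ℕ × Finset ℕ)
      τ (fun t => co b J c t.1 * co b J c t.2)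
      (fun t => t.1 ∪ t.2) R k
      (fun t _ => by
        rw [abs_mul]
        exact mul_le_one₀ (abs_co hc _) (abs_nonneg _) (abs_co hc _))
      (fun t ht p hp => by
        rw [hτ, mem_filter, mem_product] at ht
        rcases mem_union.1 hp with h | h
        · exact hSpP _ ht.1.1 p h
        · exact hSpP _ ht.1.2 p h)
      hRper (fun t ht p hp => by
        rw [hτ, mem_filter, mem_product] at ht
        have hpp : p.Prime ∧ y < p := by
          rcases mem_union.1 hp with h | h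
          · exact hSpP _ ht.1.1 p h
          · exact hSpP _ ht.1.2 p h
        by_cases hp1 : p ∈ t.1
        · rw [nuB_congr (Q' := fun p n => Hit B p (Y + n)) (fun n => hR1 t p n hp1)]
          rw [nuB_shift (fun n => hit_modc B p n) Y]
          exact hnu1 p hpp.1 hpp.2
        · rw [nuB_congr (Q' := fun p n => Hit B p (Y + h + n)) (fun n => hR2 t p n hp1)]
          rw [nuB_shift (fun n => hit_modc B p n) (Y + h)]
          exact hnu1 p hpp.1 hpp.2) X
    rw [hW2] at h0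
    -- the expansion
    have e1 : ∑ n ∈ Icc 1 X, GG B P y b J c (Y + n) * GG B P y b J c (Y + n + h) = ∑ t ∈ τ,
        co b J c t.1 * co b J c t.2 *
        ((((Icc 1 X).filter (fun n : ℕ => (∀ p ∈ pz y, ¬ Hit2 B h p (Y + n)) ∧
        ∀ p ∈ t.1 ∪ t.2, R t p n)).card : ℕ) : ℝ) := by
      have e2 : ∀ n, GG B P y b J c (Y + n) * GG B P y b J c (Y + n + h) = ∑ t ∈ τ,
          if (∀ p ∈ pz y, ¬ Hit2 B h p (Y + n)) ∧ (∀ p ∈ t.1 ∪ t.2, R t p n) then
            co b J c t.1 * co b J c t.2 else 0 := by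
        intro n
        rw [hexp, hexp, sum_mul_sum, hτ, sum_filter, sum_product]
        apply sum_congr rfl
        intro S hS
        apply sum_congr rfl
        intro S' hS'
        have hcm : Y + h + n = Y + n + h := by ring
        have q1R : ∀ p ∈ S, (R (S, S') p n ↔ Hit B p (Y + n)) := fun p hp => hR1 (S, S') p n hp
        have q2R : ∀ p, p ∉ S → (R (S, S') p n ↔ Hit B p (Y + n + h)) := fun p hp => by
          rw [← hcm]; exact hR2 (S, S') p n hp
        by_cases hd : Disjoint S S'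
        · rw [if_pos hd]
          have hiff : ((∀ p ∈ pz y, ¬ Hit2 B h p (Y + n)) ∧ (∀ p ∈ S ∪ S', R (S, S') p n)) ↔
            (((∀ p ∈ pz y, ¬ Hit B p (Y + n)) ∧ (∀ l ∈ S, Hit B l (Y + n))) ∧
            ((∀ p ∈ pz y, ¬ Hit B p (Y + n + h)) ∧ (∀ l ∈ S', Hit B l (Y + n + h)))) := by
            constructor
            · rintro ⟨h1, h2⟩
              refine ⟨⟨fun p hp h3 => h1 p hp (Or.inl h3), fun l hl => ?_⟩,
                ⟨fun p hp h3 => h1 p hp (Or.inr h3), fun l hl => ?_⟩⟩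
              · exact (q1R l hl).1 (h2 l (mem_union_left _ hl))
              · exact (q2R l (fun h' => disjoint_left.1 hd h' hl)).1 (h2 l (mem_union_right _ hl))
            · rintro ⟨⟨h1, h2⟩, h3, h4⟩
              refine ⟨fun p hp h5 => h5.elim (h1 p hp) (h3 p hp), fun p hp => ?_⟩
              by_cases hpS : p ∈ S
              · exact (q1R p hpS).2 (h2 p hpS)
              · exact (q2R p hpS).2 (h4 p ((mem_union.1 hp).resolve_left hpS))
          simp only [hiff]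
          by_cases q1 : (∀ p ∈ pz y, ¬ Hit B p (Y + n)) ∧ (∀ l ∈ S, Hit B l (Y + n))
          · by_cases q2 : (∀ p ∈ pz y, ¬ Hit B p (Y + n + h)) ∧ (∀ l ∈ S', Hit B l (Y + n + h))
            · rw [if_pos q1, if_pos q2, if_pos ⟨q1, q2⟩]
            · rw [if_neg q2, mul_zero, if_neg (fun h' => q2 h'.2)]
          · rw [if_neg q1, zero_mul, if_neg (fun h' => q1 h'.1)]
        · rw [if_neg hd]
          rw [not_disjoint_iff] at hd
          obtain ⟨q, hq, hq'⟩ := hd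
          have hno := hgen q ((mem_Sp hS).1 hq) (Y + n)
          by_cases q1 : (∀ p ∈ pz y, ¬ Hit B p (Y + n)) ∧ (∀ l ∈ S, Hit B l (Y + n))
          · rw [if_neg (c := (∀ p ∈ pz y, ¬ Hit B p (Y + n + h)) ∧ (∀ l ∈ S', Hit B l (Y + n + h)))
              (fun h' => hno ⟨q1.2 q hq, h'.2 q hq'⟩), mul_zero]
          · rw [if_neg q1, zero_mul]
      rw [sum_congr rfl (fun n _ => e2 n), sum_comm]
      apply sum_congr rfl
      intro t _
      rw [← sum_filter, sum_const, nsmul_eq_mul, mul_comm]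
    have hkap0 : ∀ S ∈ Sp P b J, 0 ≤ ∏ l ∈ S, g l := fun S hS =>
      prod_nonneg fun p hp => hg0 p ((mem_Sp hS).1 hp)
    have hdisj : ∀ t ∈ τ, ∏ p ∈ t.1 ∪ t.2, ((k : ℝ) / p) = (∏ l ∈ t.1, g l) * ∏ l ∈ t.2, g l := by
      intro t ht
      rw [hτ, mem_filter] at ht
      rw [prod_union ht.2]
    -- the main term
    have e3 : |∑ t ∈ τ, co b J c t.1 * co b J c t.2 * ∏ p ∈ t.1 ∪ t.2, ((k : ℝ) / p) -
        VV P g b J c ^ 2| ≤ (∑ p ∈ P, g p ^ 2) * (∏ p ∈ P, (1 + g p)) ^ 2 := by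
      have a1 : VV P g b J c ^ 2 = ∑ t ∈ Sp P b J ×ˢ Sp P b J, co b J c t.1 * co b J c t.2 *
          ((∏ l ∈ t.1, g l) * ∏ l ∈ t.2, g l) := by
        rw [VV_eq, sq, sum_mul_sum, sum_product]
        apply sum_congr rfl
        intro S _
        apply sum_congr rfl
        intro S' _
        ring
      have a2 : ∑ t ∈ τ, co b J c t.1 * co b J c t.2 * ∏ p ∈ t.1 ∪ t.2, ((k : ℝ) / p) =
          ∑ t ∈ τ, co b J c t.1 * co b J c t.2 * ((∏ l ∈ t.1, g l) * ∏ l ∈ t.2, g l) :=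
        sum_congr rfl fun t ht => by rw [hdisj t ht]
      have a3 := sum_filter_add_sum_filter_not (Sp P b J ×ˢ Sp P b J) (fun t => Disjoint t.1 t.2)
        (fun t => co b J c t.1 * co b J c t.2 * ((∏ l ∈ t.1, g l) * ∏ l ∈ t.2, g l))
      rw [a1, a2, ← a3, ← hτ]
      rw [show ∀ x y : ℝ, x - (x + y) = -y by intro x y; ring, abs_neg]
      refine (abs_sum_le_sum_abs _ _).trans ?_
      refine le_trans ?_ (sum_kap_pairs P g hg0 b J)
      rw [sum_filter, sum_product]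
      apply sum_le_sum
      intro S hS
      rw [sum_filter]
      apply sum_le_sum
      intro S' hS'
      have a4 : 0 ≤ (∏ l ∈ S, g l) * ∏ l ∈ S', g l := mul_nonneg (hkap0 S hS) (hkap0 S' hS')
      by_cases hd : Disjoint S S'
      · rw [if_neg (not_not.2 hd), if_neg (not_not.2 hd)]
      · rw [if_pos hd, if_pos hd, abs_mul, abs_of_nonneg a4]
        have a5 : |co b J c S * co b J c S'| ≤ 1 := by
          rw [abs_mul]
          exact mul_le_one₀ (abs_co hc _) (abs_nonneg _) (abs_co hc _)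
        calc |co b J c S * co b J c S'| * ((∏ l ∈ S, g l) * ∏ l ∈ S', g l) ≤
              1 * ((∏ l ∈ S, g l) * ∏ l ∈ S', g l) := mul_le_mul_of_nonneg_right a5 a4
          _ = _ := one_mul _
    rw [e1]
    have e4 : ∑ t ∈ τ, ∏ p ∈ t.1 ∪ t.2, ((k : ℝ) / p) ≤ (∏ p ∈ P, (1 + g p)) ^ 2 := by
      calc ∑ t ∈ τ, ∏ p ∈ t.1 ∪ t.2, ((k : ℝ) / p) =
            ∑ t ∈ τ, (∏ l ∈ t.1, g l) * ∏ l ∈ t.2, g l := sum_congr rfl hdisj
        _ ≤ ∑ t ∈ Sp P b J ×ˢ Sp P b J, (∏ l ∈ t.1, g l) * ∏ l ∈ t.2, g l := by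
            apply sum_le_sum_of_subset_of_nonneg (filter_subset _ _)
            intro t ht _
            rw [mem_product] at ht
            exact mul_nonneg (hkap0 _ ht.1) (hkap0 _ ht.2)
        _ = (∑ S ∈ Sp P b J, ∏ l ∈ S, g l) ^ 2 := by
            rw [sq, sum_mul_sum, sum_product]
        _ ≤ _ := pow_le_pow_left₀ (sum_nonneg hkap0) (sum_kap P g hg0 b J) 2
    have e5 : ∑ t ∈ τ, (k : ℝ) ^ (t.1 ∪ t.2).card ≤ DD b J ^ 4 := by
      have h1 : ∀ t ∈ τ, (k : ℝ) ^ (t.1 ∪ t.2).card = (k : ℝ) ^ t.1.card * (k : ℝ) ^ t.2.card := by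
        intro t ht
        rw [hτ, mem_filter] at ht
        rw [card_union_of_disjoint ht.2, pow_add]
      rw [sum_congr rfl h1]
      calc ∑ t ∈ τ, (k : ℝ) ^ t.1.card * (k : ℝ) ^ t.2.card ≤
            ∑ t ∈ Sp P b J ×ˢ Sp P b J, (k : ℝ) ^ t.1.card * (k : ℝ) ^ t.2.card := by
            apply sum_le_sum_of_subset_of_nonneg (filter_subset _ _)
            intro t _ _
            exact mul_nonneg (pow_nonneg (Nat.cast_nonneg _) _) (pow_nonneg (Nat.cast_nonneg _) _)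
        _ = (∑ S ∈ Sp P b J, (k : ℝ) ^ S.card) ^ 2 := by
            rw [sq, sum_mul_sum, sum_product]
        _ ≤ (DD b J ^ 2) ^ 2 := pow_le_pow_left₀
            (sum_nonneg fun _ _ => pow_nonneg (Nat.cast_nonneg _) _) hK3 2
        _ = _ := by ring
    have f1 : (1 / 2 : ℝ) ^ s * (X * WW2 B y h * ∑ t ∈ τ, ∏ p ∈ t.1 ∪ t.2, ((k : ℝ) / p)) ≤
        (1 / 2 : ℝ) ^ s * (X * WW2 B y h * (∏ p ∈ P, (1 + g p)) ^ 2) :=
      mul_le_mul_of_nonneg_left (mul_le_mul_of_nonneg_left e4 hXW2) hhalf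
    have f2 : (y : ℝ) ^ (8 * (C0 * s)) * ∑ t ∈ τ, (k : ℝ) ^ (t.1 ∪ t.2).card ≤
        (y : ℝ) ^ (8 * (C0 * s)) * DD b J ^ 4 := mul_le_mul_of_nonneg_left e5 hy0r
    have f3 : |(X : ℝ) * WW2 B y h * ∑ t ∈ τ, co b J c t.1 * co b J c t.2 *
        ∏ p ∈ t.1 ∪ t.2, ((k : ℝ) / p) - X * WW2 B y h * VV P g b J c ^ 2| ≤
        X * WW2 B y h * ((∑ p ∈ P, g p ^ 2) * (∏ p ∈ P, (1 + g p)) ^ 2) := by
      rw [← mul_sub, abs_mul, abs_of_nonneg hXW2]
      exact mul_le_mul_of_nonneg_left e3 hXW2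
    have hgp : ∀ p : ℕ, g p = (k : ℝ) / p := fun _ => rfl
    simp only [hgp] at f1 f3
    rw [abs_le] at h0 f3 ⊢
    constructor
    · linarith [h0.1, f3.1]
    · linarith [h0.2, f3.2]

end Pool.Agent.J4.H65.AT
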