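import Mathlib

/-! The choice of the parameters. -/

set_option autoImplicit false

open Finset Filter

namespace Pool.Agent.J4.H65.AT

lemma ev_log_pow (n : ℕ) (K : ℝ) : ∀ᶠ L : ℝ in atTop, K * Real.log L ^ n ≤ L := by
  have h := Real.isLittleO_pow_log_id_atTop (n := n)
  have h1 := h.def (show (0 : ℝ) < 1 / (|K| + 1) by positivity)
  filter_upwards [h1, eventually_ge_atTop 1] with L hL hL1
  simp only [id, Real.norm_eq_abs] at hL
  rw [abs_of_nonneg (show 0 ≤ L by linarith)] at hL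
  calc K * Real.log L ^ n ≤ |K * Real.log L ^ n| := le_abs_self _
    _ = |K| * |Real.log L ^ n| := abs_mul _ _
    _ ≤ |K| * (1 / (|K| + 1) * L) := mul_le_mul_of_nonneg_left hL (abs_nonneg _)
    _ = (|K| / (|K| + 1)) * L := by ring
    _ ≤ 1 * L := by
        apply mul_le_mul_of_nonneg_right _ (by linarith)
        rw [div_le_one (by positivity)]
        linarith
    _ = L := one_mul _

lemma ev_exp_pow (n : ℕ) (K c : ℝ) (hc : 0 < c) : ∀ᶠ L : ℝ in atTop, K * L ^ n ≤ Real.exp (c * L) := by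
  have h := (isLittleO_pow_exp_pos_mul_atTop (k := n) hc).def (show (0 : ℝ) < 1 / (|K| + 1) by positivity)
  filter_upwards [h, eventually_ge_atTop 1] with L hL hL1
  rw [Real.norm_eq_abs, Real.norm_eq_abs, abs_of_pos (Real.exp_pos _)] at hL
  calc K * L ^ n ≤ |K * L ^ n| := le_abs_self _
    _ = |K| * |L ^ n| := abs_mul _ _
    _ ≤ |K| * (1 / (|K| + 1) * Real.exp (c * L)) := mul_le_mul_of_nonneg_left hL (abs_nonneg _)
    _ = (|K| / (|K| + 1)) * Real.exp (c * L) := by ring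
    _ ≤ 1 * Real.exp (c * L) := by
        apply mul_le_mul_of_nonneg_right _ (Real.exp_pos _).le
        rw [div_le_one (by positivity)]
        linarith
    _ = _ := one_mul _

lemma hp1 {a L : ℝ} (ha : 1 ≤ a) (hL : 10 ≤ L) : a + 1 ≤ a * L := by nlinarith

lemma hp2 {k l : ℝ} (hk : 0 ≤ k) (hl : 10 ≤ l) : 2 * (5 * k + 1) * l + 1 ≤ (10 * k + 3) * l := by
  nlinarith

lemma hp3 {lam x L : ℝ} (h1 : 1 ≤ lam) (h2 : 10 ≤ L) (h3 : L ≤ x) : L ≤ lam * x := by nlinarith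

lemma hp4 {e : ℝ} (h : 2 ≤ e) : e + 1 ≤ e * e := by nlinarith

lemma hp5 {T k l s : ℝ} (hk : 0 ≤ k) (h1 : T + 10 ≤ l) (h2 : 10 ≤ l) (h3 : 2 * (5 * k + 1) * l ≤ s) :
    T ≤ s := by
  have : 0 ≤ k * l := mul_nonneg hk (by linarith)
  nlinarith

lemma hp6 {lam M x : ℝ} (h1 : 0 ≤ M) (h2 : 1 ≤ x) : lam * x + M ≤ (lam + M) * x := by nlinarith

lemma hp7 {a l s t : ℝ} (ha : 0 ≤ a * l) (h1 : 2 * a * l ≤ s) (ht : 1 / 2 ≤ t) :
    a * l ≤ s * t := by
  have h0 : 0 ≤ s := by linarith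
  nlinarith

lemma hp8 {Cp q D L : ℝ} (h0 : 0 ≤ q * (Cp * D)) (h1 : 16 * (Cp * (q + 1)) * D ≤ L) :
    Cp * (16 * D) ≤ L := by nlinarith

lemma hp9 {Cp q D L : ℝ} (h0 : 0 ≤ Cp * D) (h1 : 16 * (Cp * (q + 1)) * D ≤ L) :
    q * Cp * (16 * D) ≤ L := by nlinarith

/-- the bounds for the parameters -/
structure Params (k M C0 T n : ℕ) (lam CA Cp C1 δ : ℝ) (X : ℕ) (y s H z : ℕ) (η : ℝ) : Prop where
  Ts : T ≤ s
  Ty : T ≤ y
  HM : H + M ≤ y
  yz : y ≤ z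
  logz : δ / 2 * Real.log X ≤ Real.log z
  logz' : Real.log z ≤ Real.log X
  logz0 : 0 < Real.log z
  zX : (z : ℝ) ≤ (X : ℝ) ^ δ
  Hlow : lam * Real.log X ^ k / 2 ≤ H
  Hup : (H : ℝ) ≤ lam * Real.log X ^ k
  η0 : 0 ≤ η
  ηH : (2 * M + 10) * η * (H : ℝ) ^ 2 ≤ 1
  e1 : (1 / 2 : ℝ) ^ s * (Cp * Real.log X ^ (3 * k)) ≤ η / 2
  e2 : (k : ℝ) ^ 2 / y * (Cp * Real.log X ^ (3 * k)) ≤ η / 2
  e3 : (y : ℝ) ^ (8 * (C0 * s)) * (X : ℝ) ^ (1 / 4 : ℝ) ≤ η / 2 * X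
  e4 : CA * Real.log y ^ n ≤ H
  e5 : 4 * (CA * Real.log y ^ n) * (lam * C1 * (2 / δ) ^ k) ^ 2 ≤ H

theorem params (k M C0 T n : ℕ) (hk : 1 ≤ k) (lam CA Cp C1 δ : ℝ) (hlam : 1 ≤ lam) (hCA : 0 < CA)
    (hCp : 0 < Cp) (hδ : 0 < δ) (hδ1 : δ < 1) :
    ∃ X0 : ℕ, ∀ X : ℕ, X0 ≤ X → Params k M C0 T n lam CA Cp C1 δ X
      ⌈Real.log X ^ (5 * k + 4)⌉₊ ⌈2 * (5 * k + 1) * Real.log (Real.log X)⌉₊
      ⌊lam * Real.log X ^ k⌋₊ ⌊(X : ℝ) ^ δ⌋₊ (1 / (8 * (2 * M + 10) * lam ^ 2 * Real.log X ^ (2 * k))) := by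
  -- everything is a condition on `L = log X`
  have hlogT : Tendsto (fun X : ℕ => Real.log X) atTop atTop :=
    Real.tendsto_log_atTop.comp tendsto_natCast_atTop_atTop
  have hmain : ∀ᶠ L : ℝ in atTop,
      (T : ℝ) + 10 ≤ L ∧ (T : ℝ) + 10 ≤ Real.log L ∧ (M : ℝ) + lam + 2 ≤ L ∧
      16 * (Cp * (k ^ 2 + 1)) * ((2 * M + 10) * lam ^ 2) ≤ L ∧
      (32 * C0 * (5 * k + 5) * (10 * k + 3) : ℝ) * Real.log L ^ 2 ≤ L ∧
      (16 * (2 * M + 10) * lam ^ 2 : ℝ) * L ^ (2 * k) ≤ Real.exp (1 / 2 * L) ∧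
      (2 * CA * (5 * k + 5) ^ n : ℝ) * Real.log L ^ n ≤ L ∧
      (2 * (4 * CA * (lam * C1 * (2 / δ) ^ k) ^ 2) * (5 * k + 5) ^ n : ℝ) * Real.log L ^ n ≤ L ∧
      2 * L ^ (5 * k + 5) ≤ Real.exp (δ / 2 * L) := by
    have h2 : ∀ᶠ L : ℝ in atTop, (T : ℝ) + 10 ≤ Real.log L :=
      Real.tendsto_log_atTop.eventually_ge_atTop _
    filter_upwards [eventually_ge_atTop ((T : ℝ) + 10), h2, eventually_ge_atTop ((M : ℝ) + lam + 2),
      eventually_ge_atTop (16 * (Cp * (k ^ 2 + 1)) * ((2 * M + 10) * lam ^ 2)), ev_log_pow 2 _,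
      ev_exp_pow (2 * k) _ (1 / 2) (by norm_num), ev_log_pow n _, ev_log_pow n _,
      ev_exp_pow (5 * k + 5) 2 (δ / 2) (by positivity)] with L a1 a2 a3 a4 a5 a6 a7 a8 a9
    exact ⟨a1, a2, a3, a4, a5, a6, a7, a8, a9⟩
  have h0 := (hlogT.eventually hmain).and (eventually_ge_atTop 3)
  rw [eventually_atTop] at h0
  obtain ⟨X0, hX0⟩ := h0
  refine ⟨X0, fun X hX => ?_⟩
  obtain ⟨⟨a1, a2, a3, a4, a5, a6, a7, a8, a9⟩, hX3⟩ := hX0 X hX
  set L := Real.log X with hL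
  have hT0 : (0 : ℝ) ≤ T := Nat.cast_nonneg _
  have hM0 : (0 : ℝ) ≤ M := Nat.cast_nonneg _
  have hk0 : (0 : ℝ) ≤ k := Nat.cast_nonneg _
  have hL10 : 10 ≤ L := by linarith
  have hL1 : 1 ≤ L := by linarith
  have hL0 : 0 < L := by linarith
  have hll : 10 ≤ Real.log L := by linarith
  have hX0' : (0 : ℝ) < X := by exact_mod_cast (by omega : 0 < X)
  have hXexp : (X : ℝ) = Real.exp L := by rw [hL, Real.exp_log hX0']
  set y := ⌈L ^ (5 * k + 4)⌉₊ with hy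
  set s := ⌈2 * (5 * k + 1) * Real.log L⌉₊ with hs
  set H := ⌊lam * L ^ k⌋₊ with hH
  set z := ⌊(X : ℝ) ^ δ⌋₊ with hz
  have hy1 : L ^ (5 * k + 4) ≤ y := Nat.le_ceil _
  have hy2 : (y : ℝ) ≤ L ^ (5 * k + 5) := by
    have h1 := (Nat.ceil_lt_add_one (show 0 ≤ L ^ (5 * k + 4) by positivity)).le
    have h2 : (1 : ℝ) ≤ L ^ (5 * k + 4) := one_le_pow₀ hL1
    calc (y : ℝ) ≤ L ^ (5 * k + 4) + 1 := h1
      _ ≤ L ^ (5 * k + 4) * L := hp1 h2 hL10
      _ = _ := by rw [← pow_succ]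
  have hs1 : 2 * (5 * k + 1) * Real.log L ≤ s := Nat.le_ceil _
  have hs2 : (s : ℝ) ≤ (10 * k + 3) * Real.log L := by
    have h1 := (Nat.ceil_lt_add_one (show 0 ≤ 2 * (5 * (k : ℝ) + 1) * Real.log L by positivity)).le
    calc (s : ℝ) ≤ 2 * (5 * k + 1) * Real.log L + 1 := h1
      _ ≤ _ := hp2 hk0 hll
  have hH2 : (H : ℝ) ≤ lam * L ^ k := Nat.floor_le (by positivity)
  have hLk : L ≤ L ^ k := by
    calc L = L ^ 1 := (pow_one _).symm
      _ ≤ _ := pow_le_pow_right₀ hL1 hk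
  have hLlam : L ≤ lam * L ^ k := hp3 hlam hL10 hLk
  have hlamL : 10 ≤ lam * L ^ k := hL10.trans hLlam
  have hH1 : lam * L ^ k / 2 ≤ H := by
    have h1 := (Nat.lt_floor_add_one (lam * L ^ k)).le
    have : lam * L ^ k ≤ H + 1 := h1
    linarith
  have hLy : L ≤ L ^ (5 * k + 4) := by
    calc L = L ^ 1 := (pow_one _).symm
      _ ≤ _ := pow_le_pow_right₀ hL1 (by omega)
  have hlogy : Real.log y ≤ (5 * k + 5) * Real.log L := by
    have h1 : (0 : ℝ) < y := lt_of_lt_of_le (by positivity) hy1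
    have h2 := Real.log_le_log h1 hy2
    rw [Real.log_pow] at h2
    push_cast at h2
    exact h2
  have hlogy0 : 0 ≤ Real.log y := Real.log_nonneg (by linarith)
  have hδL : Real.exp (δ * L) = (X : ℝ) ^ δ := by
    rw [Real.rpow_def_of_pos hX0', ← hL, mul_comm]
  have hz1 : (X : ℝ) ^ δ ≤ z + 1 := (Nat.lt_floor_add_one _).le
  have hz2 : (z : ℝ) ≤ (X : ℝ) ^ δ := Nat.floor_le (by positivity)
  have hLpow1 : (1 : ℝ) ≤ L ^ (5 * k + 5) := one_le_pow₀ hL1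
  have he2 : 2 ≤ Real.exp (δ / 2 * L) := by linarith
  have hesq : Real.exp (δ * L) = Real.exp (δ / 2 * L) * Real.exp (δ / 2 * L) := by
    rw [← Real.exp_add]; ring_nf
  have hz3 : Real.exp (δ / 2 * L) ≤ z := by
    have h1 : Real.exp (δ / 2 * L) + 1 ≤ Real.exp (δ * L) := by rw [hesq]; exact hp4 he2
    rw [hδL] at h1
    linarith
  have hzpos : (0 : ℝ) < z := lt_of_lt_of_le (Real.exp_pos _) hz3
  have hlogz : δ / 2 * L ≤ Real.log z := by
    have := Real.log_le_log (Real.exp_pos _) hz3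
    rwa [Real.log_exp] at this
  have hden : 0 < 8 * (2 * (M : ℝ) + 10) * lam ^ 2 * L ^ (2 * k) := by positivity
  have hη2 : 1 / (8 * (2 * (M : ℝ) + 10) * lam ^ 2 * L ^ (2 * k)) / 2 =
      1 / (16 * (2 * M + 10) * lam ^ 2 * L ^ (2 * k)) := by
    field_simp
    ring
  refine ⟨?_, ?_, ?_, ?_, hlogz, ?_, ?_, hz2, hH1, hH2, ?_, ?_, ?_, ?_, ?_, ?_, ?_⟩
  · have : (T : ℝ) ≤ s := hp5 hk0 a2 hll hs1
    exact_mod_cast this
  · have : (T : ℝ) ≤ y := by linarith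
    exact_mod_cast this
  · have h1 : lam * L ^ k + M ≤ L ^ (5 * k + 4) := by
      have h2 : lam * L ^ k + M ≤ (lam + M) * L ^ k := by
        have : (1 : ℝ) ≤ L ^ k := one_le_pow₀ hL1
        exact hp6 hM0 this
      calc lam * L ^ k + M ≤ (lam + M) * L ^ k := h2
        _ ≤ L * L ^ k := by
            apply mul_le_mul_of_nonneg_right _ (by positivity)
            linarith
        _ = L ^ (k + 1) := by rw [pow_succ]; ring
        _ ≤ _ := pow_le_pow_right₀ hL1 (by omega)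
    have h2 : ((H + M : ℕ) : ℝ) ≤ y := by push_cast; linarith
    exact_mod_cast h2
  · have : (y : ℝ) ≤ z := by linarith
    exact_mod_cast this
  · have h1 : (z : ℝ) ≤ X := by
      refine hz2.trans ?_
      calc (X : ℝ) ^ δ ≤ (X : ℝ) ^ (1 : ℝ) :=
            Real.rpow_le_rpow_of_exponent_le (by exact_mod_cast (by omega : 1 ≤ X)) hδ1.le
        _ = X := Real.rpow_one _
    exact Real.log_le_log hzpos h1
  · have : 0 < δ / 2 * L := by positivity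
    linarith
  · positivity
  · have h1 : (H : ℝ) ^ 2 ≤ lam ^ 2 * L ^ (2 * k) := by
      calc (H : ℝ) ^ 2 ≤ (lam * L ^ k) ^ 2 := pow_le_pow_left₀ (Nat.cast_nonneg _) hH2 2
        _ = _ := by ring
    calc (2 * M + 10) * (1 / (8 * (2 * M + 10) * lam ^ 2 * L ^ (2 * k))) * (H : ℝ) ^ 2 ≤
          (2 * M + 10) * (1 / (8 * (2 * M + 10) * lam ^ 2 * L ^ (2 * k))) * (lam ^ 2 * L ^ (2 * k)) := by
          gcongr
      _ = 1 / 8 := by field_simp
      _ ≤ 1 := by norm_num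
  · -- e1
    have h1 : (1 / 2 : ℝ) ^ s ≤ 1 / L ^ (5 * k + 1) := by
      have e : (1 / 2 : ℝ) ^ s = Real.exp (-(s * Real.log 2)) := by
        rw [← mul_neg, ← Real.log_inv, ← Real.log_pow, Real.exp_log (by positivity), one_div]
      have e' : 1 / L ^ (5 * k + 1) = Real.exp (-((5 * k + 1) * Real.log L)) := by
        rw [Real.exp_neg, show ((5 : ℝ) * k + 1) = ((5 * k + 1 : ℕ) : ℝ) by push_cast; ring,
          ← Real.log_pow, Real.exp_log (by positivity), one_div]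
      rw [e, e']
      apply Real.exp_le_exp.2
      have hl2 := Real.log_two_gt_d9
      have h3 : (5 * k + 1) * Real.log L ≤ s * Real.log 2 :=
        hp7 (by positivity) hs1 (by linarith)
      linarith
    have h2 : Cp ≤ L / (16 * (2 * M + 10) * lam ^ 2) := by
      rw [le_div_iff₀ (by positivity), mul_assoc 16]
      exact hp8 (by positivity) a4
    calc (1 / 2 : ℝ) ^ s * (Cp * L ^ (3 * k)) ≤
          1 / L ^ (5 * k + 1) * (L / (16 * (2 * M + 10) * lam ^ 2) * L ^ (3 * k)) := by gcongr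
      _ = 1 / (16 * (2 * M + 10) * lam ^ 2 * L ^ (2 * k)) := by
          rw [show 5 * k + 1 = 3 * k + 2 * k + 1 by ring, pow_succ, pow_add]
          field_simp
      _ = _ := hη2.symm
  · -- e2
    have h2 : (k : ℝ) ^ 2 * Cp ≤ L / (16 * (2 * M + 10) * lam ^ 2) := by
      rw [le_div_iff₀ (by positivity), mul_assoc 16]
      exact hp9 (by positivity) a4
    have h3 : (k : ℝ) ^ 2 / y ≤ (k : ℝ) ^ 2 / L ^ (5 * k + 1) := by
      apply div_le_div_of_nonneg_left (by positivity) (by positivity)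
      refine le_trans ?_ hy1
      exact pow_le_pow_right₀ hL1 (by omega)
    calc (k : ℝ) ^ 2 / y * (Cp * L ^ (3 * k)) ≤ (k : ℝ) ^ 2 / L ^ (5 * k + 1) * (Cp * L ^ (3 * k)) := by gcongr
      _ = ((k : ℝ) ^ 2 * Cp) * (L ^ (3 * k) / L ^ (5 * k + 1)) := by ring
      _ ≤ (L / (16 * (2 * M + 10) * lam ^ 2)) * (L ^ (3 * k) / L ^ (5 * k + 1)) := by gcongr
      _ = 1 / (16 * (2 * M + 10) * lam ^ 2 * L ^ (2 * k)) := by
          rw [show 5 * k + 1 = 3 * k + 2 * k + 1 by ring, pow_succ, pow_add]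
          field_simp
          ring
      _ = _ := hη2.symm
  · -- e3
    have h1 : (y : ℝ) ^ (8 * (C0 * s)) ≤ Real.exp (1 / 4 * L) := by
      have h2 : (0 : ℝ) < y := lt_of_lt_of_le (by positivity) hy1
      rw [← Real.exp_log (show (0 : ℝ) < (y : ℝ) ^ (8 * (C0 * s)) by positivity), Real.log_pow]
      apply Real.exp_le_exp.2
      push_cast
      have h3 : (C0 : ℝ) * s * Real.log y ≤ C0 * ((10 * k + 3) * Real.log L) * ((5 * k + 5) * Real.log L) := by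
        gcongr
      calc 8 * ((C0 : ℝ) * s) * Real.log y = 8 * (C0 * s * Real.log y) := by ring
        _ ≤ 8 * (C0 * ((10 * k + 3) * Real.log L) * ((5 * k + 5) * Real.log L)) := by linarith
        _ = 1 / 4 * ((32 * C0 * (5 * k + 5) * (10 * k + 3)) * Real.log L ^ 2) := by ring
        _ ≤ 1 / 4 * L := by linarith
    have h4 : (X : ℝ) ^ (1 / 4 : ℝ) = Real.exp (1 / 4 * L) := by
      rw [Real.rpow_def_of_pos hX0', ← hL, mul_comm]
    rw [h4]
    have h5 : (X : ℝ) = Real.exp (1 / 2 * L) * Real.exp (1 / 2 * L) := by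
      rw [← Real.exp_add, hXexp]; ring_nf
    calc (y : ℝ) ^ (8 * (C0 * s)) * Real.exp (1 / 4 * L) ≤ Real.exp (1 / 4 * L) * Real.exp (1 / 4 * L) :=
          mul_le_mul_of_nonneg_right h1 (Real.exp_pos _).le
      _ = Real.exp (1 / 2 * L) := by rw [← Real.exp_add]; ring_nf
      _ ≤ _ := by
          have h6 : 16 * (2 * (M : ℝ) + 10) * lam ^ 2 * L ^ (2 * k) ≤ Real.exp (1 / 2 * L) := a6
          have h7 : 0 < 16 * (2 * (M : ℝ) + 10) * lam ^ 2 * L ^ (2 * k) := by positivity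
          rw [hη2, h5]
          calc Real.exp (1 / 2 * L) = 1 / (16 * (2 * (M : ℝ) + 10) * lam ^ 2 * L ^ (2 * k)) *
                ((16 * (2 * (M : ℝ) + 10) * lam ^ 2 * L ^ (2 * k)) * Real.exp (1 / 2 * L)) := by
                rw [← mul_assoc, one_div_mul_cancel h7.ne', one_mul]
            _ ≤ _ := by
                apply mul_le_mul_of_nonneg_left _ (by positivity)
                exact mul_le_mul_of_nonneg_right h6 (Real.exp_pos _).le
  · -- e4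
    have h1 : Real.log y ^ n ≤ ((5 * k + 5) * Real.log L) ^ n := pow_le_pow_left₀ hlogy0 hlogy n
    calc CA * Real.log y ^ n ≤ CA * ((5 * k + 5) * Real.log L) ^ n := mul_le_mul_of_nonneg_left h1 hCA.le
      _ = (2 * CA * (5 * k + 5) ^ n * Real.log L ^ n) / 2 := by rw [mul_pow]; ring
      _ ≤ L / 2 := by linarith
      _ ≤ lam * L ^ k / 2 := by linarith
      _ ≤ H := hH1
  · have h1 : Real.log y ^ n ≤ ((5 * k + 5) * Real.log L) ^ n := pow_le_pow_left₀ hlogy0 hlogy n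
    calc 4 * (CA * Real.log y ^ n) * (lam * C1 * (2 / δ) ^ k) ^ 2 ≤
          4 * (CA * ((5 * k + 5) * Real.log L) ^ n) * (lam * C1 * (2 / δ) ^ k) ^ 2 := by gcongr
      _ = (2 * (4 * CA * (lam * C1 * (2 / δ) ^ k) ^ 2) * (5 * k + 5) ^ n * Real.log L ^ n) / 2 := by
          rw [mul_pow]; ring
      _ ≤ L / 2 := by linarith
      _ ≤ lam * L ^ k / 2 := by linarith
      _ ≤ H := hH1

end Pool.Agent.J4.H65.AT
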