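import Mathlib
import Pool.Agent.J4.H65.AT.Defs
import Pool.Agent.R345.SS1

/-! Piece B of project AT (helper65), by helper46: the average of the singular series over the shift. -/

set_option autoImplicit false

open Finset

namespace Pool.Agent.J4.H65.AT

open Pool.Agent.Helper112.LP Pool.Agent.H373R2.T7

section periodic

/-- shifting a periodic function by one -/
theorem pb_shift_one {p : ℕ} {G : ℕ → ℝ} (h : G p = G 0) : ∑ a ∈ range p, G (a + 1) = ∑ a ∈ range p, G a := by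
  have h1 := sum_range_succ' G p
  have h2 := sum_range_succ G p
  linarith

theorem pb_add {p : ℕ} {G : ℕ → ℝ} (hG : ∀ n, G (n % p) = G n) (n : ℕ) : G (p + n) = G n := by
  rw [← hG (p + n), Nat.add_mod_left, hG]

/-- shifting a periodic function -/
theorem pb_shift {p : ℕ} {G : ℕ → ℝ} (hG : ∀ n, G (n % p) = G n) (h : ℕ) :
    ∑ a ∈ range p, G (a + h) = ∑ a ∈ range p, G a := by
  induction h with
  | zero => simp
  | succ h ih =>
    rw [← ih]
    have h1 := pb_shift_one (p := p) (G := fun a => G (a + h)) (by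
      rw [pb_add hG, zero_add])
    rw [← h1]
    refine sum_congr rfl fun a _ => ?_
    congr 1; ring

/-- partial sums of a periodic function with mean zero -/
theorem pb_partial {d : ℕ} (hd : 0 < d) {G : ℕ → ℝ} (hG : ∀ n, G (n % d) = G n)
    (h0 : ∑ a ∈ range d, G a = 0) (j : ℕ) : |∑ h ∈ Icc 1 j, G h| ≤ ∑ a ∈ range d, |G a| := by
  -- reduction to the shifted function
  have e1 : ∑ h ∈ Icc 1 j, G h = ∑ a ∈ range j, G (a + 1) := by
    clear h0 hG hd
    induction j with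
    | zero => simp
    | succ j ih => rw [sum_Icc_succ_top (by omega), ih, sum_range_succ]
  set G' : ℕ → ℝ := fun a => G (a + 1) with hG'
  have hG1 : ∀ n, G' (n % d) = G' n := by
    intro n
    change G (n % d + 1) = G (n + 1)
    rw [← hG (n % d + 1), ← hG (n + 1), Nat.mod_add_mod]
  have hs : ∑ a ∈ range d, G' a = 0 := by rw [← h0]; exact pb_shift hG 1
  have hblock : ∀ q r : ℕ, ∑ a ∈ range (d * q + r), G' a = ∑ a ∈ range r, G' a := by
    intro q
    induction q with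
    | zero => intro r; simp
    | succ q ih =>
      intro r
      have : d * (q + 1) + r = d + (d * q + r) := by ring
      rw [this, sum_range_add, hs, zero_add]
      rw [← ih r]
      exact sum_congr rfl fun a _ => pb_add hG1 a
  have e2 : ∑ a ∈ range j, G' a = ∑ a ∈ range (j % d), G' a := by
    conv_lhs => rw [← Nat.div_add_mod j d]
    exact hblock _ _
  rw [e1, e2]
  have e3 : ∑ a ∈ range d, |G a| = ∑ a ∈ range d, |G' a| :=
    (pb_shift (G := fun a => |G a|) (fun n => by rw [hG]) 1).symm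
  rw [e3]
  refine (abs_sum_le_sum_abs _ _).trans (sum_le_sum_of_subset_of_nonneg ?_ (fun _ _ _ => abs_nonneg _))
  exact range_subset_range.2 (Nat.mod_lt _ hd).le

end periodic

theorem hit_mod (B : Finset ℕ) (p n : ℕ) : Hit B p (n % p) ↔ Hit B p n := by
  unfold Hit
  refine exists_congr fun b => and_congr_right fun _ => ?_
  rw [Nat.dvd_iff_mod_eq_zero, Nat.dvd_iff_mod_eq_zero, Nat.mod_add_mod]

open Classical in
/-- indicator function of `Hit` -/
noncomputable def hI (B : Finset ℕ) (p n : ℕ) : ℝ := if Hit B p n then 1 else 0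

theorem hI_mod (B : Finset ℕ) (p n : ℕ) : hI B p (n % p) = hI B p n := by
  unfold hI
  rw [hit_mod]

theorem hI_nonneg (B : Finset ℕ) (p n : ℕ) : 0 ≤ hI B p n := by
  unfold hI; split_ifs <;> norm_num

theorem nuB_eq_sum (B : Finset ℕ) (p : ℕ) : (nuB (Hit B) p : ℝ) = ∑ a ∈ range p, hI B p a := by
  classical
  unfold nuB hI
  rw [card_filter, Nat.cast_sum]
  refine sum_congr rfl fun a _ => ?_
  split_ifs <;> simp

/-- the number of common classes -/
noncomputable def cc (B : Finset ℕ) (p h : ℕ) : ℝ := ∑ a ∈ range p, hI B p a * hI B p (a + h)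

theorem cc_nonneg (B : Finset ℕ) (p h : ℕ) : 0 ≤ cc B p h :=
  sum_nonneg fun _ _ => mul_nonneg (hI_nonneg _ _ _) (hI_nonneg _ _ _)

theorem cc_mod (B : Finset ℕ) (p h : ℕ) : cc B p (h % p) = cc B p h := by
  unfold cc
  refine sum_congr rfl fun a _ => ?_
  congr 1
  rw [← hI_mod B p (a + h % p), ← hI_mod B p (a + h), Nat.add_mod_mod]

theorem nuB2_eq (B : Finset ℕ) (p h : ℕ) : (nuB (Hit2 B h) p : ℝ) = 2 * nuB (Hit B) p - cc B p h := by
  classical
  have h1 : (nuB (Hit2 B h) p : ℝ) = ∑ a ∈ range p, (hI B p a + hI B p (a + h) - hI B p a * hI B p (a + h)) := by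
    unfold nuB hI Hit2
    rw [card_filter, Nat.cast_sum]
    refine sum_congr rfl fun a _ => ?_
    by_cases h1 : Hit B p a <;> by_cases h2 : Hit B p (a + h) <;> simp [h1, h2]
  rw [h1, sum_sub_distrib, sum_add_distrib, pb_shift (fun n => hI_mod B p n), ← nuB_eq_sum]
  unfold cc
  ring

theorem cc_sum (B : Finset ℕ) (p : ℕ) : ∑ h ∈ range p, cc B p h = (nuB (Hit B) p : ℝ) ^ 2 := by
  unfold cc
  rw [sum_comm]
  have h1 : ∀ a ∈ range p, ∑ h ∈ range p, hI B p a * hI B p (a + h) = hI B p a * nuB (Hit B) p := by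
    intro a _
    rw [← mul_sum, nuB_eq_sum, ← pb_shift (fun n => hI_mod B p n) a]
    congr 1
    exact sum_congr rfl fun h _ => by rw [add_comm]
  rw [sum_congr rfl h1, ← sum_mul, ← nuB_eq_sum, sq]

theorem nuB_le_card (B : Finset ℕ) {p : ℕ} (hp : 0 < p) : nuB (Hit B) p ≤ B.card := by
  classical
  unfold nuB
  have h1 : (range p).filter (fun r => Hit B p r) ⊆ B.image (fun b => (p - b % p) % p) := by
    intro r hr
    rw [mem_filter, mem_range] at hr
    obtain ⟨hr1, b, hb, hd⟩ := hr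
    refine mem_image.2 ⟨b, hb, ?_⟩
    have hm : b % p < p := Nat.mod_lt _ hp
    have h2 : (r + b % p) % p = 0 := by
      rw [Nat.add_mod_mod]; exact Nat.mod_eq_zero_of_dvd hd
    by_cases h0 : b % p = 0
    · rw [h0, add_zero, Nat.mod_eq_of_lt hr1] at h2
      rw [h0, Nat.sub_zero, Nat.mod_self, h2]
    · have h3 : r + b % p = p := by
        obtain ⟨c, hc⟩ := Nat.dvd_of_mod_eq_zero h2
        have hc1 : c = 1 := by
          rcases Nat.lt_or_ge c 1 with h | h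
          · have : c = 0 := by omega
            subst this; omega
          · rcases Nat.lt_or_ge c 2 with h' | h'
            · omega
            · have : p * 2 ≤ p * c := Nat.mul_le_mul_left _ h'
              omega
        rw [hc1, mul_one] at hc; exact hc
      have h4 : p - b % p = r := by omega
      rw [h4, Nat.mod_eq_of_lt hr1]
  exact (card_le_card h1).trans card_image_le

/-- the local factor minus one -/
noncomputable def ph (B : Finset ℕ) (p h : ℕ) : ℝ :=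
  (1 - (nuB (Hit2 B h) p : ℝ) / p) / (1 - (nuB (Hit B) p : ℝ) / p) ^ 2 - 1

theorem ph_mod (B : Finset ℕ) (p h : ℕ) : ph B p (h % p) = ph B p h := by
  unfold ph
  rw [nuB2_eq, nuB2_eq, cc_mod]

theorem loc_pos (B : Finset ℕ) {p : ℕ} (hp : 0 < p) (hr : nuB (Hit B) p < p) :
    1 / ((B.card : ℝ) + 1) ≤ 1 - (nuB (Hit B) p : ℝ) / p := by
  have hpr : (0 : ℝ) < p := by exact_mod_cast hp
  have hk0 : (0 : ℝ) < (B.card : ℝ) + 1 := by positivity
  have h1 : (1 : ℝ) - (nuB (Hit B) p : ℝ) / p = (p - nuB (Hit B) p) / p := by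
    field_simp
  rw [h1, div_le_div_iff₀ hk0 hpr, one_mul]
  have h2 : (nuB (Hit B) p : ℝ) + 1 ≤ p := by exact_mod_cast hr
  have h3 : (nuB (Hit B) p : ℝ) ≤ B.card := by exact_mod_cast nuB_le_card B hp
  nlinarith

theorem ph_eq (B : Finset ℕ) {p : ℕ} (hp : 0 < p) (hr : nuB (Hit B) p < p) (h : ℕ) :
    ph B p h = (cc B p h / p - (nuB (Hit B) p : ℝ) ^ 2 / (p : ℝ) ^ 2) / (1 - (nuB (Hit B) p : ℝ) / p) ^ 2 := by
  have hpr : (0 : ℝ) < p := by exact_mod_cast hp
  have h1 := loc_pos B hp hr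
  have h2 : (0 : ℝ) < 1 / ((B.card : ℝ) + 1) := by positivity
  have h3 : (1 - (nuB (Hit B) p : ℝ) / p) ^ 2 ≠ 0 := by
    have : 0 < 1 - (nuB (Hit B) p : ℝ) / p := h2.trans_le h1
    positivity
  unfold ph
  rw [nuB2_eq, eq_div_iff h3, sub_mul, div_mul_cancel₀ _ h3, one_mul]
  field_simp
  ring

theorem ph_sum (B : Finset ℕ) {p : ℕ} (hp : 0 < p) (hr : nuB (Hit B) p < p) :
    ∑ h ∈ range p, ph B p h = 0 := by
  have hpr : (p : ℝ) ≠ 0 := by exact_mod_cast hp.ne'
  rw [sum_congr rfl (fun h _ => ph_eq B hp hr h), ← sum_div, sum_sub_distrib, ← sum_div, cc_sum, sum_const,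
    card_range, nsmul_eq_mul]
  have : (nuB (Hit B) p : ℝ) ^ 2 / p - p * ((nuB (Hit B) p : ℝ) ^ 2 / (p : ℝ) ^ 2) = 0 := by
    field_simp; ring
  rw [this, zero_div]

theorem ph_abs (B : Finset ℕ) {p : ℕ} (hp : 0 < p) (hr : nuB (Hit B) p < p) :
    ∑ h ∈ range p, |ph B p h| ≤ (2 * (B.card : ℝ) ^ 2 * ((B.card : ℝ) + 1) ^ 2) / (p : ℝ) := by
  have hpr : (0 : ℝ) < p := by exact_mod_cast hp
  have h1 := loc_pos B hp hr
  have hk0 : (0 : ℝ) < (B.card : ℝ) + 1 := by positivity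
  have h2 : (0 : ℝ) < 1 / ((B.card : ℝ) + 1) := by positivity
  have h3 : 0 < 1 - (nuB (Hit B) p : ℝ) / p := h2.trans_le h1
  have h4 : (nuB (Hit B) p : ℝ) ≤ B.card := by exact_mod_cast nuB_le_card B hp
  have h5 : ∀ h ∈ range p, |ph B p h| ≤
      (cc B p h / p + (nuB (Hit B) p : ℝ) ^ 2 / (p : ℝ) ^ 2) / (1 - (nuB (Hit B) p : ℝ) / p) ^ 2 := by
    intro h _
    rw [ph_eq B hp hr h, abs_div, abs_of_pos (pow_pos h3 2)]
    refine div_le_div_of_nonneg_right ?_ (pow_pos h3 2).le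
    refine (abs_sub _ _).trans (le_of_eq ?_)
    rw [abs_of_nonneg (div_nonneg (cc_nonneg B p h) hpr.le), abs_of_nonneg (by positivity)]
  refine (sum_le_sum h5).trans ?_
  rw [← sum_div, sum_add_distrib, ← sum_div, cc_sum, sum_const, card_range, nsmul_eq_mul]
  have e1 : (nuB (Hit B) p : ℝ) ^ 2 / p + p * ((nuB (Hit B) p : ℝ) ^ 2 / (p : ℝ) ^ 2) =
      2 * (nuB (Hit B) p : ℝ) ^ 2 / p := by
    field_simp; ring
  rw [e1, div_le_iff₀ (pow_pos h3 2), div_mul_eq_mul_div, div_le_div_iff_of_pos_right hpr]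
  have h6 : 1 ≤ ((B.card : ℝ) + 1) ^ 2 * (1 - (nuB (Hit B) p : ℝ) / p) ^ 2 := by
    rw [← mul_pow]
    refine one_le_pow₀ ?_
    rw [div_le_iff₀ hk0] at h1
    linarith
  have h7 : (nuB (Hit B) p : ℝ) ^ 2 ≤ (B.card : ℝ) ^ 2 := pow_le_pow_left₀ (by positivity) h4 2
  calc 2 * (nuB (Hit B) p : ℝ) ^ 2 ≤ 2 * (B.card : ℝ) ^ 2 * 1 := by linarith
    _ ≤ 2 * (B.card : ℝ) ^ 2 * (((B.card : ℝ) + 1) ^ 2 * (1 - (nuB (Hit B) p : ℝ) / p) ^ 2) :=
        mul_le_mul_of_nonneg_left h6 (by positivity)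
    _ = _ := by ring

/-- **B** -/
theorem average (B : Finset ℕ) (hadm : ∀ p : ℕ, p.Prime → nuB (Hit B) p < p) (y j : ℕ) :
    ∑ h ∈ Icc 1 j, WW2 B y h ≤ WW B y ^ 2 *
      (j + ∏ p ∈ pz y, (1 + (2 * (B.card : ℝ) ^ 2 * ((B.card : ℝ) + 1) ^ 2) / (p : ℝ))) := by
  classical
  have hP : ∀ p ∈ pz y, p.Prime := fun p hp => (mem_pz.1 hp).2
  set C : ℝ := 2 * (B.card : ℝ) ^ 2 * ((B.card : ℝ) + 1) ^ 2 with hC
  have hC0 : 0 ≤ C := by positivity
  have hloc : ∀ p ∈ pz y, (1 - (nuB (Hit B) p : ℝ) / p) ≠ 0 := by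
    intro p hp
    have h1 := loc_pos B (hP p hp).pos (hadm p (hP p hp))
    have h2 : (0 : ℝ) < 1 / ((B.card : ℝ) + 1) := by positivity
    exact (h2.trans_le h1).ne'
  have e1 : ∀ h, WW2 B y h = WW B y ^ 2 * ∏ p ∈ pz y, (1 + ph B p h) := by
    intro h
    unfold WW2 WW
    rw [← prod_pow, ← prod_mul_distrib]
    refine prod_congr rfl fun p hp => ?_
    unfold ph
    rw [add_sub_cancel, mul_div_cancel₀ _ (pow_ne_zero 2 (hloc p hp))]
  rw [sum_congr rfl (fun h _ => e1 h), ← mul_sum]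
  refine mul_le_mul_of_nonneg_left ?_ (sq_nonneg _)
  -- expansion over the sets of primes
  have e2 : ∀ h, ∏ p ∈ pz y, (1 + ph B p h) = ∑ S ∈ (pz y).powerset, ∏ p ∈ S, ph B p h := by
    intro h
    rw [prod_one_add]
  rw [sum_congr rfl (fun h _ => e2 h), sum_comm]
  have e3 : ∏ p ∈ pz y, (1 + C / (p : ℝ)) = ∑ S ∈ (pz y).powerset, ∏ p ∈ S, (C / (p : ℝ)) := by
    rw [prod_one_add]
  rw [e3, ← add_sum_erase _ _ (empty_mem_powerset (pz y))]
  have h0 : ∑ h ∈ Icc 1 j, ∏ p ∈ (∅ : Finset ℕ), ph B p h = j := by simp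
  rw [h0]
  refine add_le_add le_rfl ?_
  have hnn : ∀ S : Finset ℕ, 0 ≤ ∏ p ∈ S, (C / (p : ℝ)) := fun S => prod_nonneg fun p _ => by positivity
  refine le_trans (sum_le_sum fun S hS => ?_) (sum_le_sum_of_subset_of_nonneg (erase_subset ∅ _)
    (fun S _ _ => hnn S))
  obtain ⟨hS0, hS⟩ := mem_erase.1 hS
  rw [mem_powerset] at hS
  have hSp : ∀ p ∈ S, p.Prime := fun p hp => hP p (hS hp)
  have hd : 0 < ∏ p ∈ S, p := prod_pos fun p hp => (hSp p hp).pos
  have hper : ∀ n, ∏ p ∈ S, ph B p (n % ∏ p ∈ S, p) = ∏ p ∈ S, ph B p n := by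
    intro n
    refine prod_congr rfl fun p hp => ?_
    rw [← ph_mod B p (n % _), Nat.mod_mod_of_dvd _ (dvd_prod_of_mem _ hp), ph_mod]
  have hsum : ∑ a ∈ range (∏ p ∈ S, p), ∏ p ∈ S, ph B p a = 0 := by
    rw [Pool.Agent.R345.SS.crt_prod S hSp (fun p h => ph B p h) (fun p _ x => ph_mod B p x)]
    obtain ⟨p, hp⟩ := nonempty_iff_ne_empty.2 hS0
    exact prod_eq_zero hp (ph_sum B (hSp p hp).pos (hadm p (hSp p hp)))
  have habs : ∑ a ∈ range (∏ p ∈ S, p), |∏ p ∈ S, ph B p a| ≤ ∏ p ∈ S, (C / (p : ℝ)) := by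
    have e4 : ∀ a ∈ range (∏ p ∈ S, p), |∏ p ∈ S, ph B p a| = ∏ p ∈ S, |ph B p a| := fun a _ => abs_prod _ _
    rw [sum_congr rfl e4, Pool.Agent.R345.SS.crt_prod S hSp (fun p h => |ph B p h|)
      (fun p _ x => by rw [ph_mod B p x])]
    exact prod_le_prod (fun p _ => sum_nonneg fun _ _ => abs_nonneg _)
      (fun p hp => ph_abs B (hSp p hp).pos (hadm p (hSp p hp)))
  exact ((le_abs_self _).trans (pb_partial hd hper hsum j)).trans habs

end Pool.Agent.J4.H65.AT
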