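import Pool.Agent.J4.H65.AT.Defs
import Pool.Agent.H20R2.EN.FLem

/-! # Blocks of primes: mean values of the weights of Brun and Hooley (PIECE D) -/

set_option autoImplicit false

open Finset

namespace Pool.Agent.J4.H65.AT

open Pool.Agent.Helper112.LP Pool.Agent.Helper112.LP.Kba Pool.Agent.Helper112.LP.Kbh
open Pool.Agent.H483R2.BHKD

namespace PD

/-! ## Sums over the family of a block -/

lemma split_sum (Q : Finset ℕ) (r : ℕ) (f : Finset ℕ → ℝ) :
    ∑ U ∈ Q.powerset.filter (fun U => U.card ≤ r + 1), f U =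
      ∑ U ∈ Q.powerset.filter (fun U => U.card ≤ r), f U +
        ∑ U ∈ Q.powersetCard (r + 1), f U := by
  classical
  rw [powersetCard_eq_filter, ← sum_union]
  · apply sum_congr _ (fun _ _ => rfl)
    ext U
    simp only [mem_filter, mem_union, mem_powerset]
    constructor
    · rintro ⟨h1, h2⟩
      rcases Nat.lt_or_ge r U.card with h | h
      · exact Or.inr ⟨h1, by omega⟩
      · exact Or.inl ⟨h1, h⟩
    · rintro (⟨h1, h2⟩ | ⟨h1, h2⟩)
      · exact ⟨h1, by omega⟩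
      · exact ⟨h1, by omega⟩
  · rw [disjoint_left]
    intro U h1 h2
    rw [mem_filter] at h1 h2
    omega

lemma sum_cF (Q : Finset ℕ) (r : ℕ) (f : Finset ℕ → ℝ) :
    ∑ U ∈ Q.powerset.filter (fun U => U.card ≤ r + 1),
      (if U.card ≤ r then (-1 : ℝ) ^ U.card else 0) * f U =
      ∑ U ∈ Q.powerset.filter (fun U => U.card ≤ r), (-1 : ℝ) ^ U.card * f U := by
  rw [split_sum]
  have h1 : ∑ U ∈ Q.powersetCard (r + 1), (if U.card ≤ r then (-1 : ℝ) ^ U.card else 0) * f U = 0 := by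
    apply sum_eq_zero
    intro U hU
    have := (mem_powersetCard.1 hU).2
    rw [if_neg (by omega), zero_mul]
  rw [h1, add_zero]
  apply sum_congr rfl
  intro U hU
  rw [if_pos (mem_filter.1 hU).2]

lemma sum_cG (Q : Finset ℕ) (r : ℕ) (f : Finset ℕ → ℝ) :
    ∑ U ∈ Q.powerset.filter (fun U => U.card ≤ r + 1),
      (if U.card ≤ r then (-1 : ℝ) ^ U.card else 1) * f U =
      ∑ U ∈ Q.powerset.filter (fun U => U.card ≤ r), (-1 : ℝ) ^ U.card * f U +
        ∑ U ∈ Q.powersetCard (r + 1), f U := by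
  rw [split_sum]
  congr 1
  · apply sum_congr rfl
    intro U hU
    rw [if_pos (mem_filter.1 hU).2]
  · apply sum_congr rfl
    intro U hU
    have := (mem_powersetCard.1 hU).2
    rw [if_neg (by omega), one_mul]

/-! ## The mean value of the square for one block -/

lemma kap (Q W : Finset ℕ) (hW : W ⊆ Q) (g : ℕ → ℝ) :
    ∏ l ∈ W, g l = ∑ s ∈ Q.powerset, if W ⊆ s then (∏ l ∈ s, g l) * ∏ l ∈ Q \ s, (1 - g l) else 0 := by
  classical
  have h1 := Finset.prod_add g (fun l => if l ∈ W then 0 else 1 - g l) Q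
  have h2 : ∏ l ∈ Q, (g l + if l ∈ W then 0 else 1 - g l) = ∏ l ∈ W, g l := by
    rw [← prod_subset hW (f := fun l => g l + if l ∈ W then 0 else 1 - g l)]
    · apply prod_congr rfl
      intro l hl
      rw [if_pos hl, add_zero]
    · intro l _ hl
      rw [if_neg hl]
      ring
  rw [← h2, h1]
  apply sum_congr rfl
  intro s hs
  split_ifs with h
  · congr 1
    apply prod_congr rfl
    intro l hl
    rw [if_neg]
    intro h3
    exact (mem_sdiff.1 hl).2 (h h3)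
  · rw [not_subset] at h
    obtain ⟨l, hl, hls⟩ := h
    have h3 : ∏ l ∈ Q \ s, (if l ∈ W then (0 : ℝ) else 1 - g l) = 0 := by
      apply prod_eq_zero (i := l) (mem_sdiff.2 ⟨hW hl, hls⟩)
      rw [if_pos hl]
    rw [h3, mul_zero]

lemma ee_eq (Q : Finset ℕ) (g : ℕ → ℝ) (F : Finset (Finset ℕ)) (hF : ∀ U ∈ F, U ⊆ Q)
    (c : Finset ℕ → ℝ) :
    ∑ U ∈ F, ∑ U' ∈ F, c U * c U' * ∏ l ∈ U ∪ U', g l =
      ∑ s ∈ Q.powerset, ((∏ l ∈ s, g l) * ∏ l ∈ Q \ s, (1 - g l)) *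
        (∑ U ∈ F, if U ⊆ s then c U else 0) ^ 2 := by
  classical
  have h1 : ∀ U ∈ F, ∀ U' ∈ F, c U * c U' * ∏ l ∈ U ∪ U', g l =
      ∑ s ∈ Q.powerset, ((∏ l ∈ s, g l) * ∏ l ∈ Q \ s, (1 - g l)) *
        ((if U ⊆ s then c U else 0) * (if U' ⊆ s then c U' else 0)) := by
    intro U hU U' hU'
    rw [kap Q (U ∪ U') (union_subset (hF U hU) (hF U' hU')) g, mul_sum]
    apply sum_congr rfl
    intro s _
    by_cases h2 : U ⊆ s
    · by_cases h3 : U' ⊆ s
      · rw [if_pos (union_subset h2 h3), if_pos h2, if_pos h3]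
        ring
      · rw [if_neg (fun h => h3 (subset_union_right.trans h)), if_neg h3]
        ring
    · rw [if_neg (fun h => h2 (subset_union_left.trans h)), if_neg h2]
      ring
  rw [sum_congr rfl (fun U hU => sum_congr rfl (fun U' hU' => h1 U hU U' hU'))]
  rw [sum_congr rfl (fun U _ => sum_comm), sum_comm]
  apply sum_congr rfl
  intro s _
  rw [sq, sum_mul_sum, mul_sum]
  apply sum_congr rfl
  intro U _
  rw [mul_sum]

lemma inner_small (Q : Finset ℕ) (r : ℕ) (c : Finset ℕ → ℝ)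
    (hc : ∀ U : Finset ℕ, U.card ≤ r → c U = (-1) ^ U.card) (s : Finset ℕ) (hs : s ⊆ Q)
    (hr : s.card ≤ r) :
    (∑ U ∈ Q.powerset.filter (fun U => U.card ≤ r + 1), if U ⊆ s then c U else 0) =
      if s = ∅ then 1 else 0 := by
  classical
  rw [← sum_filter]
  have h1 : (Q.powerset.filter (fun U => U.card ≤ r + 1)).filter (fun U => U ⊆ s) = s.powerset := by
    ext U
    simp only [mem_filter, mem_powerset]
    constructor
    · exact fun h => h.2
    · intro h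
      have := card_le_card h
      exact ⟨⟨h.trans hs, by omega⟩, h⟩
  rw [h1]
  have h2 : ∑ U ∈ s.powerset, c U = ∑ U ∈ s.powerset, (-1 : ℝ) ^ U.card := by
    apply sum_congr rfl
    intro U hU
    exact hc U ((card_le_card (mem_powerset.1 hU)).trans hr)
  rw [h2]
  have h3 := Finset.sum_powerset_neg_one_pow_card (x := s)
  have h4 := congrArg (fun z : ℤ => (z : ℝ)) h3
  push_cast at h4
  exact h4

lemma inner_large (Q : Finset ℕ) (r : ℕ) (c : Finset ℕ → ℝ) (hc : ∀ U : Finset ℕ, |c U| ≤ 1)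
    (s : Finset ℕ) :
    (∑ U ∈ Q.powerset.filter (fun U => U.card ≤ r + 1), if U ⊆ s then c U else 0) ^ 2 ≤
      4 ^ s.card := by
  classical
  have h1 : |∑ U ∈ Q.powerset.filter (fun U => U.card ≤ r + 1), if U ⊆ s then c U else 0| ≤
      2 ^ s.card := by
    rw [← sum_filter]
    refine (abs_sum_le_sum_abs _ _).trans ?_
    refine (sum_le_sum (fun U _ => hc U)).trans ?_
    rw [sum_const, nsmul_eq_mul, mul_one]
    have h2 : ((Q.powerset.filter (fun U => U.card ≤ r + 1)).filter (fun U => U ⊆ s)).card ≤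
        2 ^ s.card := by
      rw [← card_powerset]
      apply card_le_card
      intro U hU
      exact mem_powerset.2 (mem_filter.1 hU).2
    exact_mod_cast h2
  have h3 : (4 : ℝ) ^ s.card = (2 ^ s.card) ^ 2 := by
    rw [← pow_mul, mul_comm, pow_mul]; norm_num
  rw [h3]
  exact sq_le_sq' (abs_le.1 h1).1 (abs_le.1 h1).2

lemma ee_block (Q : Finset ℕ) (g : ℕ → ℝ) (hg : ∀ l ∈ Q, 0 ≤ g l ∧ g l ≤ 1) (r : ℕ)
    (c : Finset ℕ → ℝ) (hc : ∀ U : Finset ℕ, U.card ≤ r → c U = (-1) ^ U.card)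
    (hc1 : ∀ U : Finset ℕ, |c U| ≤ 1) :
    ∑ U ∈ Q.powerset.filter (fun U => U.card ≤ r + 1),
      ∑ U' ∈ Q.powerset.filter (fun U => U.card ≤ r + 1), c U * c U' * ∏ l ∈ U ∪ U', g l ≤
      ∏ l ∈ Q, (1 - g l) + ∑ m ∈ Ico (r + 1) (Q.card + 1), 4 ^ m * bhE g m Q := by
  classical
  rw [ee_eq Q g _ (fun U hU => mem_powerset.1 (mem_filter.1 hU).1) c]
  have h1 : ∀ s ∈ Q.powerset, ((∏ l ∈ s, g l) * ∏ l ∈ Q \ s, (1 - g l)) *
        (∑ U ∈ Q.powerset.filter (fun U => U.card ≤ r + 1), if U ⊆ s then c U else 0) ^ 2 ≤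
      (if s = ∅ then ∏ l ∈ Q, (1 - g l) else 0) +
        if r + 1 ≤ s.card then 4 ^ s.card * ∏ l ∈ s, g l else 0 := by
    intro s hs
    have hsQ := mem_powerset.1 hs
    have hg1 : 0 ≤ ∏ l ∈ s, g l := prod_nonneg fun l hl => (hg l (hsQ hl)).1
    rcases Nat.lt_or_ge r s.card with h | h
    · have hne : s ≠ ∅ := by
        rintro rfl
        simp at h
      rw [if_neg hne, if_pos (by omega), zero_add]
      have h2 := inner_large Q r c hc1 s
      have h3 : ∏ l ∈ Q \ s, (1 - g l) ≤ 1 := by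
        apply prod_le_one
        · intro l hl
          linarith [(hg l (mem_sdiff.1 hl).1).2]
        · intro l hl
          linarith [(hg l (mem_sdiff.1 hl).1).1]
      have h4 : 0 ≤ ∏ l ∈ Q \ s, (1 - g l) := prod_nonneg fun l hl => by
        linarith [(hg l (mem_sdiff.1 hl).1).2]
      calc (∏ l ∈ s, g l) * (∏ l ∈ Q \ s, (1 - g l)) * _ ≤
            (∏ l ∈ s, g l) * 1 * 4 ^ s.card := by
            apply mul_le_mul (mul_le_mul_of_nonneg_left h3 hg1) h2 (sq_nonneg _)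
            rw [mul_one]
            exact hg1
        _ = _ := by ring
    · rw [inner_small Q r c hc s hsQ h, if_neg (by omega : ¬ r + 1 ≤ s.card), add_zero]
      by_cases h2 : s = ∅
      · rw [if_pos h2, if_pos h2, h2, prod_empty, sdiff_empty]
        simp
      · rw [if_neg h2, if_neg h2]
        simp
  refine (sum_le_sum h1).trans ?_
  rw [sum_add_distrib]
  apply add_le_add
  · rw [sum_ite_eq' Q.powerset ∅, if_pos (empty_mem_powerset Q)]
  · apply le_of_eq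
    rw [← sum_filter]
    have hmaps : ∀ s ∈ Q.powerset.filter (fun s => r + 1 ≤ s.card), s.card ∈ Ico (r + 1) (Q.card + 1) := by
      intro s hs
      rw [mem_filter, mem_powerset] at hs
      rw [mem_Ico]
      have := card_le_card hs.1
      exact ⟨hs.2, by omega⟩
    rw [← sum_fiberwise_of_maps_to hmaps]
    apply sum_congr rfl
    intro m hm
    rw [mem_Ico] at hm
    unfold bhE
    rw [mul_sum]
    have h2 : (Q.powerset.filter (fun s => r + 1 ≤ s.card)).filter (fun s => s.card = m) =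
        powersetCard m Q := by
      rw [powersetCard_eq_filter, filter_filter]
      apply filter_congr
      intro U _
      constructor
      · exact fun h => h.2
      · exact fun h => ⟨by omega, h⟩
    rw [h2]
    apply sum_congr rfl
    intro U hU
    rw [(mem_powersetCard.1 hU).2]

/-- the tail of the exponential series, with the factor `4 ^ m` -/
lemma tail_four (Q : Finset ℕ) (g : ℕ → ℝ) (hg : ∀ l ∈ Q, 0 ≤ g l) (x0 : ℝ) (hx0 : 0 ≤ x0)
    (hQ : ∑ l ∈ Q, g l ≤ x0) (r : ℕ) (hr : 84 * x0 ≤ r) :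
    ∑ m ∈ Ico (r + 1) (Q.card + 1), 4 ^ m * bhE g m Q ≤ Real.exp (-(2 * x0)) * (1 / 2) ^ r := by
  have h0 : 0 ≤ ∑ l ∈ Q, g l := sum_nonneg hg
  have h1 : ∀ m ∈ Ico (r + 1) (Q.card + 1), 4 ^ m * bhE g m Q ≤
      Real.exp (-(2 * x0)) * (1 / 2) ^ m := by
    intro m hm
    rw [mem_Ico] at hm
    have h2 := bhE_le g Q hg m
    have h3 := tail_one (4 * x0) (by positivity) m (by omega) (by
      have : (r : ℝ) ≤ m := by exact_mod_cast (by omega : r ≤ m)
      linarith)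
    have h4 : 4 ^ m * bhE g m Q ≤ (4 * x0) ^ m / m.factorial := by
      calc 4 ^ m * bhE g m Q ≤ 4 ^ m * ((∑ l ∈ Q, g l) ^ m / m.factorial) :=
            mul_le_mul_of_nonneg_left h2 (by positivity)
        _ ≤ 4 ^ m * (x0 ^ m / m.factorial) := by gcongr
        _ = _ := by rw [mul_pow]; ring
    have h5 : (4 * x0) ^ m / m.factorial ≤ Real.exp (-(2 * (4 * x0))) * (1 / 2) ^ m := by
      have h6 : Real.exp (-(2 * (4 * x0))) * Real.exp (2 * (4 * x0)) = 1 := by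
        rw [← Real.exp_add]; simp
      have h7 := mul_le_mul_of_nonneg_left h3 (Real.exp_pos (-(2 * (4 * x0)))).le
      calc (4 * x0) ^ m / m.factorial = Real.exp (-(2 * (4 * x0))) *
            ((4 * x0) ^ m / m.factorial * Real.exp (2 * (4 * x0))) := by
              rw [mul_comm ((4 * x0) ^ m / (m.factorial : ℝ)), ← mul_assoc, h6, one_mul]
        _ ≤ _ := h7
    have h8 : Real.exp (-(2 * (4 * x0))) ≤ Real.exp (-(2 * x0)) := Real.exp_le_exp.2 (by linarith)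
    exact h4.trans (h5.trans (mul_le_mul_of_nonneg_right h8 (by positivity)))
  refine (sum_le_sum h1).trans ?_
  rw [← mul_sum]
  apply mul_le_mul_of_nonneg_left _ (Real.exp_pos _).le
  have h9 : ∀ n, r + 1 ≤ n → ∑ m ∈ Ico (r + 1) n, (1 / 2 : ℝ) ^ m ≤ (1 / 2) ^ r - (1 / 2) ^ (n - 1) := by
    intro n hn
    induction n, hn using Nat.le_induction with
    | base => simp
    | succ n hn ih =>
      rw [sum_Ico_succ_top (by omega)]
      have h10 : (1 / 2 : ℝ) ^ (n - 1) = 2 * (1 / 2) ^ n := by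
        obtain ⟨k, rfl⟩ : ∃ k, n = k + 1 := ⟨n - 1, by omega⟩
        rw [Nat.add_sub_cancel, pow_succ]; ring
      rw [Nat.add_sub_cancel]
      linarith
  rcases Nat.lt_or_ge Q.card (r + 1) with h | h
  · rw [Ico_eq_empty (by omega), sum_empty]
    positivity
  · have := h9 (Q.card + 1) (by omega)
    have h11 : (0 : ℝ) ≤ (1 / 2) ^ (Q.card + 1 - 1) := by positivity
    linarith

/-! ## The blocks -/

theorem block_setup (κ : ℕ) : ∃ C0 : ℕ, 2 ≤ C0 ∧ ∃ x0 : ℝ, 0 ≤ x0 ∧ 84 * x0 ≤ 2 * (C0 : ℝ) ∧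
    ∀ (J : ℕ) (P : Finset ℕ) (g : ℕ → ℝ),
    (∀ p ∈ P, p.Prime ∧ C0 < p ∧ p < 2 ^ 2 ^ J) →
    (∀ p ∈ P, 0 ≤ g p ∧ g p ≤ κ / ((p : ℝ) - 1)) →
    (∀ p ∈ P, 0 ≤ g p ∧ g p ≤ 1 / 2) ∧
    (∏ p ∈ P, (1 - g p) = ∏ i : Fin J, ∏ l ∈ blk P J i, (1 - g l)) ∧
    ∀ i : Fin J, ∑ l ∈ blk P J i, g l ≤ x0 ∧
      Real.exp (-(2 * x0)) ≤ ∏ l ∈ blk P J i, (1 - g l) := by
  classical
  obtain ⟨CM, hCM, hM⟩ := mertens_group
  set L : ℝ := Real.log 2 + CM with hLdef
  have hlog2 : 0 < Real.log 2 := Real.log_pos (by norm_num)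
  have hL0 : 0 < L := by rw [hLdef]; linarith
  have hLs : ∀ i : ℕ, ∑ l ∈ Gj (i + 1), (1 : ℝ) / l ≤ L := by
    intro i
    have h1 := (abs_le.1 (hM (i + 1) (by omega))).2
    have h2 : CM / 2 ^ (i + 1) ≤ CM := div_le_self hCM.le (one_le_pow₀ (by norm_num))
    rw [hLdef]; linarith
  obtain ⟨N, hN⟩ := exists_nat_ge (84 * (κ * L))
  have hκ0 : (0 : ℝ) ≤ κ := Nat.cast_nonneg κ
  set x0 : ℝ := 2 * (κ * L) with hx0
  have hx00 : 0 ≤ x0 := by positivity
  refine ⟨N + 2 * κ + 10, by omega, x0, hx00, ?_, ?_⟩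
  · push_cast
    rw [hx0]
    nlinarith
  intro J P g hP hg
  have hPG : ∀ i : Fin J, blk P J i ⊆ Gj ((i : ℕ) + 1) := fun i p hp => (mem_filter.1 hp).2
  have hPiP : ∀ i : Fin J, blk P J i ⊆ P := fun i => filter_subset _ _
  have hU : bhU (blk P J) = P := by
    ext p
    unfold bhU
    rw [mem_biUnion]
    constructor
    · rintro ⟨i, _, hi⟩
      exact hPiP i hi
    · intro hp
      obtain ⟨i, hi⟩ := bh_cover (hP p hp).1 (hP p hp).2.2
      exact ⟨i, mem_univ _, mem_filter.2 ⟨hp, hi⟩⟩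
  have hpb : ∀ p ∈ P, (2 * κ + 10 : ℝ) ≤ (p : ℝ) - 1 := by
    intro p hp
    have h2 : 2 * κ + 10 + 1 ≤ p := by
      have := (hP p hp).2.1
      omega
    have h3 : ((2 * κ + 10 + 1 : ℕ) : ℝ) ≤ p := by exact_mod_cast h2
    push_cast at h3
    linarith
  have hgk : ∀ p ∈ P, g p ≤ 1 / 2 := by
    intro p hp
    have h1 := (hg p hp).2
    have h2 := hpb p hp
    refine h1.trans ?_
    rw [div_le_iff₀ (by linarith)]
    linarith
  have hg2 : ∀ p ∈ P, g p ≤ 2 * κ * (1 / (p : ℝ)) := by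
    intro p hp
    have h1 := (hg p hp).2
    have h2 := hpb p hp
    refine h1.trans ?_
    rw [mul_one_div, div_le_div_iff₀ (by linarith) (by linarith)]
    nlinarith
  have hVeq : ∏ l ∈ P, (1 - g l) = ∏ i, ∏ l ∈ blk P J i, (1 - g l) := by
    rw [bh_pT_eq (blk P J) hPG (fun l => 1 - g l), hU]
  refine ⟨fun p hp => ⟨(hg p hp).1, hgk p hp⟩, hVeq, fun i => ?_⟩
  have hgsum : ∑ l ∈ blk P J i, g l ≤ x0 := by
    calc ∑ l ∈ blk P J i, g l ≤ ∑ l ∈ blk P J i, 2 * (κ : ℝ) * (1 / (l : ℝ)) := by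
          apply sum_le_sum
          intro l hl
          exact hg2 l (hPiP i hl)
      _ = 2 * κ * ∑ l ∈ blk P J i, 1 / (l : ℝ) := by rw [mul_sum]
      _ ≤ 2 * κ * ∑ l ∈ Gj ((i : ℕ) + 1), 1 / (l : ℝ) := by
          apply mul_le_mul_of_nonneg_left _ (by positivity)
          apply sum_le_sum_of_subset_of_nonneg (hPG i)
          intro l _ _
          positivity
      _ ≤ 2 * κ * L := mul_le_mul_of_nonneg_left (hLs i) (by positivity)
      _ = x0 := by rw [hx0]; ring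
  refine ⟨hgsum, ?_⟩
  have h1 : Real.exp (-(2 * ∑ l ∈ blk P J i, g l)) ≤ ∏ l ∈ blk P J i, (1 - g l) := by
    have h2 : -(2 * ∑ l ∈ blk P J i, g l) = ∑ l ∈ blk P J i, -(2 * g l) := by
      rw [mul_sum, ← sum_neg_distrib]
    rw [h2, Real.exp_sum]
    refine prod_le_prod (fun l _ => (Real.exp_pos _).le) fun l hl => ?_
    exact bh_inv_ge (hg l (hPiP i hl)).1 (hgk l (hPiP i hl))
  refine le_trans ?_ h1
  exact Real.exp_le_exp.2 (by linarith [hgsum])

/-- a product of the `V i` with factors close to `1` -/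
lemma prod_close (b J : ℕ) (hb : 2 ≤ b) (V T : Fin J → ℝ) (hV : ∀ i, 0 < V i) (hT : ∀ i, 0 ≤ T i)
    (h : ∀ i, T i ≤ V i * (1 + (1 / 2) ^ (bb b J i))) : ∏ i, T i ≤ 5 / 4 * ∏ i, V i := by
  have hs : ∑ i : Fin J, (1 / 2 : ℝ) ^ (bb b J i) ≤ 1 / 12 := by
    have h1 := Pool.Agent.H20R2.FL.tail_b b J
    have h2 : ∑ i : Fin J, (1 / 2 : ℝ) ^ (bb b J i) =
        2 * ∑ i : Fin J, (1 / 2 : ℝ) ^ (2 * b + 2 * (J - 1 - (i : ℕ)) + 1) := by
      rw [mul_sum]
      apply sum_congr rfl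
      intro i _
      rw [bb, pow_succ _ (2 * b + 2 * (J - 1 - (i : ℕ)))]
      ring
    have h3 : (1 / 4 : ℝ) ^ b ≤ (1 / 4) ^ 2 := pow_le_pow_of_le_one (by norm_num) (by norm_num) hb
    rw [h2]
    norm_num at h3
    linarith
  have h1 : ∏ i, T i ≤ ∏ i, V i * Real.exp ((1 / 2) ^ (bb b J i)) := by
    refine prod_le_prod (fun i _ => hT i) fun i _ => ?_
    refine (h i).trans ?_
    apply mul_le_mul_of_nonneg_left _ (hV i).le
    have := Real.add_one_le_exp ((1 / 2 : ℝ) ^ (bb b J i))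
    linarith
  rw [prod_mul_distrib, ← Real.exp_sum] at h1
  have h2 : Real.exp (∑ i : Fin J, (1 / 2 : ℝ) ^ (bb b J i)) ≤ 5 / 4 := by
    have h3 : Real.exp (∑ i : Fin J, (1 / 2 : ℝ) ^ (bb b J i)) ≤ Real.exp (1 / 12) :=
      Real.exp_le_exp.2 hs
    have h4 : Real.exp (1 / 12) ≤ 1 + 1 / 12 + (1 / 12) ^ 2 := by
      have h5 := Real.abs_exp_sub_one_sub_id_le (x := 1 / 12) (by norm_num)
      have h6 := (abs_le.1 h5).2
      linarith
    refine h3.trans (h4.trans (by norm_num))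
  have hV00 : 0 ≤ ∏ i, V i := prod_nonneg fun i _ => (hV i).le
  calc ∏ i, T i ≤ (∏ i, V i) * Real.exp (∑ i : Fin J, (1 / 2 : ℝ) ^ (bb b J i)) := h1
    _ ≤ (∏ i, V i) * (5 / 4) := mul_le_mul_of_nonneg_left h2 hV00
    _ = _ := by ring

lemma VV_cF (P : Finset ℕ) (g : ℕ → ℝ) (b J : ℕ) :
    VV P g b J (cF b J) = ∏ i, bhA g (bb b J i) (blk P J i) := by
  unfold VV
  apply prod_congr rfl
  intro i _
  exact sum_cF (blk P J i) (bb b J i) (fun U => ∏ l ∈ U, g l)

lemma VV_cG (P : Finset ℕ) (g : ℕ → ℝ) (b J : ℕ) :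
    VV P g b J (cG b J) =
      ∏ i, (bhA g (bb b J i) (blk P J i) + bhE g (bb b J i + 1) (blk P J i)) := by
  unfold VV
  apply prod_congr rfl
  intro i _
  exact sum_cG (blk P J i) (bb b J i) (fun U => ∏ l ∈ U, g l)

lemma bb_even (b J : ℕ) (i : Fin J) : Even (bb b J i) := by
  unfold bb
  exact (even_two_mul _).add (even_two_mul _)

end PD

open PD

/-- D1 -/
theorem VV_bounds (κ : ℕ) : ∃ C0 : ℕ, 1 ≤ C0 ∧ ∀ (b J : ℕ) (P : Finset ℕ) (g : ℕ → ℝ), C0 ≤ b →
    (∀ p ∈ P, p.Prime ∧ C0 < p ∧ p < 2 ^ 2 ^ J) →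
    (∀ p ∈ P, 0 ≤ g p ∧ g p ≤ κ / ((p : ℝ) - 1)) →
    0 < ∏ p ∈ P, (1 - g p) ∧
    ∏ p ∈ P, (1 - g p) ≤ VV P g b J (cF b J) ∧ VV P g b J (cF b J) ≤ 5 / 4 * ∏ p ∈ P, (1 - g p) ∧
    ∏ p ∈ P, (1 - g p) ≤ VV P g b J (cG b J) ∧ VV P g b J (cG b J) ≤ 5 / 4 * ∏ p ∈ P, (1 - g p) := by
  obtain ⟨C0, hC0, x0, hx0, hxC, H⟩ := block_setup κ
  refine ⟨C0, by omega, ?_⟩
  intro b J P g hb hP hg
  obtain ⟨hg1, hVeq, hblk⟩ := H J P g hP hg
  have hPiP : ∀ i : Fin J, blk P J i ⊆ P := fun i => filter_subset _ _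
  rw [VV_cF, VV_cG, hVeq]
  set v : ℝ := Real.exp (-(2 * x0)) with hv
  have hv0 : 0 < v := Real.exp_pos _
  have hV0 : ∀ i : Fin J, 0 < ∏ l ∈ blk P J i, (1 - g l) := fun i => hv0.trans_le (hblk i).2
  have hgb : ∀ i : Fin J, ∀ l ∈ blk P J i, 0 ≤ g l ∧ g l ≤ 1 := fun i l hl =>
    ⟨(hg1 l (hPiP i hl)).1, by linarith [(hg1 l (hPiP i hl)).2]⟩
  have hbonf : ∀ i : Fin J, ∏ l ∈ blk P J i, (1 - g l) ≤ bhA g (bb b J i) (blk P J i) ∧
      bhA g (bb b J i) (blk P J i) ≤ ∏ l ∈ blk P J i, (1 - g l) +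
        bhE g (bb b J i + 1) (blk P J i) := by
    intro i
    have h := bh_bonf g (blk P J i) (hgb i) (bb b J i)
    rw [(bb_even b J i).neg_one_pow, one_mul] at h
    exact ⟨by linarith [h.1], by linarith [h.2]⟩
  have hE0 : ∀ i : Fin J, 0 ≤ bhE g (bb b J i + 1) (blk P J i) := fun i =>
    bhE_nonneg _ _ _ fun l hl => (hgb i l hl).1
  have hE : ∀ i : Fin J, bhE g (bb b J i + 1) (blk P J i) ≤ v * (1 / 2) ^ (bb b J i + 1) := by
    intro i
    have h1 := bhE_le g (blk P J i) (fun l hl => (hgb i l hl).1) (bb b J i + 1)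
    have h0 : 0 ≤ ∑ l ∈ blk P J i, g l := sum_nonneg fun l hl => (hgb i l hl).1
    have h2 : (∑ l ∈ blk P J i, g l) ^ (bb b J i + 1) / (bb b J i + 1).factorial ≤
        x0 ^ (bb b J i + 1) / (bb b J i + 1).factorial := by
      have := (hblk i).1
      gcongr
    have h3 := tail_one x0 hx0 (bb b J i + 1) (by omega) (by
      have h4 : 2 * C0 ≤ bb b J i + 1 := by unfold bb; omega
      have h5 : ((2 * C0 : ℕ) : ℝ) ≤ ((bb b J i + 1 : ℕ) : ℝ) := by exact_mod_cast h4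
      push_cast at h5 ⊢
      linarith)
    have h6 : v * Real.exp (2 * x0) = 1 := by rw [hv, ← Real.exp_add]; simp
    have h7 := mul_le_mul_of_nonneg_left h3 hv0.le
    have h8 : v * (x0 ^ (bb b J i + 1) / (bb b J i + 1).factorial * Real.exp (2 * x0)) =
        x0 ^ (bb b J i + 1) / (bb b J i + 1).factorial := by
      rw [mul_left_comm, h6, mul_one]
    rw [h8] at h7
    exact h1.trans (h2.trans h7)
  have hE2 : ∀ i : Fin J, 2 * bhE g (bb b J i + 1) (blk P J i) ≤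
      (∏ l ∈ blk P J i, (1 - g l)) * (1 / 2) ^ (bb b J i) := by
    intro i
    have h1 := hE i
    rw [pow_succ] at h1
    have h2 : v * (1 / 2) ^ (bb b J i) ≤ (∏ l ∈ blk P J i, (1 - g l)) * (1 / 2) ^ (bb b J i) :=
      mul_le_mul_of_nonneg_right (hblk i).2 (by positivity)
    linarith
  have hA0 : ∀ i : Fin J, 0 ≤ bhA g (bb b J i) (blk P J i) := fun i => (hV0 i).le.trans (hbonf i).1
  refine ⟨prod_pos fun i _ => hV0 i, prod_le_prod (fun i _ => (hV0 i).le) fun i _ => (hbonf i).1,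
    ?_, prod_le_prod (fun i _ => (hV0 i).le) fun i _ => by linarith [(hbonf i).1, hE0 i], ?_⟩
  · apply prod_close b J (by omega) _ _ hV0 hA0
    intro i
    rw [mul_add, mul_one]
    linarith [(hbonf i).2, hE2 i, hE0 i]
  · apply prod_close b J (by omega) _ _ hV0 (fun i => add_nonneg (hA0 i) (hE0 i))
    intro i
    rw [mul_add, mul_one]
    linarith [(hbonf i).2, hE2 i, hE0 i]

/-- D2 -/
theorem EE_bounds (κ : ℕ) : ∃ C0 : ℕ, 1 ≤ C0 ∧ ∀ (b J : ℕ) (P : Finset ℕ) (g : ℕ → ℝ), C0 ≤ b →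
    (∀ p ∈ P, p.Prime ∧ C0 < p ∧ p < 2 ^ 2 ^ J) →
    (∀ p ∈ P, 0 ≤ g p ∧ g p ≤ κ / ((p : ℝ) - 1)) →
    EE P g b J (cF b J) ≤ 2 * ∏ p ∈ P, (1 - g p) ∧ EE P g b J (cG b J) ≤ 2 * ∏ p ∈ P, (1 - g p) := by
  classical
  obtain ⟨C0, hC0, x0, hx0, hxC, H⟩ := block_setup κ
  refine ⟨C0, by omega, ?_⟩
  intro b J P g hb hP hg
  obtain ⟨hg1, hVeq, hblk⟩ := H J P g hP hg
  have hPiP : ∀ i : Fin J, blk P J i ⊆ P := fun i => filter_subset _ _
  rw [hVeq]
  have hV0 : ∀ i : Fin J, 0 < ∏ l ∈ blk P J i, (1 - g l) := fun i =>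
    (Real.exp_pos _).trans_le (hblk i).2
  have hgb : ∀ i : Fin J, ∀ l ∈ blk P J i, 0 ≤ g l ∧ g l ≤ 1 := fun i l hl =>
    ⟨(hg1 l (hPiP i hl)).1, by linarith [(hg1 l (hPiP i hl)).2]⟩
  have main : ∀ c : Fin J → Finset ℕ → ℝ,
      (∀ i, ∀ U : Finset ℕ, U.card ≤ bb b J i → c i U = (-1) ^ U.card) →
      (∀ i, ∀ U : Finset ℕ, |c i U| ≤ 1) →
      EE P g b J c ≤ 2 * ∏ i : Fin J, ∏ l ∈ blk P J i, (1 - g l) := by
    intro c hc hc1
    unfold EE
    have h1 : ∏ i : Fin J, ∑ U ∈ Fam P b J i, ∑ U' ∈ Fam P b J i,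
        c i U * c i U' * ∏ l ∈ U ∪ U', g l ≤ 5 / 4 * ∏ i : Fin J, ∏ l ∈ blk P J i, (1 - g l) := by
      apply prod_close b J (by omega) _ _ hV0
      · intro i
        rw [ee_eq (blk P J i) g (Fam P b J i) (fun U hU => mem_powerset.1 (mem_filter.1 hU).1) (c i)]
        apply sum_nonneg
        intro s hs
        apply mul_nonneg _ (sq_nonneg _)
        apply mul_nonneg
        · exact prod_nonneg fun l hl => (hgb i l (mem_powerset.1 hs hl)).1
        · exact prod_nonneg fun l hl => by linarith [(hgb i l (mem_sdiff.1 hl).1).2]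
      · intro i
        refine (ee_block (blk P J i) g (hgb i) (bb b J i) (c i) (hc i) (hc1 i)).trans ?_
        have h2 := tail_four (blk P J i) g (fun l hl => (hgb i l hl).1) x0 hx0 (hblk i).1 (bb b J i)
          (by
            have h4 : 2 * C0 ≤ bb b J i := by unfold bb; omega
            have h5 : ((2 * C0 : ℕ) : ℝ) ≤ ((bb b J i : ℕ) : ℝ) := by exact_mod_cast h4
            push_cast at h5
            linarith)
        have h3 : Real.exp (-(2 * x0)) * (1 / 2) ^ (bb b J i) ≤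
            (∏ l ∈ blk P J i, (1 - g l)) * (1 / 2) ^ (bb b J i) :=
          mul_le_mul_of_nonneg_right (hblk i).2 (by positivity)
        rw [mul_add, mul_one]
        linarith
    have h2 : 0 ≤ ∏ i : Fin J, ∏ l ∈ blk P J i, (1 - g l) := prod_nonneg fun i _ => (hV0 i).le
    linarith
  refine ⟨main _ ?_ ?_, main _ ?_ ?_⟩
  · intro i U hU
    unfold cF
    rw [if_pos hU]
  · intro i U
    unfold cF
    split_ifs <;> simp
  · intro i U hU
    unfold cG
    rw [if_pos hU]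
  · intro i U
    unfold cG
    split_ifs <;> simp

lemma PD.two_prod {ι : Type*} (s : Finset ι) (u w : ι → ℝ) (h0 : ∀ i, 0 ≤ w i)
    (h1 : ∀ i, w i ≤ u i) :
    2 * ∏ i ∈ s, u i ≤ ∏ i ∈ s, (u i + w i) + ∏ i ∈ s, (u i - w i) := by
  classical
  induction s using Finset.induction_on with
  | empty => norm_num
  | insert a s ha ih =>
    rw [prod_insert ha, prod_insert ha, prod_insert ha]
    have h2 : ∏ i ∈ s, (u i - w i) ≤ ∏ i ∈ s, (u i + w i) :=
      prod_le_prod (fun i _ => by linarith [h1 i]) fun i _ => by linarith [h0 i]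
    have h3 : 0 ≤ u a := (h0 a).trans (h1 a)
    have h4 := mul_le_mul_of_nonneg_left ih h3
    have h5 := mul_nonneg (h0 a) (sub_nonneg.2 h2)
    nlinarith

open Classical in
/-- D3 -/
theorem phi_pointwise (b J : ℕ) (P : Finset ℕ) (hP : ∀ p ∈ P, p.Prime ∧ p < 2 ^ 2 ^ J)
    (hit : ℕ → Prop) :
    0 ≤ phi P b J (cF b J) hit ∧ 0 ≤ phi P b J (cG b J) hit ∧
    (if ∀ p ∈ P, ¬ hit p then (1 : ℝ) else 0) ≤ phi P b J (cF b J) hit ∧
    2 * phi P b J (cF b J) hit - phi P b J (cG b J) hit ≤ if ∀ p ∈ P, ¬ hit p then (1 : ℝ) else 0 := by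
  set N : ℕ := ∏ p ∈ P.filter (fun p => hit p), p with hN
  have hdvd : ∀ p ∈ P, (p ∣ N ↔ hit p) := by
    intro p hp
    constructor
    · intro h
      rw [hN, Prime.dvd_finsetProd_iff (hP p hp).1.prime] at h
      obtain ⟨q, hq, hpq⟩ := h
      rw [mem_filter] at hq
      have := (Nat.prime_dvd_prime_iff_eq (hP p hp).1 (hP q hq.1).1).1 hpq
      rw [this]; exact hq.2
    · intro h
      exact dvd_prod_of_mem (fun p => p) (mem_filter.2 ⟨hp, h⟩)
  have hPiP : ∀ i : Fin J, blk P J i ⊆ P := fun i => filter_subset _ _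
  set x : Fin J → ℝ := fun i => if ∀ l ∈ blk P J i, ¬ l ∣ N then (1 : ℝ) else 0 with hx
  set u : Fin J → ℝ := fun i => ∑ U ∈ (blk P J i).powerset.filter (fun U => U.card ≤ bb b J i),
        if ∀ l ∈ U, l ∣ N then ((-1 : ℝ)) ^ U.card else 0 with hu
  set t : Fin J → ℝ := fun i => ∑ U ∈ powersetCard (bb b J i + 1) (blk P J i),
        if ∀ l ∈ U, l ∣ N then (1 : ℝ) else 0 with ht
  have hloc : ∀ i, 0 ≤ x i ∧ x i ≤ u i ∧ u i - x i ≤ t i := fun i =>
    bh_local (blk P J i) (bb b J i) (bb_even b J i) N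
  have ht0 : ∀ i, 0 ≤ t i := fun i => by linarith [(hloc i).2.1, (hloc i).2.2]
  have hu0 : ∀ i, 0 ≤ u i := fun i => (hloc i).1.trans (hloc i).2.1
  have hall : ∀ i : Fin J, ∀ U ∈ Fam P b J i, ((∀ l ∈ U, hit l) ↔ ∀ l ∈ U, l ∣ N) := by
    intro i U hU
    have hUQ := mem_powerset.1 (mem_filter.1 hU).1
    constructor
    · intro h l hl
      exact (hdvd l (hPiP i (hUQ hl))).2 (h l hl)
    · intro h l hl
      exact (hdvd l (hPiP i (hUQ hl))).1 (h l hl)
  have hF : phi P b J (cF b J) hit = ∏ i, u i := by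
    unfold phi
    apply prod_congr rfl
    intro i _
    have h1 := sum_cF (blk P J i) (bb b J i) (fun U => if ∀ l ∈ U, l ∣ N then (1 : ℝ) else 0)
    simp only [mul_ite, mul_one, mul_zero] at h1
    refine Eq.trans ?_ h1
    apply sum_congr rfl
    intro U hU
    unfold cF
    by_cases h2 : ∀ l ∈ U, l ∣ N
    · rw [if_pos ((hall i U hU).2 h2), if_pos h2]
    · rw [if_neg (fun h => h2 ((hall i U hU).1 h)), if_neg h2]
  have hG : phi P b J (cG b J) hit = ∏ i, (u i + t i) := by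
    unfold phi
    apply prod_congr rfl
    intro i _
    have h1 := sum_cG (blk P J i) (bb b J i) (fun U => if ∀ l ∈ U, l ∣ N then (1 : ℝ) else 0)
    simp only [mul_ite, mul_one, mul_zero] at h1
    refine Eq.trans ?_ h1
    apply sum_congr rfl
    intro U hU
    unfold cG
    by_cases h2 : ∀ l ∈ U, l ∣ N
    · rw [if_pos ((hall i U hU).2 h2), if_pos h2]
    · rw [if_neg (fun h => h2 ((hall i U hU).1 h)), if_neg h2]
  have hX : (if ∀ p ∈ P, ¬ hit p then (1 : ℝ) else 0) = ∏ i, x i := by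
    rw [hx]
    simp only
    rw [Fintype.prod_ite_zero]
    simp only [prod_const_one]
    congr 1
    apply propext
    constructor
    · intro h i l hl hd
      exact h l (hPiP i hl) ((hdvd l (hPiP i hl)).1 hd)
    · intro h p hp hh
      obtain ⟨i, hi⟩ := bh_cover (hP p hp).1 (hP p hp).2
      exact h i p (mem_filter.2 ⟨hp, hi⟩) ((hdvd p hp).2 hh)
  rw [hF, hG, hX]
  refine ⟨prod_nonneg fun i _ => hu0 i, prod_nonneg fun i _ => add_nonneg (hu0 i) (ht0 i),
    prod_le_prod (fun i _ => (hloc i).1) fun i _ => (hloc i).2.1, ?_⟩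
  have h1 := PD.two_prod univ u (fun i => u i - x i) (fun i => by linarith [(hloc i).2.1])
    (fun i => by linarith [(hloc i).1])
  have h2 : ∏ i, (u i + (u i - x i)) ≤ ∏ i, (u i + t i) :=
    prod_le_prod (fun i _ => by linarith [(hloc i).2.1, hu0 i]) fun i _ => by
      linarith [(hloc i).2.2]
  have h3 : ∏ i, (u i - (u i - x i)) = ∏ i, x i := by
    apply prod_congr rfl
    intro i _
    ring
  rw [h3] at h1
  linarith

end Pool.Agent.J4.H65.AT
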