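import Mathlib
import Pool.Agent.J4.H65.AT.Defs
import Pool.Agent.Erdos456.Mertens

/-! Piece E of project AT (helper65), by helper46: Mertens bounds. -/

set_option autoImplicit false

open Finset

namespace Pool.Agent.J4.H65.AT

open Pool.Agent.Helper112.LP Pool.Agent.H373R2.T7

/-- the sum of the reciprocals of the primes, all `z ≥ 2` -/
theorem pe_mertens : ∃ C : ℝ, 0 ≤ C ∧ ∀ z : ℕ, 2 ≤ z →
    |∑ p ∈ pz z, (1 : ℝ) / p - Real.log (Real.log z)| ≤ C := by
  obtain ⟨C, hC⟩ := Pool.Agent.Erdos456.Mert.mertens_inv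
  refine ⟨max |C| |∑ p ∈ pz 2, (1 : ℝ) / p - Real.log (Real.log (2 : ℕ))|, le_max_of_le_left (abs_nonneg _),
    fun z hz => ?_⟩
  rcases Nat.lt_or_ge z 3 with h | h
  · have : z = 2 := by omega
    subst this
    exact le_max_right _ _
  · exact ((hC z h).trans (le_abs_self C)).trans (le_max_left _ _)

theorem pe_log_pos {z : ℕ} (hz : 2 ≤ z) : 0 < Real.log z := Real.log_pos (by exact_mod_cast (by omega : 1 < z))

/-- E2 -/
theorem prod_upper (A : ℕ) : ∃ C : ℝ, 0 < C ∧ ∀ z : ℕ, 2 ≤ z →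
    ∏ p ∈ pz z, (1 + (A : ℝ) / (p : ℝ)) ≤ C * Real.log z ^ A := by
  obtain ⟨C, hC0, hC⟩ := pe_mertens
  refine ⟨Real.exp (A * C), Real.exp_pos _, fun z hz => ?_⟩
  have hl := pe_log_pos hz
  have h1 : ∏ p ∈ pz z, (1 + (A : ℝ) / (p : ℝ)) ≤ ∏ p ∈ pz z, Real.exp ((A : ℝ) * (1 / p)) := by
    refine prod_le_prod (fun p _ => by positivity) (fun p _ => ?_)
    have := Real.add_one_le_exp ((A : ℝ) * (1 / p))
    rw [mul_one_div] at this ⊢
    linarith
  refine h1.trans ?_
  rw [← Real.exp_sum, ← mul_sum]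
  have h2 : (A : ℝ) * ∑ p ∈ pz z, (1 : ℝ) / p ≤ A * C + A * Real.log (Real.log z) := by
    have := (abs_le.1 (hC z hz)).2
    have hA : (0 : ℝ) ≤ A := Nat.cast_nonneg A
    nlinarith
  refine (Real.exp_le_exp.2 h2).trans (le_of_eq ?_)
  rw [Real.exp_add, Real.exp_nat_mul (Real.log (Real.log z)) A, Real.exp_log hl]

/-- E3: for primes which are larger than all the elements of `B` there are `B.card` classes -/
theorem nuB_Hit (B : Finset ℕ) (p : ℕ) (hp : p.Prime) (hB : ∀ b ∈ B, b < p) :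
    nuB (Hit B) p = B.card := by
  classical
  unfold nuB
  have h1 : (range p).filter (fun r => Hit B p r) = B.image (fun b => (p - b) % p) := by
    ext r
    rw [mem_filter, mem_range, mem_image]
    constructor
    · rintro ⟨hr1, b, hb, hd⟩
      refine ⟨b, hb, ?_⟩
      have hbp := hB b hb
      rcases Nat.eq_zero_or_pos b with h0 | h0
      · subst h0
        rw [add_zero] at hd
        have := Nat.eq_zero_of_dvd_of_lt hd hr1
        rw [this, Nat.sub_zero, Nat.mod_self]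
      · obtain ⟨c, hc⟩ := hd
        have hc1 : c = 1 := by
          rcases Nat.lt_or_ge c 1 with h | h
          · have : c = 0 := by omega
            subst this; omega
          · rcases Nat.lt_or_ge c 2 with h' | h'
            · omega
            · have : p * 2 ≤ p * c := Nat.mul_le_mul_left _ h'
              omega
        rw [hc1, mul_one] at hc
        have h4 : p - b = r := by omega
        rw [h4, Nat.mod_eq_of_lt hr1]
    · rintro ⟨b, hb, rfl⟩
      have hbp := hB b hb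
      refine ⟨Nat.mod_lt _ hp.pos, b, hb, ?_⟩
      rw [Nat.dvd_iff_mod_eq_zero, Nat.mod_add_mod, Nat.sub_add_cancel hbp.le, Nat.mod_self]
  have h2 : Set.InjOn (fun b => (p - b) % p) (B : Set ℕ) := by
    intro a ha b hb hab
    have ha' := hB a ha
    have hb' := hB b hb
    dsimp only at hab
    rcases Nat.eq_zero_or_pos a with h0 | h0 <;> rcases Nat.eq_zero_or_pos b with h1 | h1
    · rw [h0, h1]
    · rw [h0, Nat.sub_zero, Nat.mod_self, Nat.mod_eq_of_lt (by omega)] at hab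
      omega
    · rw [h1, Nat.sub_zero, Nat.mod_self, Nat.mod_eq_of_lt (by omega)] at hab
      omega
    · rw [Nat.mod_eq_of_lt (by omega), Nat.mod_eq_of_lt (by omega)] at hab
      omega
  rw [h1, card_image_of_injOn h2]

/-- lower bound for the exponential -/
theorem pe_exp {x : ℝ} (h0 : 0 ≤ x) (h1 : x ≤ 1 / 2) : Real.exp (-x - 2 * x ^ 2) ≤ 1 - x := by
  have h2 : 0 < 1 - x := by linarith
  have h3 : Real.exp (x + 2 * x ^ 2) * (1 - x) ≥ 1 := by
    have h4 : 1 + (x + 2 * x ^ 2) ≤ Real.exp (x + 2 * x ^ 2) := by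
      have := Real.add_one_le_exp (x + 2 * x ^ 2); linarith
    have h5 : 1 ≤ (1 + (x + 2 * x ^ 2)) * (1 - x) := by
      have : (1 + (x + 2 * x ^ 2)) * (1 - x) = 1 + x ^ 2 * (1 - 2 * x) := by ring
      rw [this]
      have := mul_nonneg (sq_nonneg x) (by linarith : (0 : ℝ) ≤ 1 - 2 * x)
      linarith
    nlinarith
  have h6 : Real.exp (-x - 2 * x ^ 2) = (Real.exp (x + 2 * x ^ 2))⁻¹ := by
    rw [← Real.exp_neg]; congr 1; ring
  rw [h6, inv_le_iff_one_le_mul₀ (Real.exp_pos _)]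
  linarith

/-- sums of reciprocal squares over the primes -/
theorem pe_sq : ∃ K : ℝ, 0 ≤ K ∧ ∀ S : Finset ℕ, ∑ p ∈ S, 1 / (p : ℝ) ^ 2 ≤ K := by
  have hs : Summable (fun n : ℕ => 1 / (n : ℝ) ^ 2) := Real.summable_one_div_nat_pow.2 (by norm_num)
  exact ⟨∑' n : ℕ, 1 / (n : ℝ) ^ 2, tsum_nonneg fun n => by positivity,
    fun S => hs.sum_le_tsum S (fun n _ => by positivity)⟩

/-- E1 -/
theorem WW_bounds (B : Finset ℕ) (hadm : ∀ p : ℕ, p.Prime → nuB (Hit B) p < p) :
    ∃ c C : ℝ, 0 < c ∧ 0 < C ∧ ∀ z : ℕ, 2 ≤ z →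
      c / Real.log z ^ B.card ≤ WW B z ∧ WW B z ≤ C / Real.log z ^ B.card := by
  classical
  obtain ⟨C0, hC0, hM⟩ := pe_mertens
  obtain ⟨K, hK0, hK⟩ := pe_sq
  set k := B.card with hk
  -- large primes
  obtain ⟨M, hM1, hM2⟩ : ∃ M : ℕ, (∀ b ∈ B, b < M) ∧ 2 * k ≤ M := by
    refine ⟨B.sup id + 1 + 2 * k, fun b hb => ?_, by omega⟩
    have : b ≤ B.sup id := le_sup (f := id) hb
    omega
  have hfac : ∀ p : ℕ, p.Prime → 0 < 1 - (nuB (Hit B) p : ℝ) / p ∧ 1 - (nuB (Hit B) p : ℝ) / p ≤ 1 := by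
    intro p hp
    have hpr : (0 : ℝ) < p := by exact_mod_cast hp.pos
    constructor
    · have : (nuB (Hit B) p : ℝ) / p < 1 := by
        rw [div_lt_one hpr]; exact_mod_cast hadm p hp
      linarith
    · have : (0 : ℝ) ≤ (nuB (Hit B) p : ℝ) / p := by positivity
      linarith
  set c0 : ℝ := ∏ p ∈ (pz M), (1 - (nuB (Hit B) p : ℝ) / p) with hc0
  have hc0pos : 0 < c0 := prod_pos fun p hp => (hfac p (mem_pz.1 hp).2).1
  set S0 : ℝ := ∑ p ∈ pz M, (1 : ℝ) / p with hS0
  have hS00 : 0 ≤ S0 := sum_nonneg fun p _ => by positivity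
  refine ⟨c0 * Real.exp (-(k * C0) - 2 * k ^ 2 * K), Real.exp (k * C0 + k * S0), by positivity, Real.exp_pos _,
    fun z hz => ?_⟩
  have hl := pe_log_pos hz
  -- splitting
  have hsplit : WW B z = (∏ p ∈ (pz z).filter (fun p => p ≤ M), (1 - (nuB (Hit B) p : ℝ) / p)) *
      ∏ p ∈ (pz z).filter (fun p => ¬ p ≤ M), (1 - (nuB (Hit B) p : ℝ) / p) := by
    unfold WW
    rw [prod_filter_mul_prod_filter_not]
  have hsmall1 : ∏ p ∈ (pz z).filter (fun p => p ≤ M), (1 - (nuB (Hit B) p : ℝ) / p) ≤ 1 :=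
    prod_le_one (fun p hp => (hfac p (mem_pz.1 (mem_filter.1 hp).1).2).1.le)
      (fun p hp => (hfac p (mem_pz.1 (mem_filter.1 hp).1).2).2)
  have hsmall2 : c0 ≤ ∏ p ∈ (pz z).filter (fun p => p ≤ M), (1 - (nuB (Hit B) p : ℝ) / p) := by
    have hsub : (pz z).filter (fun p => p ≤ M) ⊆ pz M := by
      intro p hp
      rw [mem_filter, mem_pz] at hp
      exact mem_pz.2 ⟨hp.2, hp.1.2⟩
    rw [hc0, ← prod_sdiff hsub]
    refine mul_le_of_le_one_left (prod_nonneg fun p hp => (hfac p (mem_pz.1 (mem_filter.1 hp).1).2).1.le) ?_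
    exact prod_le_one (fun p hp => (hfac p (mem_pz.1 (mem_sdiff.1 hp).1).2).1.le)
      (fun p hp => (hfac p (mem_pz.1 (mem_sdiff.1 hp).1).2).2)
  have hlarge : ∀ p ∈ (pz z).filter (fun p => ¬ p ≤ M), 1 - (nuB (Hit B) p : ℝ) / p = 1 - k * (1 / (p : ℝ)) := by
    intro p hp
    rw [mem_filter, mem_pz] at hp
    rw [nuB_Hit B p hp.1.2 (fun b hb => by have := hM1 b hb; omega), mul_one_div]
  have hexp : ∀ s : ℝ, Real.exp (-(k * (s + Real.log (Real.log z)))) = Real.exp (-(k * s)) / Real.log z ^ k := by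
    intro s
    rw [mul_add, neg_add, Real.exp_add, Real.exp_neg (k * Real.log (Real.log z)), Real.exp_nat_mul, Real.exp_log hl,
      div_eq_mul_inv]
  constructor
  · -- lower bound
    rw [hsplit]
    have h1 : Real.exp (-(k * C0) - 2 * k ^ 2 * K) / Real.log z ^ k ≤
        ∏ p ∈ (pz z).filter (fun p => ¬ p ≤ M), (1 - (nuB (Hit B) p : ℝ) / p) := by
      rw [prod_congr rfl hlarge]
      have h2 : ∏ p ∈ (pz z).filter (fun p => ¬ p ≤ M),
          Real.exp (-(k * (1 / (p : ℝ))) - 2 * (k * (1 / (p : ℝ))) ^ 2) ≤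
          ∏ p ∈ (pz z).filter (fun p => ¬ p ≤ M), (1 - k * (1 / (p : ℝ))) := by
        refine prod_le_prod (fun p _ => (Real.exp_pos _).le) (fun p hp => ?_)
        rw [mem_filter, mem_pz] at hp
        refine pe_exp (by positivity) ?_
        have hpr : (0 : ℝ) < p := by exact_mod_cast hp.1.2.pos
        rw [mul_one_div, div_le_div_iff₀ hpr (by norm_num)]
        have : 2 * k ≤ p := by omega
        have : (2 : ℝ) * k ≤ p := by exact_mod_cast this
        linarith
      refine le_trans ?_ h2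
      rw [← Real.exp_sum, sum_sub_distrib, sum_neg_distrib, ← mul_sum]
      have h3 : ∑ p ∈ (pz z).filter (fun p => ¬ p ≤ M), 2 * ((k : ℝ) * (1 / (p : ℝ))) ^ 2 ≤ 2 * k ^ 2 * K := by
        have : ∀ p ∈ (pz z).filter (fun p => ¬ p ≤ M), 2 * ((k : ℝ) * (1 / (p : ℝ))) ^ 2 =
            2 * k ^ 2 * (1 / (p : ℝ) ^ 2) := fun p _ => by ring
        rw [sum_congr rfl this, ← mul_sum]
        exact mul_le_mul_of_nonneg_left (hK _) (by positivity)
      have h4 : ∑ p ∈ (pz z).filter (fun p => ¬ p ≤ M), (1 : ℝ) / p ≤ C0 + Real.log (Real.log z) := by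
        refine (sum_le_sum_of_subset_of_nonneg (filter_subset _ _) (fun p _ _ => by positivity)).trans ?_
        have := (abs_le.1 (hM z hz)).2
        linarith
      have h5 : Real.exp (-(k * C0) - 2 * k ^ 2 * K) / Real.log z ^ k =
          Real.exp (-(k * (C0 + Real.log (Real.log z))) - 2 * k ^ 2 * K) := by
        rw [sub_eq_add_neg, Real.exp_add, sub_eq_add_neg, Real.exp_add, hexp]
        ring
      rw [h5]
      refine Real.exp_le_exp.2 ?_
      have h6 : (k : ℝ) * ∑ p ∈ (pz z).filter (fun p => ¬ p ≤ M), (1 : ℝ) / p ≤ k * (C0 + Real.log (Real.log z)) :=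
        mul_le_mul_of_nonneg_left h4 (by positivity)
      linarith
    calc c0 * Real.exp (-(k * C0) - 2 * k ^ 2 * K) / Real.log z ^ k
        = c0 * (Real.exp (-(k * C0) - 2 * k ^ 2 * K) / Real.log z ^ k) := by ring
      _ ≤ _ := mul_le_mul hsmall2 h1 (by positivity) (hc0pos.le.trans hsmall2)
  · -- upper bound
    rw [hsplit]
    have h1 : ∏ p ∈ (pz z).filter (fun p => ¬ p ≤ M), (1 - (nuB (Hit B) p : ℝ) / p) ≤
        Real.exp (k * C0 + k * S0) / Real.log z ^ k := by
      rw [prod_congr rfl hlarge]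
      have h2 : ∏ p ∈ (pz z).filter (fun p => ¬ p ≤ M), (1 - k * (1 / (p : ℝ))) ≤
          ∏ p ∈ (pz z).filter (fun p => ¬ p ≤ M), Real.exp (-(k * (1 / (p : ℝ)))) := by
        refine prod_le_prod (fun p hp => ?_) (fun p _ => ?_)
        · rw [← hlarge p hp]
          exact (hfac p (mem_pz.1 (mem_filter.1 hp).1).2).1.le
        · have := Real.add_one_le_exp (-(k * (1 / (p : ℝ))))
          linarith
      refine h2.trans ?_
      rw [← Real.exp_sum, sum_neg_distrib, ← mul_sum]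
      have h3 : Real.log (Real.log z) - C0 - S0 ≤ ∑ p ∈ (pz z).filter (fun p => ¬ p ≤ M), (1 : ℝ) / p := by
        have e1 := sum_filter_add_sum_filter_not (pz z) (fun p => p ≤ M) (fun p => (1 : ℝ) / p)
        have e2 : ∑ p ∈ (pz z).filter (fun p => p ≤ M), (1 : ℝ) / p ≤ S0 := by
          refine sum_le_sum_of_subset_of_nonneg ?_ (fun p _ _ => by positivity)
          intro p hp
          rw [mem_filter, mem_pz] at hp
          exact mem_pz.2 ⟨hp.2, hp.1.2⟩
        have e3 := (abs_le.1 (hM z hz)).1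
        linarith
      have h5 : Real.exp (k * C0 + k * S0) / Real.log z ^ k =
          Real.exp (-(k * ((-C0 - S0) + Real.log (Real.log z)))) := by
        rw [hexp]
        congr 2
        ring
      rw [h5]
      refine Real.exp_le_exp.2 (neg_le_neg ?_)
      exact mul_le_mul_of_nonneg_left (by linarith) (by positivity)
    have h0 : 0 ≤ ∏ p ∈ (pz z).filter (fun p => ¬ p ≤ M), (1 - (nuB (Hit B) p : ℝ) / p) :=
      prod_nonneg fun p hp => (hfac p (mem_pz.1 (mem_filter.1 hp).1).2).1.le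
    exact (mul_le_of_le_one_left h0 hsmall1).trans h1

end Pool.Agent.J4.H65.AT
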