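import Mathlib

/-! The second moment of sums over short intervals, in general. -/

set_option autoImplicit false

open Finset

namespace Pool.Agent.J4.H65.AT

lemma sum_lower (w : ℕ → ℝ) (H j : ℕ) (hj : j ∈ range H) :
    ∑ i ∈ range H, (if i < j then w (j - i) else 0) = ∑ h ∈ Icc 1 j, w h := by
  rw [mem_range] at hj
  rw [← sum_filter]
  apply sum_bij (fun i _ => j - i)
  · intro i hi
    rw [mem_filter, mem_range] at hi
    rw [mem_Icc]
    omega
  · intro i hi i' hi' h
    rw [mem_filter, mem_range] at hi hi'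
    omega
  · intro h hh
    rw [mem_Icc] at hh
    refine ⟨j - h, ?_, by omega⟩
    rw [mem_filter, mem_range]
    omega
  · intro i _
    rfl

lemma card_near (H j M : ℕ) : ((range H).filter (fun i => i ≤ j + M ∧ j ≤ i + M)).card ≤ 2 * M + 1 := by
  calc _ ≤ (Icc (j - M) (j + M)).card := by
        apply card_le_card
        intro i hi
        rw [mem_filter] at hi
        rw [mem_Icc]
        omega
    _ ≤ _ := by rw [Nat.card_Icc]; omega

theorem second_moment (G : ℕ → ℝ) (X H M : ℕ) (m e d M0 : ℝ) (w : ℕ → ℝ)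
    (hw : ∀ h, 0 ≤ w h) (hd : 0 ≤ d) (hM0 : 0 ≤ M0)
    (hm : ∀ Y : ℕ, m - e ≤ ∑ n ∈ Icc 1 X, G (Y + n))
    (hdiag : ∀ Y : ℕ, ∑ n ∈ Icc 1 X, G (Y + n) ^ 2 ≤ d)
    (hcor : ∀ Y h : ℕ, M < h → h < H → ∑ n ∈ Icc 1 X, G (Y + n) * G (Y + n + h) ≤ w h) (Y : ℕ) :
    ∑ n ∈ Icc 1 X, (∑ j ∈ range H, G (Y + j + n) - M0) ^ 2 ≤
      (2 * M + 1) * H * d + 2 * ∑ j ∈ range H, ∑ h ∈ Icc 1 j, w h -
        2 * M0 * (H * (m - e)) + X * M0 ^ 2 := by
  have h1 : ∀ n, (∑ j ∈ range H, G (Y + j + n) - M0) ^ 2 =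
      ∑ j ∈ range H, ∑ i ∈ range H, G (Y + j + n) * G (Y + i + n) -
        2 * M0 * ∑ j ∈ range H, G (Y + j + n) + M0 ^ 2 := by
    intro n
    rw [← sum_mul_sum]
    ring
  rw [sum_congr rfl (fun n _ => h1 n), sum_add_distrib, sum_sub_distrib, ← mul_sum, sum_const,
    Nat.card_Icc, Nat.add_sub_cancel, nsmul_eq_mul]
  have h2 : ∑ n ∈ Icc 1 X, ∑ j ∈ range H, ∑ i ∈ range H, G (Y + j + n) * G (Y + i + n) =
      ∑ j ∈ range H, ∑ i ∈ range H, ∑ n ∈ Icc 1 X, G (Y + j + n) * G (Y + i + n) := by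
    rw [sum_comm]
    apply sum_congr rfl
    intro j _
    rw [sum_comm]
  have h3 : ∑ n ∈ Icc 1 X, ∑ j ∈ range H, G (Y + j + n) = ∑ j ∈ range H, ∑ n ∈ Icc 1 X, G (Y + j + n) :=
    sum_comm
  rw [h2, h3]
  have h4 : H * (m - e) ≤ ∑ j ∈ range H, ∑ n ∈ Icc 1 X, G (Y + j + n) := by
    calc (H : ℝ) * (m - e) = ∑ j ∈ range H, (m - e) := by rw [sum_const, card_range, nsmul_eq_mul]
      _ ≤ _ := sum_le_sum fun j _ => hm (Y + j)
  -- the pairs
  have hnear : ∀ j i, ∑ n ∈ Icc 1 X, G (Y + j + n) * G (Y + i + n) ≤ d := by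
    intro j i
    have a1 : ∑ n ∈ Icc 1 X, G (Y + j + n) * G (Y + i + n) ≤
        ∑ n ∈ Icc 1 X, (1 / 2 * G (Y + j + n) ^ 2 + 1 / 2 * G (Y + i + n) ^ 2) := by
      apply sum_le_sum
      intro n _
      nlinarith [sq_nonneg (G (Y + j + n) - G (Y + i + n))]
    rw [sum_add_distrib, ← mul_sum, ← mul_sum] at a1
    linarith [hdiag (Y + j), hdiag (Y + i)]
  have hpair : ∀ j ∈ range H, ∀ i ∈ range H, ∑ n ∈ Icc 1 X, G (Y + j + n) * G (Y + i + n) ≤
      (if i ≤ j + M ∧ j ≤ i + M then d else 0) +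
        ((if i < j then w (j - i) else 0) + (if j < i then w (i - j) else 0)) := by
    intro j hj i hi
    rw [mem_range] at hj hi
    have w0 : 0 ≤ (if i < j then w (j - i) else 0) := by split_ifs <;> [exact hw _; exact le_rfl]
    have w1 : 0 ≤ (if j < i then w (i - j) else 0) := by split_ifs <;> [exact hw _; exact le_rfl]
    by_cases hc : i ≤ j + M ∧ j ≤ i + M
    · rw [if_pos hc]
      linarith [hnear j i]
    · rw [if_neg hc, zero_add]
      rcases lt_trichotomy i j with h | h | h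
      · rw [if_pos h]
        have a1 := hcor (Y + i) (j - i) (by omega) (by omega)
        have a2 : ∑ n ∈ Icc 1 X, G (Y + j + n) * G (Y + i + n) =
            ∑ n ∈ Icc 1 X, G (Y + i + n) * G (Y + i + n + (j - i)) := by
          apply sum_congr rfl
          intro n _
          rw [show Y + i + n + (j - i) = Y + j + n by omega, mul_comm]
        rw [a2]
        linarith
      · exfalso; apply hc; omega
      · rw [if_pos h]
        have a1 := hcor (Y + j) (i - j) (by omega) (by omega)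
        have a2 : ∑ n ∈ Icc 1 X, G (Y + j + n) * G (Y + i + n) =
            ∑ n ∈ Icc 1 X, G (Y + j + n) * G (Y + j + n + (i - j)) := by
          apply sum_congr rfl
          intro n _
          rw [show Y + j + n + (i - j) = Y + i + n by omega]
        rw [a2]
        linarith
  have h5 : ∑ j ∈ range H, ∑ i ∈ range H, ∑ n ∈ Icc 1 X, G (Y + j + n) * G (Y + i + n) ≤
      (2 * M + 1) * H * d + 2 * ∑ j ∈ range H, ∑ h ∈ Icc 1 j, w h := by
    calc _ ≤ ∑ j ∈ range H, ∑ i ∈ range H, ((if i ≤ j + M ∧ j ≤ i + M then d else 0) +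
        ((if i < j then w (j - i) else 0) + (if j < i then w (i - j) else 0))) :=
          sum_le_sum fun j hj => sum_le_sum fun i hi => hpair j hj i hi
      _ = ∑ j ∈ range H, ∑ i ∈ range H, (if i ≤ j + M ∧ j ≤ i + M then d else 0) +
          (∑ j ∈ range H, ∑ i ∈ range H, (if i < j then w (j - i) else 0) +
          ∑ j ∈ range H, ∑ i ∈ range H, (if j < i then w (i - j) else 0)) := by
          simp only [sum_add_distrib]
      _ ≤ _ := by
          have b1 : ∑ j ∈ range H, ∑ i ∈ range H, (if i ≤ j + M ∧ j ≤ i + M then d else 0) ≤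
              (2 * M + 1) * H * d := by
            calc _ ≤ ∑ j ∈ range H, ((2 * M + 1 : ℕ) : ℝ) * d := by
                  apply sum_le_sum
                  intro j _
                  rw [← sum_filter, sum_const, nsmul_eq_mul]
                  apply mul_le_mul_of_nonneg_right _ hd
                  exact_mod_cast card_near H j M
              _ = _ := by rw [sum_const, card_range, nsmul_eq_mul]; push_cast; ring
          have b2 : ∑ j ∈ range H, ∑ i ∈ range H, (if i < j then w (j - i) else 0) =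
              ∑ j ∈ range H, ∑ h ∈ Icc 1 j, w h := sum_congr rfl fun j hj => sum_lower w H j hj
          have b3 : ∑ j ∈ range H, ∑ i ∈ range H, (if j < i then w (i - j) else 0) =
              ∑ j ∈ range H, ∑ h ∈ Icc 1 j, w h := by
            rw [sum_comm]
            exact b2
          rw [b2, b3]
          linarith
  have h6 := mul_le_mul_of_nonneg_left h4 (show 0 ≤ 2 * M0 by linarith)
  linarith

open Classical in
/-- Chebyshev's inequality -/
theorem chebyshev (S : ℕ → ℝ) (X : ℕ) (M0 V η : ℝ) (hη : 0 < η)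
    (h : ∑ n ∈ Icc 1 X, (S n - M0) ^ 2 ≤ V) :
    (((Icc 1 X).filter (fun n => η ≤ |S n - M0|)).card : ℝ) ≤ V / η ^ 2 := by
  rw [le_div_iff₀ (by positivity)]
  calc (((Icc 1 X).filter (fun n => η ≤ |S n - M0|)).card : ℝ) * η ^ 2 =
        ∑ n ∈ (Icc 1 X).filter (fun n => η ≤ |S n - M0|), η ^ 2 := by rw [sum_const, nsmul_eq_mul]
    _ ≤ ∑ n ∈ (Icc 1 X).filter (fun n => η ≤ |S n - M0|), (S n - M0) ^ 2 := by
        apply sum_le_sum
        intro n hn
        rw [← sq_abs (S n - M0)]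
        exact pow_le_pow_left₀ hη.le (mem_filter.1 hn).2 2
    _ ≤ ∑ n ∈ Icc 1 X, (S n - M0) ^ 2 :=
        sum_le_sum_of_subset_of_nonneg (filter_subset _ _) fun _ _ _ => sq_nonneg _
    _ ≤ V := h

end Pool.Agent.J4.H65.AT
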