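import Mathlib
import Pool.Agent.J4.H65.AT.Corr
import Pool.Agent.J4.H65.AT.Moment

/-! The variance of the weighted counts in short intervals. -/

set_option autoImplicit false

open Finset

namespace Pool.Agent.J4.H65.AT

open Pool.Agent.Helper112.LP Pool.Agent.H373R2.T7

lemma generic {B : Finset ℕ} {M H y : ℕ} (hM : ∀ b ∈ B, b ≤ M) (hHy : H + M ≤ y) {P : Finset ℕ}
    (hP : ∀ p ∈ P, p.Prime ∧ y < p) {h : ℕ} (h1 : M < h) (h2 : h < H) :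
    ∀ p ∈ P, ∀ n, ¬ (Hit B p n ∧ Hit B p (n + h)) := by
  rintro p hp n ⟨⟨b, hb, hd⟩, ⟨b', hb', hd'⟩⟩
  have hpy := (hP p hp).2
  have hb1 := hM b hb
  have hb2 := hM b' hb'
  have h3 : n + h + b' = (n + b) + (h + b' - b) := by omega
  rw [h3] at hd'
  have h4 : p ∣ h + b' - b := (Nat.dvd_add_right hd).1 hd'
  have h5 := Nat.le_of_dvd (by omega) h4
  omega

lemma va1 {x : ℝ} (h0 : 0 ≤ x) (h1 : x ≤ 1) : (1 + x) ^ 2 ≤ 1 + 3 * x := by nlinarith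

lemma va2 {x : ℝ} (h0 : 1 ≤ x) : x ≤ x ^ 2 := by nlinarith

lemma va3 {X W : ℝ} (h0 : 0 ≤ X) (h1 : W ≤ 1) : X * W ≤ X := by nlinarith

lemma va4 {W V V1 : ℝ} (h0 : 0 ≤ W) (h1 : V ≤ 5 / 4 * V1) : W * V ≤ 5 / 4 * (W * V1) := by nlinarith

lemma va5 {W V : ℝ} (h0 : 0 ≤ W) (h1 : W ≤ 1) (h2 : 0 ≤ V) (h3 : V ≤ 5 / 4) : W * V ≤ 5 / 4 := by
  nlinarith

lemma va6 {W : ℝ} (h0 : 0 ≤ W) (h1 : W ≤ 1) : W ^ 2 ≤ 1 := by nlinarith

lemma va7 {H A : ℝ} (h0 : 0 ≤ H) (h1 : A ≤ H) : H * A ≤ H ^ 2 := by nlinarith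

theorem variance (B : Finset ℕ) (hk : ∀ p : ℕ, p.Prime → (∀ b ∈ B, b < p) → nuB (Hit B) p = B.card) :
    ∃ C0 y0 : ℕ, 1 ≤ C0 ∧ ∀ s y : ℕ, C0 ≤ s → y0 ≤ y → (∀ b ∈ B, b < y) → B.card ≤ y →
    ∀ P : Finset ℕ, (∀ p ∈ P, p.Prime ∧ y < p) → ∀ (b J : ℕ) (c : Fin J → Finset ℕ → ℝ),
    (∀ i U, |c i U| ≤ 1) → ∀ (M H X Y : ℕ) (V1 η A : ℝ), (∀ b ∈ B, b ≤ M) → H + M ≤ y →
    0 ≤ η → 0 ≤ A → V1 ≤ 1 →
    0 ≤ VV P (fun l => (B.card : ℝ) / l) b J c →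
    VV P (fun l => (B.card : ℝ) / l) b J c ≤ 5 / 4 * V1 →
    EE P (fun l => (B.card : ℝ) / l) b J c ≤ 2 * V1 →
    (1 / 2 : ℝ) ^ s * ∏ p ∈ P, (1 + 3 * ((B.card : ℝ) / p)) ≤ η / 2 →
    (∑ p ∈ P, ((B.card : ℝ) / p) ^ 2) * ∏ p ∈ P, (1 + 3 * ((B.card : ℝ) / p)) ≤ η / 2 →
    (y : ℝ) ^ (8 * (C0 * s)) * DD b J ^ 4 ≤ η / 2 * X →
    (∀ j : ℕ, ∑ h ∈ Icc 1 j, WW2 B y h ≤ WW B y ^ 2 * (j + A)) →
    (2 * M + 10) * η * (H : ℝ) ^ 2 ≤ 1 → 4 * A * (H * (WW B y * V1)) ^ 2 ≤ H → A ≤ H →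
    ∑ n ∈ Icc 1 X, (∑ j ∈ range H, GG B P y b J c (Y + j + n) -
        H * (WW B y * VV P (fun l => (B.card : ℝ) / l) b J c)) ^ 2 ≤
      X * (2 * (2 * M + 1) * (H * (WW B y * V1)) + 2) := by
  classical
  obtain ⟨C0, y0, hC0, hcorr⟩ := corr B hk
  refine ⟨C0, y0, hC0, fun s y hs hy hBy hky P hP b J c hc M H X Y V1 η A hM hHy hη hA hV11 hV0 hV hE
    hs1 hs2 hE4 hav c1 c2 c3 => ?_⟩
  set k := B.card with hkd
  set g : ℕ → ℝ := fun l => (k : ℝ) / l with hg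
  set V := VV P g b J c with hVd
  set W := WW B y with hWd
  have hW0 : 0 ≤ W := WW_fac_nonneg B y
  have hW1 : W ≤ 1 := by
    rw [hWd]
    unfold WW
    apply prod_le_one
    · intro p hp
      have hp0 : (0 : ℝ) < p := by exact_mod_cast (mem_pz.1 hp).2.pos
      have h1 : (nuB (Hit B) p : ℝ) / p ≤ 1 := by rw [div_le_one hp0]; exact_mod_cast nuB_le _ p
      linarith
    · intro p _
      have : (0 : ℝ) ≤ (nuB (Hit B) p : ℝ) / p := by positivity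
      linarith
  set K1 := ∏ p ∈ P, (1 + (k : ℝ) / p) with hK1
  set K3 := ∏ p ∈ P, (1 + 3 * ((k : ℝ) / p)) with hK3
  set E4 := (y : ℝ) ^ (8 * (C0 * s)) * DD b J ^ 4 with hE4d
  have hE40 : 0 ≤ E4 := by rw [hE4d]; unfold DD; positivity
  have hg1 : ∀ p ∈ P, 0 ≤ (k : ℝ) / p ∧ (k : ℝ) / p ≤ 1 := by
    intro p hp
    have hp0 : (0 : ℝ) < p := by exact_mod_cast (hP p hp).1.pos
    refine ⟨by positivity, ?_⟩
    rw [div_le_one hp0]
    have := (hP p hp).2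
    exact_mod_cast (by omega : k ≤ p)
  have hK13 : K1 ^ 2 ≤ K3 := by
    rw [hK1, hK3, ← prod_pow]
    apply prod_le_prod
    · intro p _; positivity
    · intro p hp
      obtain ⟨a1, a2⟩ := hg1 p hp
      exact va1 a1 a2
  have hK11 : 1 ≤ K1 := by
    rw [hK1]
    calc (1 : ℝ) = ∏ p ∈ P, (1 : ℝ) := by rw [prod_const_one]
      _ ≤ _ := prod_le_prod (fun _ _ => zero_le_one) (fun p hp => by linarith [(hg1 p hp).1])
  have hK1sq : K1 ≤ K1 ^ 2 := va2 hK11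
  have hhalf : (0 : ℝ) ≤ (1 / 2 : ℝ) ^ s := by positivity
  have hV10 : 0 ≤ V1 := by linarith
  have hX0 : (0 : ℝ) ≤ X := Nat.cast_nonneg _
  have hH0 : (0 : ℝ) ≤ H := Nat.cast_nonneg _
  have hM0 : (0 : ℝ) ≤ M := Nat.cast_nonneg _
  have hsK1 : (1 / 2 : ℝ) ^ s * K1 ≤ η / 2 :=
    (mul_le_mul_of_nonneg_left (hK1sq.trans hK13) hhalf).trans hs1
  have hsK12 : (1 / 2 : ℝ) ^ s * K1 ^ 2 ≤ η / 2 := (mul_le_mul_of_nonneg_left hK13 hhalf).trans hs1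
  have hS0 : 0 ≤ ∑ p ∈ P, ((k : ℝ) / p) ^ 2 := sum_nonneg fun _ _ => sq_nonneg _
  have hK2 : (∑ p ∈ P, ((k : ℝ) / p) ^ 2) * K1 ^ 2 ≤ η / 2 :=
    (mul_le_mul_of_nonneg_left hK13 hS0).trans hs2
  -- the inputs of the second moment
  have hXW0 : 0 ≤ (X : ℝ) * W := mul_nonneg hX0 hW0
  have hXW1 : (X : ℝ) * W ≤ X := va3 hX0 hW1
  have hmean : ∀ Y : ℕ, X * W * V - X * η ≤ ∑ n ∈ Icc 1 X, GG B P y b J c (Y + n) := by
    intro Y
    have h := (abs_le.1 (hcorr s y hs hy hBy hky P hP b J c hc Y X).1).1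
    have h1 : (1 / 2 : ℝ) ^ s * (X * W * K1) ≤ X * (η / 2) := by
      calc (1 / 2 : ℝ) ^ s * (X * W * K1) = (X * W) * ((1 / 2 : ℝ) ^ s * K1) := by ring
        _ ≤ X * (η / 2) := mul_le_mul hXW1 hsK1 (by positivity) hX0
    linarith
  have hdiag : ∀ Y : ℕ, ∑ n ∈ Icc 1 X, GG B P y b J c (Y + n) ^ 2 ≤ X * (2 * (W * V1) + η) := by
    intro Y
    have h := (abs_le.1 (hcorr s y hs hy hBy hky P hP b J c hc Y X).2.1).2
    have h1 : (1 / 2 : ℝ) ^ s * (X * W * K3) ≤ X * (η / 2) := by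
      calc (1 / 2 : ℝ) ^ s * (X * W * K3) = (X * W) * ((1 / 2 : ℝ) ^ s * K3) := by ring
        _ ≤ X * (η / 2) := mul_le_mul hXW1 hs1 (by
            rw [hK3]
            exact mul_nonneg hhalf (prod_nonneg fun p hp => by linarith [(hg1 p hp).1])) hX0
    have h2 : X * W * EE P g b J c ≤ X * W * (2 * V1) := mul_le_mul_of_nonneg_left hE hXW0
    linarith
  have hcor : ∀ Y h : ℕ, M < h → h < H →
      ∑ n ∈ Icc 1 X, GG B P y b J c (Y + n) * GG B P y b J c (Y + n + h) ≤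
        X * WW2 B y h * (V ^ 2 + η) + η / 2 * X := by
    intro Y h h1 h2
    have h3 := (abs_le.1 ((hcorr s y hs hy hBy hky P hP b J c hc Y X).2.2 h
      (generic hM hHy hP h1 h2))).2
    have hXW2 : 0 ≤ (X : ℝ) * WW2 B y h := mul_nonneg hX0 (WW2_nonneg B y h)
    have h4 : (1 / 2 : ℝ) ^ s * (X * WW2 B y h * K1 ^ 2) ≤ X * WW2 B y h * (η / 2) := by
      calc (1 / 2 : ℝ) ^ s * (X * WW2 B y h * K1 ^ 2) =
          X * WW2 B y h * ((1 / 2 : ℝ) ^ s * K1 ^ 2) := by ring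
        _ ≤ _ := mul_le_mul_of_nonneg_left hsK12 hXW2
    have h5 := mul_le_mul_of_nonneg_left hK2 hXW2
    linarith
  have hd0 : 0 ≤ X * (2 * (W * V1) + η) := by positivity
  have hMM : 0 ≤ H * (W * V) := mul_nonneg hH0 (mul_nonneg hW0 hV0)
  have key := second_moment (GG B P y b J c) X H M (X * W * V) (X * η) (X * (2 * (W * V1) + η))
    (H * (W * V)) (fun h => X * WW2 B y h * (V ^ 2 + η) + η / 2 * X)
    (fun h => by
      have hXW2 : 0 ≤ (X : ℝ) * WW2 B y h := mul_nonneg hX0 (WW2_nonneg B y h)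
      positivity) hd0 hMM hmean hdiag hcor Y
  refine key.trans ?_
  -- the sum over the pairs
  have hpairs : ∑ j ∈ range H, ∑ h ∈ Icc 1 j, (X * WW2 B y h * (V ^ 2 + η) + η / 2 * X) ≤
      X * (V ^ 2 + η) * (W ^ 2 * ((H : ℝ) ^ 2 / 2 + H * A)) + (H : ℝ) ^ 2 / 2 * (η * X / 2) := by
    have e1 : ∀ j ∈ range H, ∑ h ∈ Icc 1 j, (X * WW2 B y h * (V ^ 2 + η) + η / 2 * X) ≤
        X * (V ^ 2 + η) * (W ^ 2 * (j + A)) + j * (η * X / 2) := by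
      intro j _
      rw [sum_add_distrib, sum_const, Nat.card_Icc, Nat.add_sub_cancel, nsmul_eq_mul]
      have e2 : ∑ h ∈ Icc 1 j, (X : ℝ) * WW2 B y h * (V ^ 2 + η) =
          X * (V ^ 2 + η) * ∑ h ∈ Icc 1 j, WW2 B y h := by
        rw [mul_sum]; apply sum_congr rfl; intro h _; ring
      rw [e2]
      have e3 := mul_le_mul_of_nonneg_left (hav j) (show 0 ≤ (X : ℝ) * (V ^ 2 + η) by positivity)
      linarith
    have e4 : (∑ j ∈ range H, (j : ℝ)) ≤ (H : ℝ) ^ 2 / 2 := by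
      have : ∀ n : ℕ, (∑ j ∈ range n, (j : ℝ)) ≤ (n : ℝ) ^ 2 / 2 := by
        intro n
        induction n with
        | zero => simp
        | succ n ih => rw [sum_range_succ]; push_cast; linarith
      exact this H
    calc _ ≤ ∑ j ∈ range H, (X * (V ^ 2 + η) * (W ^ 2 * (j + A)) + j * (η * X / 2)) := sum_le_sum e1
      _ = X * (V ^ 2 + η) * (W ^ 2 * ((∑ j ∈ range H, (j : ℝ)) + H * A)) +
            (∑ j ∈ range H, (j : ℝ)) * (η * X / 2) := by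
          rw [sum_add_distrib, ← mul_sum, ← mul_sum, sum_add_distrib, sum_const, card_range,
            nsmul_eq_mul, ← sum_mul]
      _ ≤ _ := by gcongr
  -- the algebra
  have hWV : W * V ≤ 5 / 4 * (W * V1) := va4 hW0 hV
  have hWV0 : 0 ≤ W * V := mul_nonneg hW0 hV0
  have hV54 : V ≤ 5 / 4 := by linarith
  have hWV1 : W * V ≤ 5 / 4 := va5 hW0 hW1 hV0 hV54
  set v := W * V1 with hv
  have hv0 : 0 ≤ v := mul_nonneg hW0 hV10
  have t1 : (2 * (M : ℝ) + 1) * H * (X * (2 * v + η)) =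
      X * (2 * (2 * M + 1) * (H * v)) + X * ((2 * M + 1) * η * H) := by ring
  have hHη : η * (H : ℝ) ≤ η * (H : ℝ) ^ 2 := by
    apply mul_le_mul_of_nonneg_left _ hη
    rcases Nat.eq_zero_or_pos H with h | h
    · rw [h]; simp
    · have : (1 : ℝ) ≤ H := by exact_mod_cast h
      exact va2 this
  have t2 : X * ((2 * (M : ℝ) + 1) * η * H) ≤ X * ((2 * M + 1) * (η * (H : ℝ) ^ 2)) := by
    apply mul_le_mul_of_nonneg_left _ hX0
    rw [mul_assoc]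
    exact mul_le_mul_of_nonneg_left hHη (by linarith)
  have t3 : 2 * (X * (V ^ 2 + η) * (W ^ 2 * ((H : ℝ) ^ 2 / 2 + H * A)) +
      (H : ℝ) ^ 2 / 2 * (η * X / 2)) = X * (H * (W * V)) ^ 2 + X * (2 * H * A * (W * V) ^ 2) +
      X * (η * (W ^ 2 * ((H : ℝ) ^ 2 + 2 * (H * A)))) + X * (η * (H : ℝ) ^ 2 / 2) := by ring
  have hHA : H * A ≤ (H : ℝ) ^ 2 := va7 hH0 c3
  have hW2 : W ^ 2 ≤ 1 := va6 hW0 hW1
  have t4 : X * (η * (W ^ 2 * ((H : ℝ) ^ 2 + 2 * (H * A)))) ≤ X * (3 * (η * (H : ℝ) ^ 2)) := by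
    apply mul_le_mul_of_nonneg_left _ hX0
    have h1 : W ^ 2 * ((H : ℝ) ^ 2 + 2 * (H * A)) ≤ 1 * (3 * (H : ℝ) ^ 2) :=
      mul_le_mul hW2 (by linarith) (by positivity) zero_le_one
    calc η * (W ^ 2 * ((H : ℝ) ^ 2 + 2 * (H * A))) ≤ η * (1 * (3 * (H : ℝ) ^ 2)) :=
          mul_le_mul_of_nonneg_left h1 hη
      _ = _ := by ring
  have t5 : X * (2 * H * A * (W * V) ^ 2) ≤ X * 1 := by
    apply mul_le_mul_of_nonneg_left _ hX0
    have h1 : (W * V) ^ 2 ≤ (5 / 4 * v) ^ 2 := pow_le_pow_left₀ hWV0 hWV 2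
    have h2 : (H : ℝ) * (2 * H * A * (W * V) ^ 2) ≤ H * 1 := by
      calc (H : ℝ) * (2 * H * A * (W * V) ^ 2) ≤ H * (2 * H * A * (5 / 4 * v) ^ 2) := by
            apply mul_le_mul_of_nonneg_left _ hH0
            exact mul_le_mul_of_nonneg_left h1 (by positivity)
        _ = 25 / 32 * (4 * A * (H * v) ^ 2) := by ring
        _ ≤ 25 / 32 * H := by linarith
        _ ≤ _ := by linarith
    rcases Nat.eq_zero_or_pos H with h | h
    · rw [h]; simp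
    · have hHp : (0 : ℝ) < H := by exact_mod_cast h
      exact le_of_mul_le_mul_left h2 hHp
  have t6 : 2 * (H * (W * V)) * (H * (X * W * V - X * η)) =
      2 * (X * (H * (W * V)) ^ 2) - X * (2 * (W * V) * (η * (H : ℝ) ^ 2)) := by ring
  have t7 : X * (2 * (W * V) * (η * (H : ℝ) ^ 2)) ≤ X * (5 / 2 * (η * (H : ℝ) ^ 2)) := by
    apply mul_le_mul_of_nonneg_left _ hX0
    apply mul_le_mul_of_nonneg_right _ (by positivity)
    linarith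
  have t8 : X * ((2 * M + 10) * η * (H : ℝ) ^ 2) ≤ X * 1 := mul_le_mul_of_nonneg_left c1 hX0
  have t9 : 0 ≤ X * (η * (H : ℝ) ^ 2) := by positivity
  rw [t1, t6]
  have t10 : X * ((2 * M + 10) * η * (H : ℝ) ^ 2) = X * ((2 * M + 1) * (η * (H : ℝ) ^ 2)) +
      9 * (X * (η * (H : ℝ) ^ 2)) := by ring
  have t11 : X * (3 * (η * (H : ℝ) ^ 2)) = 3 * (X * (η * (H : ℝ) ^ 2)) := by ring
  have t12 : X * (5 / 2 * (η * (H : ℝ) ^ 2)) = 5 / 2 * (X * (η * (H : ℝ) ^ 2)) := by ring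
  have t13 : X * (η * (H : ℝ) ^ 2 / 2) = 1 / 2 * (X * (η * (H : ℝ) ^ 2)) := by ring
  have t14 : X * (2 * (2 * (M : ℝ) + 1) * (H * v) + 2) = X * (2 * (2 * M + 1) * (H * v)) + 2 * X := by ring
  have hpairs2 := mul_le_mul_of_nonneg_left hpairs (show (0 : ℝ) ≤ 2 by norm_num)
  rw [t3] at hpairs2
  rw [t14]
  linarith

end Pool.Agent.J4.H65.AT
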