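import Mathlib
import Pool.Agent.J4.H65.AT.Var
import Pool.Agent.J4.H65.AT.Par
import Pool.Agent.J4.H65.AT.PieceB
import Pool.Agent.J4.H65.AT.PieceD
import Pool.Agent.J4.H65.AT.PieceE

/-! Almost prime tuples in almost all short intervals: assembly. -/

set_option autoImplicit false

open Finset

namespace Pool.Agent.J4.H65.AT

open Pool.Agent.Helper112.LP Pool.Agent.H373R2.T7

lemma sum_inv_sq (y z : ℕ) (hy : 1 ≤ y) (k : ℕ) :
    ∑ p ∈ (pz z).filter (fun p => y < p), ((k : ℝ) / p) ^ 2 ≤ (k : ℝ) ^ 2 / y := by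
  rcases Nat.lt_or_ge z y with h | h
  · have : (pz z).filter (fun p => y < p) = ∅ := by
      rw [filter_eq_empty_iff]
      intro p hp
      have := (mem_pz.1 hp).1
      omega
    rw [this, sum_empty]
    positivity
  · have h1 : (pz z).filter (fun p => y < p) ⊆ Ioc y z := by
      intro p hp
      rw [mem_filter] at hp
      rw [mem_Ioc]
      exact ⟨hp.2, (mem_pz.1 hp.1).1⟩
    calc ∑ p ∈ (pz z).filter (fun p => y < p), ((k : ℝ) / p) ^ 2 ≤ ∑ p ∈ Ioc y z, ((k : ℝ) / p) ^ 2 :=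
          sum_le_sum_of_subset_of_nonneg h1 fun _ _ _ => sq_nonneg _
      _ = (k : ℝ) ^ 2 * ∑ p ∈ Ioc y z, ((p : ℝ) ^ 2)⁻¹ := by
          rw [mul_sum]
          apply sum_congr rfl
          intro p _
          rw [div_pow, div_eq_mul_inv]
      _ ≤ (k : ℝ) ^ 2 * ((y : ℝ)⁻¹ - (z : ℝ)⁻¹) :=
          mul_le_mul_of_nonneg_left (sum_Ioc_inv_sq_le_sub (by omega) h) (by positivity)
      _ ≤ (k : ℝ) ^ 2 * (y : ℝ)⁻¹ := by
          apply mul_le_mul_of_nonneg_left _ (by positivity)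
          have : (0 : ℝ) ≤ (z : ℝ)⁻¹ := by positivity
          linarith
      _ = _ := by rw [div_eq_mul_inv]

lemma cu_eq {lam Cw δ L : ℝ} {k : ℕ} (hδ : 0 < δ) (hL : 0 < L) :
    (lam * L ^ k) * (Cw / (δ / 2 * L) ^ k) = Cw * (2 / δ) ^ k * lam := by
  have hh : (2 / δ) ^ k * (δ / 2) ^ k = 1 := by
    rw [← mul_pow]
    have : 2 / δ * (δ / 2) = 1 := by field_simp
    rw [this, one_pow]
  have h1 : (0 : ℝ) < (δ / 2) ^ k := by positivity
  have h2 : (0 : ℝ) < L ^ k := by positivity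
  rw [mul_pow, ← mul_div_assoc, div_eq_iff (by positivity)]
  calc lam * L ^ k * Cw = lam * L ^ k * Cw * 1 := (mul_one _).symm
    _ = lam * L ^ k * Cw * ((2 / δ) ^ k * (δ / 2) ^ k) := by rw [hh]
    _ = _ := by ring

lemma prod_sub_le {s t : Finset ℕ} (h : s ⊆ t) {f : ℕ → ℝ} (hf : ∀ p, 1 ≤ f p) :
    ∏ p ∈ s, f p ≤ ∏ p ∈ t, f p := by
  rw [← prod_sdiff h]
  have h1 : (1 : ℝ) ≤ ∏ p ∈ t \ s, f p := by
    calc (1 : ℝ) = ∏ p ∈ t \ s, (1 : ℝ) := by rw [prod_const_one]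
      _ ≤ _ := prod_le_prod (fun _ _ => zero_le_one) (fun p _ => hf p)
  have h2 : (0 : ℝ) ≤ ∏ p ∈ s, f p := prod_nonneg fun p _ => by linarith [hf p]
  nlinarith

lemma exc_bound {X lam M cl t : ℝ} (hX : 0 ≤ X) (hlam : 1 ≤ lam) (hM : 0 ≤ M) (hcl : 0 < cl)
    (ht : cl * lam ≤ t) :
    X * (2 * (2 * M + 1) * t + 2) / (t / 8) ^ 2 ≤
      64 * (2 * (2 * M + 1) / cl + 2 / cl ^ 2) * (X / lam) := by
  have hlam0 : 0 < lam := by linarith
  have hcl1 : 0 < cl * lam := by positivity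
  have ht0 : 0 < t := lt_of_lt_of_le hcl1 ht
  have a1 : X * (2 * (2 * M + 1) * t + 2) / (t / 8) ^ 2 =
      64 * X * (2 * (2 * M + 1) / t + 2 / t ^ 2) := by
    field_simp
    ring
  rw [a1]
  have a2 : 2 * (2 * M + 1) / t ≤ 2 * (2 * M + 1) / (cl * lam) :=
    div_le_div_of_nonneg_left (by positivity) hcl1 ht
  have a3 : 2 / t ^ 2 ≤ 2 / (cl ^ 2 * lam) := by
    apply div_le_div_of_nonneg_left (by norm_num) (by positivity)
    calc cl ^ 2 * lam ≤ cl ^ 2 * lam ^ 2 := by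
          apply mul_le_mul_of_nonneg_left _ (by positivity)
          nlinarith
      _ = (cl * lam) ^ 2 := by ring
      _ ≤ _ := pow_le_pow_left₀ hcl1.le ht 2
  calc 64 * X * (2 * (2 * M + 1) / t + 2 / t ^ 2) ≤
        64 * X * (2 * (2 * M + 1) / (cl * lam) + 2 / (cl ^ 2 * lam)) := by
        apply mul_le_mul_of_nonneg_left _ (by positivity)
        linarith
    _ = _ := by field_simp

open Classical in
/-- indicator of the integers `m` such that no prime up to `z` divides some `m + b` -/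
noncomputable def ff (B : Finset ℕ) (z m : ℕ) : ℝ := if ∀ p ∈ pz z, ¬ Hit B p m then 1 else 0

/-- the weights `F` and `G` bound the indicator -/
lemma ff_bounds (B : Finset ℕ) (y z b J : ℕ) (hyz : y ≤ z) (hz : z < 2 ^ 2 ^ J) (m : ℕ) :
    ff B z m ≤ GG B ((pz z).filter (fun p => y < p)) y b J (cF b J) m ∧
    2 * GG B ((pz z).filter (fun p => y < p)) y b J (cF b J) m -
      GG B ((pz z).filter (fun p => y < p)) y b J (cG b J) m ≤ ff B z m := by
  classical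
  set P := (pz z).filter (fun p => y < p) with hP
  have h := phi_pointwise b J P (fun p hp => by
    rw [hP, mem_filter] at hp
    exact ⟨(mem_pz.1 hp.1).2, lt_of_le_of_lt (mem_pz.1 hp.1).1 hz⟩) (fun p => Hit B p m)
  have hiff : (∀ p ∈ pz z, ¬ Hit B p m) ↔ (∀ p ∈ pz y, ¬ Hit B p m) ∧ ∀ p ∈ P, ¬ Hit B p m := by
    constructor
    · intro h
      refine ⟨fun p hp => h p (mem_pz.2 ⟨(mem_pz.1 hp).1.trans hyz, (mem_pz.1 hp).2⟩), fun p hp => ?_⟩
      rw [hP, mem_filter] at hp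
      exact h p hp.1
    · rintro ⟨h1, h2⟩ p hp
      rcases Nat.lt_or_ge y p with h | h
      · exact h2 p (mem_filter.2 ⟨hp, h⟩)
      · exact h1 p (mem_pz.2 ⟨h, (mem_pz.1 hp).2⟩)
  unfold ff GG
  by_cases hg : ∀ p ∈ pz y, ¬ Hit B p m
  · rw [if_pos hg, if_pos hg]
    have h1 : (∀ p ∈ pz z, ¬ Hit B p m) ↔ ∀ p ∈ P, ¬ Hit B p m := by
      rw [hiff]; exact ⟨fun h => h.2, fun h => ⟨hg, h⟩⟩
    have h2 : (if ∀ p ∈ pz z, ¬ Hit B p m then (1 : ℝ) else 0) = if ∀ p ∈ P, ¬ Hit B p m then 1 else 0 := by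
      by_cases h3 : ∀ p ∈ P, ¬ Hit B p m
      · rw [if_pos h3, if_pos (h1.2 h3)]
      · rw [if_neg h3, if_neg (fun h4 => h3 (h1.1 h4))]
    rw [h2]
    exact ⟨h.2.2.1, h.2.2.2⟩
  · rw [if_neg hg, if_neg hg, if_neg (fun h' => hg (hiff.1 h').1)]
    constructor
    · exact le_rfl
    · norm_num

lemma WW_split (B : Finset ℕ) (hk : ∀ p : ℕ, p.Prime → (∀ b ∈ B, b < p) → nuB (Hit B) p = B.card)
    (y z : ℕ) (hyz : y ≤ z) (hBy : ∀ b ∈ B, b < y) :
    WW B z = WW B y * ∏ p ∈ (pz z).filter (fun p => y < p), (1 - (B.card : ℝ) / p) := by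
  set P := (pz z).filter (fun p => y < p) with hP
  have h1 : pz z = pz y ∪ P := by
    ext p
    rw [mem_union, hP, mem_filter, mem_pz, mem_pz]
    constructor
    · rintro ⟨h1, h2⟩
      rcases Nat.lt_or_ge y p with h | h
      · exact Or.inr ⟨⟨h1, h2⟩, h⟩
      · exact Or.inl ⟨h, h2⟩
    · rintro (⟨h1, h2⟩ | ⟨h1, _⟩)
      · exact ⟨by omega, h2⟩
      · exact h1
  have hdisj : Disjoint (pz y) P := by
    rw [disjoint_left]
    intro p hp hp'
    rw [hP, mem_filter] at hp'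
    have := (mem_pz.1 hp).1
    omega
  unfold WW
  rw [h1, prod_union hdisj]
  congr 1
  apply prod_congr rfl
  intro p hp
  rw [hP, mem_filter] at hp
  rw [hk p (mem_pz.1 hp.1).2 (fun b hb => lt_trans (hBy b hb) hp.2)]

open Classical in
theorem main (k : ℕ) (hk1 : 1 ≤ k) : ∃ δ : ℝ, 0 < δ ∧ ∀ B : Finset ℕ, B.card = k →
    (∀ p : ℕ, p.Prime → nuB (Hit B) p < p) → ∃ c C : ℝ, 0 < c ∧ 0 < C ∧ ∀ lam : ℝ, 1 ≤ lam →
    ∃ X0 : ℕ, ∀ X : ℕ, X0 ≤ X → ∀ Y : ℕ,
      (((Icc 1 X).filter (fun n => ¬ (c * lam ≤ ∑ j ∈ range ⌊lam * Real.log X ^ k⌋₊,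
          ff B ⌊(X : ℝ) ^ δ⌋₊ (Y + j + n) ∧
        ∑ j ∈ range ⌊lam * Real.log X ^ k⌋₊, ff B ⌊(X : ℝ) ^ δ⌋₊ (Y + j + n) ≤ C * lam))).card : ℝ) ≤
      C * X / lam := by
  obtain ⟨C1, hC1, hD1⟩ := VV_bounds k
  obtain ⟨C2, hC2, hD2⟩ := EE_bounds k
  set b := max C1 C2 with hb
  have hb0 : (0 : ℝ) < 32 * (4 * b + 6) := by positivity
  refine ⟨1 / (32 * (4 * b + 6)), by positivity, fun B hBk hadm => ?_⟩
  set δ : ℝ := 1 / (32 * (4 * b + 6)) with hδ
  have hδ0 : 0 < δ := by rw [hδ]; positivity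
  have hδ1 : δ < 1 := by
    rw [hδ, div_lt_one hb0]
    have : (0 : ℝ) ≤ b := Nat.cast_nonneg _
    linarith
  have hk : ∀ p : ℕ, p.Prime → (∀ b ∈ B, b < p) → nuB (Hit B) p = B.card :=
    fun p hp h => nuB_Hit B p hp h
  obtain ⟨C0, y0, hC0, hvar⟩ := variance B hk
  obtain ⟨c1, Cw, hc1, hCw, hWW⟩ := WW_bounds B hadm
  obtain ⟨CA, hCA, hprA⟩ := prod_upper (2 * k ^ 2 * (k + 1) ^ 2)
  obtain ⟨Cp, hCp, hprp⟩ := prod_upper (3 * k)
  set n := 2 * k ^ 2 * (k + 1) ^ 2 with hn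
  set M := B.sup id with hM
  have hBM : ∀ b ∈ B, b ≤ M := fun b hb => le_sup (f := id) hb
  set T := C0 + y0 + C1 + C2 + k + M + 2 with hT
  -- the constants
  set cl : ℝ := c1 / 2 with hcl
  set cu : ℝ := Cw * (2 / δ) ^ k with hcu
  have hcl0 : 0 < cl := by positivity
  have hcu0 : 0 < cu := by positivity
  set C : ℝ := 2 * cu + 2 * (64 * (2 * (2 * M + 1) / cl + 2 / cl ^ 2)) with hC
  refine ⟨cl / 4, C, by positivity, by positivity, fun lam hlam => ?_⟩
  have hlam0 : 0 < lam := by linarith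
  obtain ⟨X0, hX0⟩ := params k M C0 T n hk1 lam CA Cp Cw δ hlam hCA hCp hδ0 hδ1
  refine ⟨max X0 2, fun X hX Y => ?_⟩
  have hpar := hX0 X (le_trans (le_max_left _ _) hX)
  have hX2 : 2 ≤ X := le_trans (le_max_right _ _) hX
  set y := ⌈Real.log X ^ (5 * k + 4)⌉₊ with hy
  set s := ⌈2 * (5 * k + 1) * Real.log (Real.log X)⌉₊ with hs
  set H := ⌊lam * Real.log X ^ k⌋₊ with hH
  set z := ⌊(X : ℝ) ^ δ⌋₊ with hz
  set η : ℝ := 1 / (8 * (2 * M + 10) * lam ^ 2 * Real.log X ^ (2 * k)) with hη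
  obtain ⟨Ts, Ty, HM, yz, logz, logz', logz0, zX, Hlow, Hup, η0, ηH, e1, e2, e3, e4, e5⟩ := hpar
  set P := (pz z).filter (fun p => y < p) with hP
  set J := JJ z with hJ
  have hzJ : z < 2 ^ 2 ^ J := JJ_lt z
  have hy2 : 2 ≤ y := by omega
  have hz2 : 2 ≤ z := by omega
  have hPP : ∀ p ∈ P, p.Prime ∧ y < p := by
    intro p hp
    rw [hP, mem_filter] at hp
    exact ⟨(mem_pz.1 hp.1).2, hp.2⟩
  have hPz : ∀ p ∈ P, p < 2 ^ 2 ^ J := by
    intro p hp
    rw [hP, mem_filter] at hp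
    exact lt_of_le_of_lt (mem_pz.1 hp.1).1 hzJ
  have hBy : ∀ b ∈ B, b < y := fun b hb => by have := hBM b hb; omega
  have hg : ∀ p ∈ P, 0 ≤ (fun l : ℕ => (B.card : ℝ) / l) p ∧
      (fun l : ℕ => (B.card : ℝ) / l) p ≤ (k : ℝ) / ((p : ℝ) - 1) := by
    intro p hp
    have hp1 : (1 : ℝ) < p := by exact_mod_cast (hPP p hp).1.one_lt
    refine ⟨by positivity, ?_⟩
    simp only [hBk]
    apply div_le_div_of_nonneg_left (Nat.cast_nonneg _) (by linarith) (by linarith)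
  obtain ⟨V0, VF1, VF2, VG1, VG2⟩ := hD1 b J P (fun l => (B.card : ℝ) / l) (le_max_left _ _)
    (fun p hp => ⟨(hPP p hp).1, by have := (hPP p hp).2; omega, hPz p hp⟩) hg
  obtain ⟨EF, EG⟩ := hD2 b J P (fun l => (B.card : ℝ) / l) (le_max_right _ _)
    (fun p hp => ⟨(hPP p hp).1, by have := (hPP p hp).2; omega, hPz p hp⟩) hg
  set V1 := ∏ p ∈ P, (1 - (B.card : ℝ) / p) with hV1
  have hV11 : V1 ≤ 1 := by
    rw [hV1]
    apply prod_le_one
    · intro p hp
      have hp0 : (0 : ℝ) < p := by exact_mod_cast (hPP p hp).1.pos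
      have h1 : (B.card : ℝ) / p ≤ 1 := by
        rw [div_le_one hp0]
        have := (hPP p hp).2
        exact_mod_cast (by omega : B.card ≤ p)
      linarith
    · intro p hp
      have : (0 : ℝ) ≤ (B.card : ℝ) / p := by positivity
      linarith
  -- the density
  have hv : WW B y * V1 = WW B z := (WW_split B hk y z yz hBy).symm
  set v := WW B y * V1 with hvd
  obtain ⟨w1, w2⟩ := hWW z hz2
  rw [hBk] at w1 w2
  have hlzk : 0 < Real.log z ^ k := by positivity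
  have hLk : 0 < Real.log X ^ k := pow_pos (lt_of_lt_of_le logz0 logz') k
  have hHv1 : cl * lam ≤ H * v := by
    have a1 : c1 / Real.log X ^ k ≤ v := by
      rw [hv]
      refine le_trans ?_ w1
      apply div_le_div_of_nonneg_left hc1.le hlzk
      exact pow_le_pow_left₀ logz0.le logz' k
    calc cl * lam = (lam * Real.log X ^ k / 2) * (c1 / Real.log X ^ k) := by
          rw [hcl]; field_simp
      _ ≤ H * v := mul_le_mul Hlow a1 (by positivity) (Nat.cast_nonneg _)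
  have hHv2 : H * v ≤ cu * lam := by
    have a1 : v ≤ Cw / (δ / 2 * Real.log X) ^ k := by
      rw [hv]
      refine w2.trans ?_
      apply div_le_div_of_nonneg_left hCw.le
      · have : 0 < Real.log X := lt_of_lt_of_le logz0 logz'
        positivity
      · apply pow_le_pow_left₀ _ logz
        have : 0 < Real.log X := lt_of_lt_of_le logz0 logz'
        positivity
    have hL0 : 0 < Real.log X := lt_of_lt_of_le logz0 logz'
    calc H * v ≤ (lam * Real.log X ^ k) * (Cw / (δ / 2 * Real.log X) ^ k) :=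
          mul_le_mul Hup a1 (by rw [hv]; exact WW_fac_nonneg B z) (by positivity)
      _ = cu * lam := cu_eq hδ0 hL0
  have hHv0 : 0 < H * v := lt_of_lt_of_le (by positivity) hHv1
  -- products over P
  have hsubP : P ⊆ pz z := filter_subset _ _
  have hK3 : ∏ p ∈ P, (1 + 3 * ((B.card : ℝ) / p)) ≤ Cp * Real.log X ^ (3 * k) := by
    calc ∏ p ∈ P, (1 + 3 * ((B.card : ℝ) / p)) ≤ ∏ p ∈ pz z, (1 + ((3 * k : ℕ) : ℝ) / p) := by
          have a1 : ∏ p ∈ P, (1 + 3 * ((B.card : ℝ) / p)) = ∏ p ∈ P, (1 + ((3 * k : ℕ) : ℝ) / p) := by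
            apply prod_congr rfl
            intro p _
            rw [hBk]
            push_cast
            ring
          rw [a1]
          apply prod_sub_le hsubP
          intro p
          have : (0 : ℝ) ≤ ((3 * k : ℕ) : ℝ) / p := by positivity
          linarith
      _ ≤ Cp * Real.log z ^ (3 * k) := hprp z hz2
      _ ≤ _ := by
          apply mul_le_mul_of_nonneg_left _ hCp.le
          exact pow_le_pow_left₀ logz0.le logz' _
  have hhalf : (0 : ℝ) ≤ (1 / 2 : ℝ) ^ s := by positivity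
  have g1 : (1 / 2 : ℝ) ^ s * ∏ p ∈ P, (1 + 3 * ((B.card : ℝ) / p)) ≤ η / 2 :=
    (mul_le_mul_of_nonneg_left hK3 hhalf).trans e1
  have g2 : (∑ p ∈ P, ((B.card : ℝ) / p) ^ 2) * ∏ p ∈ P, (1 + 3 * ((B.card : ℝ) / p)) ≤ η / 2 := by
    have a1 : ∑ p ∈ P, ((B.card : ℝ) / p) ^ 2 ≤ (k : ℝ) ^ 2 / y := by
      rw [hBk]; exact sum_inv_sq y z (by omega) k
    refine le_trans ?_ e2
    apply mul_le_mul a1 hK3 _ (by positivity)
    apply prod_nonneg
    intro p _
    positivity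
  have g3 : (y : ℝ) ^ (8 * (C0 * s)) * DD b J ^ 4 ≤ η / 2 * X := by
    refine le_trans ?_ e3
    apply mul_le_mul_of_nonneg_left _ (by positivity)
    have a1 : ((2 : ℝ) ^ 2 ^ J) ≤ (z : ℝ) ^ 2 := by exact_mod_cast JJ_le z hz2
    have hX0' : (0 : ℝ) < X := by exact_mod_cast (by omega : 0 < X)
    calc DD b J ^ 4 = ((2 : ℝ) ^ 2 ^ J) ^ (4 * (4 * b + 6)) := by
          unfold DD; rw [← pow_mul, mul_comm (4 * b + 6) 4]
      _ ≤ ((z : ℝ) ^ 2) ^ (4 * (4 * b + 6)) := pow_le_pow_left₀ (by positivity) a1 _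
      _ = (z : ℝ) ^ (8 * (4 * b + 6)) := by rw [← pow_mul]; ring_nf
      _ ≤ ((X : ℝ) ^ δ) ^ (8 * (4 * b + 6)) := pow_le_pow_left₀ (Nat.cast_nonneg _) zX _
      _ = (X : ℝ) ^ (1 / 4 : ℝ) := by
          rw [← Real.rpow_natCast, ← Real.rpow_mul hX0'.le]
          congr 1
          rw [hδ]
          push_cast
          field_simp
          norm_num
  have hAdef : ∀ j : ℕ, ∑ h ∈ Icc 1 j, WW2 B y h ≤ WW B y ^ 2 *
      (j + ∏ p ∈ pz y, (1 + (2 * (B.card : ℝ) ^ 2 * ((B.card : ℝ) + 1) ^ 2) / (p : ℝ))) :=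
    fun j => average B hadm y j
  set A : ℝ := ∏ p ∈ pz y, (1 + (2 * (B.card : ℝ) ^ 2 * ((B.card : ℝ) + 1) ^ 2) / (p : ℝ)) with hA
  have hA0 : 0 ≤ A := prod_nonneg fun p _ => by positivity
  have hAle : A ≤ CA * Real.log y ^ n := by
    have := hprA y hy2
    refine le_trans (le_of_eq ?_) this
    rw [hA]
    apply prod_congr rfl
    intro p _
    rw [hBk, hn]
    push_cast
    ring
  have g4 : A ≤ H := hAle.trans e4
  have g5 : 4 * A * (H * v) ^ 2 ≤ H := by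
    refine le_trans ?_ e5
    have a1 : H * v ≤ lam * Cw * (2 / δ) ^ k := by
      refine hHv2.trans (le_of_eq ?_)
      rw [hcu]; ring
    have a2 : (H * v) ^ 2 ≤ (lam * Cw * (2 / δ) ^ k) ^ 2 := pow_le_pow_left₀ hHv0.le a1 2
    have a3 : 0 ≤ CA * Real.log y ^ n := hA0.trans hAle
    apply mul_le_mul _ a2 (sq_nonneg _) (by positivity)
    linarith
  have hBcy : B.card ≤ y := by omega
  -- the two variances
  have hvF := hvar s y (by omega) (by omega) hBy hBcy P hPP b J (cF b J) (abs_cF b J) M H X Y V1 η A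
    hBM HM η0 hA0 hV11 (V0.le.trans VF1) VF2 EF g1 g2 g3 hAdef ηH g5 g4
  have hvG := hvar s y (by omega) (by omega) hBy hBcy P hPP b J (cG b J) (abs_cG b J) M H X Y V1 η A
    hBM HM η0 hA0 hV11 (V0.le.trans VG1) VG2 EG g1 g2 g3 hAdef ηH g5 g4
  set VF := VV P (fun l => (B.card : ℝ) / l) b J (cF b J) with hVF
  set VG := VV P (fun l => (B.card : ℝ) / l) b J (cG b J) with hVG
  have hW0 : 0 ≤ WW B y := WW_fac_nonneg B y
  have hH0 : (0 : ℝ) ≤ H := Nat.cast_nonneg _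
  have mF1 : H * v ≤ H * (WW B y * VF) := by
    rw [hvd]
    exact mul_le_mul_of_nonneg_left (mul_le_mul_of_nonneg_left VF1 hW0) hH0
  have mF2 : H * (WW B y * VF) ≤ 5 / 4 * (H * v) := by
    rw [hvd]
    have := mul_le_mul_of_nonneg_left (mul_le_mul_of_nonneg_left VF2 hW0) hH0
    linarith
  have mG1 : H * v ≤ H * (WW B y * VG) := by
    rw [hvd]
    exact mul_le_mul_of_nonneg_left (mul_le_mul_of_nonneg_left VG1 hW0) hH0
  have mG2 : H * (WW B y * VG) ≤ 5 / 4 * (H * v) := by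
    rw [hvd]
    have := mul_le_mul_of_nonneg_left (mul_le_mul_of_nonneg_left VG2 hW0) hH0
    linarith
  have hη8 : 0 < H * v / 8 := by linarith
  have cheF := chebyshev (fun n => ∑ j ∈ range H, GG B P y b J (cF b J) (Y + j + n)) X
    (H * (WW B y * VF)) _ (H * v / 8) hη8 hvF
  have cheG := chebyshev (fun n => ∑ j ∈ range H, GG B P y b J (cG b J) (Y + j + n)) X
    (H * (WW B y * VG)) _ (H * v / 8) hη8 hvG
  -- the bound for the exceptional sets
  have hexc : X * (2 * (2 * (M : ℝ) + 1) * (H * v) + 2) / (H * v / 8) ^ 2 ≤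
      64 * (2 * (2 * M + 1) / cl + 2 / cl ^ 2) * (X / lam) :=
    exc_bound (Nat.cast_nonneg _) hlam (Nat.cast_nonneg _) hcl0 hHv1
  -- the exceptional set
  have hsub : (Icc 1 X).filter (fun n => ¬ (cl / 4 * lam ≤ ∑ j ∈ range H, ff B z (Y + j + n) ∧
        ∑ j ∈ range H, ff B z (Y + j + n) ≤ C * lam)) ⊆
      (Icc 1 X).filter (fun n => H * v / 8 ≤
        |∑ j ∈ range H, GG B P y b J (cF b J) (Y + j + n) - H * (WW B y * VF)|) ∪
      (Icc 1 X).filter (fun n => H * v / 8 ≤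
        |∑ j ∈ range H, GG B P y b J (cG b J) (Y + j + n) - H * (WW B y * VG)|) := by
    intro n hn
    rw [mem_filter] at hn
    rw [mem_union, mem_filter, mem_filter]
    by_contra hcon
    rw [not_or] at hcon
    have q1 : |∑ j ∈ range H, GG B P y b J (cF b J) (Y + j + n) - H * (WW B y * VF)| < H * v / 8 := by
      by_contra h; exact hcon.1 ⟨hn.1, not_lt.1 h⟩
    have q2 : |∑ j ∈ range H, GG B P y b J (cG b J) (Y + j + n) - H * (WW B y * VG)| < H * v / 8 := by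
      by_contra h; exact hcon.2 ⟨hn.1, not_lt.1 h⟩
    rw [abs_lt] at q1 q2
    apply hn.2
    have u1 : ∑ j ∈ range H, ff B z (Y + j + n) ≤ ∑ j ∈ range H, GG B P y b J (cF b J) (Y + j + n) :=
      sum_le_sum fun j _ => (ff_bounds B y z b J yz hzJ (Y + j + n)).1
    have u2 : 2 * ∑ j ∈ range H, GG B P y b J (cF b J) (Y + j + n) -
        ∑ j ∈ range H, GG B P y b J (cG b J) (Y + j + n) ≤ ∑ j ∈ range H, ff B z (Y + j + n) := by
      rw [mul_sum, ← sum_sub_distrib]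
      exact sum_le_sum fun j _ => (ff_bounds B y z b J yz hzJ (Y + j + n)).2
    constructor
    · have : cl / 4 * lam = 1 / 4 * (cl * lam) := by ring
      rw [this]
      linarith [q1.1, q2.2]
    · have h1 : ∑ j ∈ range H, ff B z (Y + j + n) ≤ 2 * (H * v) := by linarith [q1.2]
      have h2 : 2 * (H * v) ≤ 2 * cu * lam := by linarith
      have h3 : 2 * cu * lam ≤ C * lam := by
        apply mul_le_mul_of_nonneg_right _ hlam0.le
        rw [hC]
        have : 0 ≤ 2 * (64 * (2 * (2 * (M : ℝ) + 1) / cl + 2 / cl ^ 2)) := by positivity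
        linarith
      linarith
  have hcard : (((Icc 1 X).filter (fun n => ¬ (cl / 4 * lam ≤ ∑ j ∈ range H, ff B z (Y + j + n) ∧
        ∑ j ∈ range H, ff B z (Y + j + n) ≤ C * lam))).card : ℝ) ≤
      (((Icc 1 X).filter (fun n => H * v / 8 ≤
        |∑ j ∈ range H, GG B P y b J (cF b J) (Y + j + n) - H * (WW B y * VF)|)).card : ℝ) +
      (((Icc 1 X).filter (fun n => H * v / 8 ≤
        |∑ j ∈ range H, GG B P y b J (cG b J) (Y + j + n) - H * (WW B y * VG)|)).card : ℝ) := by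
    exact_mod_cast (card_le_card hsub).trans (card_union_le _ _)
  refine hcard.trans ((add_le_add cheF cheG).trans ((add_le_add hexc hexc).trans ?_))
  have : C * X / lam = C * (X / lam) := by ring
  rw [this]
  have hXl : 0 ≤ (X : ℝ) / lam := by positivity
  have h9 : 64 * (2 * (2 * (M : ℝ) + 1) / cl + 2 / cl ^ 2) * (X / lam) +
      64 * (2 * (2 * M + 1) / cl + 2 / cl ^ 2) * (X / lam) =
      (2 * (64 * (2 * (2 * M + 1) / cl + 2 / cl ^ 2))) * (X / lam) := by ring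
  rw [h9]
  apply mul_le_mul_of_nonneg_right _ hXl
  rw [hC]
  linarith

end Pool.Agent.J4.H65.AT
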